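import Mathlib

/-!
# Self-avoiding walks as lists
-/

namespace Pool.Agent.Work.MP_91103f_co

section

variable {V : Type} (G : SimpleGraph V)

/-- Self-avoiding walks from `u` as lists of the later vertices. -/
def PL (u : V) (n : ℕ) : Set (List V) :=
  {L | List.IsChain G.Adj (u :: L) ∧ (u :: L).Nodup ∧ L.length = n}

variable {G}

theorem exists_walk (L : List V) : ∀ (u : V), List.IsChain G.Adj (u :: L) →
    ∃ (w : V) (p : G.Walk u w), p.support = u :: L := by
  induction L with
  | nil => intro u _; exact ⟨u, SimpleGraph.Walk.nil, rfl⟩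
  | cons v L ih =>
    intro u h
    rw [List.isChain_cons_cons] at h
    obtain ⟨w, p, hp⟩ := ih v h.2
    exact ⟨w, SimpleGraph.Walk.cons h.1 p, by rw [SimpleGraph.Walk.support_cons, hp]⟩

theorem support_inj {u : V} : ∀ {w w' : V} (p : G.Walk u w) (p' : G.Walk u w'),
    p.support = p'.support → (⟨w, p⟩ : Σ w, G.Walk u w) = ⟨w', p'⟩ := by
  intro w w' p
  induction p with
  | nil =>
    intro p' h
    cases p' with
    | nil => rfl
    | cons h' q =>
      rw [SimpleGraph.Walk.support_nil, SimpleGraph.Walk.support_cons] at h
      have := congrArg List.length h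
      simp at this
  | cons hadj q ih =>
    intro p' h
    cases p' with
    | nil =>
      rw [SimpleGraph.Walk.support_nil, SimpleGraph.Walk.support_cons] at h
      have := congrArg List.length h
      simp at this
    | cons h' q' =>
      rw [SimpleGraph.Walk.support_cons, SimpleGraph.Walk.support_cons, List.cons.injEq] at h
      have h2 := h.2
      have h3 : q.support.head? = q'.support.head? := by rw [h2]
      rw [SimpleGraph.Walk.support_eq_cons q, SimpleGraph.Walk.support_eq_cons q'] at h3
      simp only [List.head?_cons, Option.some.injEq] at h3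
      subst h3
      have := ih q' h2
      rw [Sigma.mk.injEq] at this
      obtain ⟨rfl, h4⟩ := this
      rw [eq_of_heq h4]

theorem ncard_paths (u : V) (n : ℕ) :
    Set.ncard {q : (Σ w : V, G.Walk u w) | q.2.IsPath ∧ q.2.length = n} =
      (PL G u n).ncard := by
  apply Set.ncard_congr (fun q _ => q.2.support.tail)
  · rintro ⟨w, p⟩ ⟨h1, h2⟩
    have h3 : p.support = u :: p.support.tail := SimpleGraph.Walk.support_eq_cons p
    refine ⟨?_, ?_, ?_⟩
    · change List.IsChain G.Adj (u :: p.support.tail)
      rw [← h3]
      exact p.isChain_adj_support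
    · change (u :: p.support.tail).Nodup
      rw [← h3]
      exact h1.support_nodup
    · change p.support.tail.length = n
      rw [List.length_tail, SimpleGraph.Walk.length_support]
      simpa using h2
  · rintro ⟨w, p⟩ ⟨w', p'⟩ _ _ h
    apply support_inj
    rw [SimpleGraph.Walk.support_eq_cons p, SimpleGraph.Walk.support_eq_cons p']
    rw [h]
  · rintro L ⟨h1, h2, h3⟩
    obtain ⟨w, p, hp⟩ := exists_walk L u h1
    refine ⟨⟨w, p⟩, ⟨?_, ?_⟩, ?_⟩
    · rw [SimpleGraph.Walk.isPath_def, hp]
      exact h2
    · have := SimpleGraph.Walk.length_support p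
      rw [hp, List.length_cons] at this
      change p.length = n
      omega
    · change p.support.tail = L
      rw [hp]
      rfl

theorem finite_chains (hfin : ∀ v, (G.neighborSet v).Finite) (n : ℕ) : ∀ (u : V),
    {L : List V | List.IsChain G.Adj (u :: L) ∧ L.length = n}.Finite := by
  induction n with
  | zero =>
    intro u
    apply (Set.finite_singleton ([] : List V)).subset
    rintro L ⟨-, h⟩
    exact List.length_eq_zero_iff.1 h
  | succ n ih =>
    intro u
    apply ((hfin u).biUnion (fun v _ => (ih v).image (fun L => v :: L))).subset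
    rintro L ⟨h1, h2⟩
    cases L with
    | nil => simp at h2
    | cons v L =>
      rw [List.isChain_cons_cons] at h1
      rw [Set.mem_iUnion₂]
      exact ⟨v, h1.1, L, ⟨h1.2, by simpa using h2⟩, rfl⟩

theorem finite_PL (hfin : ∀ v, (G.neighborSet v).Finite) (n : ℕ) (u : V) :
    (PL G u n).Finite :=
  (finite_chains hfin n u).subset fun _ h => ⟨h.1, h.2.2⟩

end

end Pool.Agent.Work.MP_91103f_co
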