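import Mathlib

/-!
# Plane triangulations: links of vertices
-/

namespace Pool.Agent.Work.MP_91103f_co

open Classical

/-- The hypotheses of the frozen statement: `G` with the faces `F` is a plane triangulation. -/
structure Tri (V : Type) (G : SimpleGraph V) (F : Set (Finset V)) : Prop where
  inf : Infinite V
  conn : G.Connected
  deg : ∀ v : V, (G.neighborSet v).Finite ∧ 6 ≤ (G.neighborSet v).ncard
  face : ∀ f ∈ F, f.card = 3 ∧ ∀ x ∈ f, ∀ y ∈ f, x ≠ y → G.Adj x y
  two : ∀ x y : V, G.Adj x y → {f : Finset V | f ∈ F ∧ x ∈ f ∧ y ∈ f}.ncard = 2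
  link : ∀ v x y : V, G.Adj v x → G.Adj v y →
    (SimpleGraph.fromRel (fun a b : V => v ≠ a ∧ v ≠ b ∧
      ∃ f ∈ F, v ∈ f ∧ a ∈ f ∧ b ∈ f)).Reachable x y
  hom : ∀ C : Finset (Sym2 V), (∀ e ∈ C, e ∈ G.edgeSet) →
    (∀ v : V, Even {e : Sym2 V | e ∈ C ∧ v ∈ e}.ncard) →
    ∃ S : Finset (Finset V), (∀ f ∈ S, f ∈ F) ∧
      ∀ e ∈ G.edgeSet, (e ∈ C ↔ Odd {f : Finset V | f ∈ S ∧ ∀ x ∈ e, x ∈ f}.ncard)

/-- The three distinct vertices `u v w` span a face. -/
def T3 {V : Type} (F : Set (Finset V)) (u v w : V) : Prop :=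
  (u ≠ v ∧ v ≠ w ∧ u ≠ w) ∧ ({u, v, w} : Finset V) ∈ F

section

variable {V : Type} {G : SimpleGraph V} {F : Set (Finset V)}

theorem T3.swap {u v w : V} (h : T3 F u v w) : T3 F v u w := by
  refine ⟨⟨h.1.1.symm, h.1.2.2, h.1.2.1⟩, ?_⟩
  rw [show ({v, u, w} : Finset V) = {u, v, w} by ext; simp; tauto]
  exact h.2

theorem T3.swap' {u v w : V} (h : T3 F u v w) : T3 F u w v := by
  refine ⟨⟨h.1.2.2, h.1.2.1.symm, h.1.1⟩, ?_⟩
  rw [show ({u, w, v} : Finset V) = {u, v, w} by ext; simp; tauto]
  exact h.2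

variable (hT : Tri V G F)
include hT

theorem Tri.adj {u v w : V} (h : T3 F u v w) : G.Adj u v :=
  (hT.face _ h.2).2 u (by simp) v (by simp) h.1.1

theorem Tri.adj' {u v w : V} (h : T3 F u v w) : G.Adj u w := hT.adj h.swap'

/-- third vertex of a face -/
theorem Tri.exists_third {u v : V} (huv : u ≠ v) {f : Finset V} (hf : f ∈ F) (hu : u ∈ f)
    (hv : v ∈ f) : ∃ w, f = {u, v, w} ∧ T3 F u v w := by
  have h3 := (hT.face f hf).1
  have h1 : ((f.erase u).erase v).card = 1 := by
    rw [Finset.card_erase_of_mem (Finset.mem_erase.2 ⟨huv.symm, hv⟩),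
      Finset.card_erase_of_mem hu, h3]
  obtain ⟨w, hw⟩ := Finset.card_eq_one.1 h1
  have hwm : w ∈ (f.erase u).erase v := by rw [hw]; simp
  rw [Finset.mem_erase, Finset.mem_erase] at hwm
  have hfe : f = {u, v, w} := by
    ext x
    constructor
    · intro hx
      by_cases h1 : x = u
      · simp [h1]
      by_cases h2 : x = v
      · simp [h2]
      have : x ∈ (f.erase u).erase v := by
        rw [Finset.mem_erase, Finset.mem_erase]
        exact ⟨h2, h1, hx⟩
      rw [hw, Finset.mem_singleton] at this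
      simp [this]
    · intro hx
      simp only [Finset.mem_insert, Finset.mem_singleton] at hx
      rcases hx with rfl | rfl | rfl
      · exact hu
      · exact hv
      · exact hwm.2.2
  exact ⟨w, hfe, ⟨⟨huv, hwm.1.symm, hwm.2.1.symm⟩, by rw [← hfe]; exact hf⟩⟩

/-- exactly two faces at an edge -/
theorem Tri.exists_two {v b : V} (h : G.Adj v b) :
    ∃ c₁ c₂, c₁ ≠ c₂ ∧ T3 F v b c₁ ∧ T3 F v b c₂ ∧ ∀ c, T3 F v b c → c = c₁ ∨ c = c₂ := by
  obtain ⟨f₁, f₂, hne, hset⟩ := Set.ncard_eq_two.1 (hT.two v b h)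
  have h1 : f₁ ∈ {f : Finset V | f ∈ F ∧ v ∈ f ∧ b ∈ f} := by rw [hset]; simp
  have h2 : f₂ ∈ {f : Finset V | f ∈ F ∧ v ∈ f ∧ b ∈ f} := by rw [hset]; simp
  obtain ⟨c₁, e1, t1⟩ := hT.exists_third h.ne h1.1 h1.2.1 h1.2.2
  obtain ⟨c₂, e2, t2⟩ := hT.exists_third h.ne h2.1 h2.2.1 h2.2.2
  refine ⟨c₁, c₂, ?_, t1, t2, ?_⟩
  · rintro rfl
    exact hne (by rw [e1, e2])
  · intro c hc
    have h3 : ({v, b, c} : Finset V) ∈ {f : Finset V | f ∈ F ∧ v ∈ f ∧ b ∈ f} :=
      ⟨hc.2, by simp, by simp⟩
    rw [hset] at h3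
    have key : ∀ c', T3 F v b c' → ({v, b, c} : Finset V) = {v, b, c'} → c = c' := by
      intro c' hc' he
      have : c ∈ ({v, b, c'} : Finset V) := by rw [← he]; simp
      simp only [Finset.mem_insert, Finset.mem_singleton] at this
      rcases this with h | h | h
      · exact absurd h hc.1.2.2.symm
      · exact absurd h hc.1.2.1.symm
      · exact h
    rcases h3 with h3 | h3
    · exact Or.inl (key _ t1 (by rw [h3, e1]))
    · exact Or.inr (key _ t2 (by rw [Set.mem_singleton_iff.1 h3, e2]))

theorem Tri.exists_nx {v a b : V} (h : T3 F v a b) :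
    ∃ c, c ≠ a ∧ T3 F v b c ∧ ∀ c', T3 F v b c' → c' = a ∨ c' = c := by
  obtain ⟨c₁, c₂, hne, t1, t2, hall⟩ := hT.exists_two (hT.adj' h)
  rcases hall a h.swap' with rfl | rfl
  · exact ⟨c₂, hne.symm, t2, hall⟩
  · exact ⟨c₁, hne, t1, fun c' hc' => (hall c' hc').symm⟩

omit hT in
variable (F) in
/-- The next vertex of the link of `v` after `a, b`. -/
noncomputable def nx (v a b : V) : V := if h : ∃ c, c ≠ a ∧ T3 F v b c then h.choose else v

theorem Tri.nx_spec {v a b : V} (h : T3 F v a b) :
    nx F v a b ≠ a ∧ T3 F v b (nx F v a b) ∧ ∀ c, T3 F v b c → c = a ∨ c = nx F v a b := by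
  obtain ⟨c, h1, h2, h3⟩ := hT.exists_nx h
  have he : ∃ c, c ≠ a ∧ T3 F v b c := ⟨c, h1, h2⟩
  have hn : nx F v a b = he.choose := dif_pos he
  have hs := he.choose_spec
  rw [← hn] at hs
  refine ⟨hs.1, hs.2, ?_⟩
  have hc : nx F v a b = c := by
    rcases h3 _ hs.2 with h | h
    · exact absurd h hs.1
    · exact h
  rw [hc]
  exact h3

omit hT in
variable (F) in
/-- The link of `v`, starting from `a, b`, as a pair of consecutive vertices. -/
noncomputable def zp (v a b : V) : ℕ → V × V
  | 0 => (a, b)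
  | k + 1 => ((zp v a b k).2, nx F v (zp v a b k).1 (zp v a b k).2)

omit hT in
variable (F) in
/-- The link of `v`, starting from `a, b`. -/
noncomputable def z (v a b : V) (k : ℕ) : V := (zp F v a b k).1

omit hT in
theorem z_zero (v a b : V) : z F v a b 0 = a := rfl

omit hT in
theorem z_one (v a b : V) : z F v a b 1 = b := rfl

omit hT in
theorem zp_snd (v a b : V) (k : ℕ) : (zp F v a b k).2 = z F v a b (k + 1) := rfl

omit hT in
theorem z_add_two (v a b : V) (k : ℕ) :
    z F v a b (k + 2) = nx F v (z F v a b k) (z F v a b (k + 1)) := rfl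

variable {v a b : V} (h : T3 F v a b)
include h

theorem Tri.z_face (k : ℕ) : T3 F v (z F v a b k) (z F v a b (k + 1)) := by
  induction k with
  | zero => exact h
  | succ k ih =>
    rw [z_add_two]
    exact (hT.nx_spec ih).2.1

theorem Tri.z_adj (k : ℕ) : G.Adj v (z F v a b k) := hT.adj (hT.z_face h k)

theorem Tri.z_ne1 (k : ℕ) : z F v a b k ≠ z F v a b (k + 1) := (hT.z_face h k).1.2.1

theorem Tri.z_ne2 (k : ℕ) : z F v a b (k + 2) ≠ z F v a b k := by
  rw [z_add_two]
  exact (hT.nx_spec (hT.z_face h k)).1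

theorem Tri.z_nb (k : ℕ) {c : V} (hc : T3 F v (z F v a b (k + 1)) c) :
    c = z F v a b k ∨ c = z F v a b (k + 2) := by
  rw [z_add_two]
  exact (hT.nx_spec (hT.z_face h k)).2.2 c hc

/-- backwards determinism -/
theorem Tri.z_back {i j : ℕ} (h1 : z F v a b (i + 1) = z F v a b (j + 1))
    (h2 : z F v a b (i + 2) = z F v a b (j + 2)) : z F v a b i = z F v a b j := by
  have h3 := hT.z_nb h i (c := z F v a b j) (by
    rw [h1]; exact (hT.z_face h j).swap')
  rcases h3 with h3 | h3
  · exact h3.symm
  · exfalso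
    rw [h2] at h3
    exact hT.z_ne2 h j h3.symm

theorem Tri.z_back_iter (n : ℕ) : ∀ {i j : ℕ}, z F v a b (i + n) = z F v a b (j + n) →
    z F v a b (i + n + 1) = z F v a b (j + n + 1) →
    z F v a b i = z F v a b j ∧ z F v a b (i + 1) = z F v a b (j + 1) := by
  induction n with
  | zero => intro i j h1 h2; exact ⟨h1, h2⟩
  | succ n ih =>
    intro i j h1 h2
    have h3 : z F v a b (i + n) = z F v a b (j + n) := hT.z_back h h1 h2
    exact ih h3 h1

omit hT h in
theorem z_forward {p : ℕ} {i : ℕ} (h1 : z F v a b (i + p) = z F v a b i)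
    (h2 : z F v a b (i + p + 1) = z F v a b (i + 1)) (n : ℕ) :
    z F v a b (i + n + p) = z F v a b (i + n) ∧
    z F v a b (i + n + p + 1) = z F v a b (i + n + 1) := by
  induction n with
  | zero => exact ⟨h1, h2⟩
  | succ n ih =>
    refine ⟨?_, ?_⟩
    · rw [show i + (n + 1) + p = i + n + p + 1 by ring]
      exact ih.2
    · rw [show i + (n + 1) + p + 1 = i + n + p + 2 by ring,
        show i + (n + 1) + 1 = i + n + 2 by ring, z_add_two, z_add_two, ih.1, ih.2]

/-- The link is a cycle whose length is the degree. -/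
theorem Tri.z_cycle : (∀ k, z F v a b (k + (G.neighborSet v).ncard) = z F v a b k) ∧
    (∀ i j, i < (G.neighborSet v).ncard → j < (G.neighborSet v).ncard →
      z F v a b i = z F v a b j → i = j) ∧
    (∀ c, G.Adj v c → ∃ k < (G.neighborSet v).ncard, c = z F v a b k) := by
  have hfin := (hT.deg v).1
  -- a period
  have hper : ∃ p, 0 < p ∧ z F v a b p = a ∧ z F v a b (p + 1) = b := by
    have hmem : ∀ k, (z F v a b k, z F v a b (k + 1)) ∈
        (G.neighborSet v) ×ˢ (G.neighborSet v) := fun k =>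
      ⟨hT.z_adj h k, hT.z_adj h (k + 1)⟩
    have hf2 : ((G.neighborSet v) ×ˢ (G.neighborSet v)).Finite := hfin.prod hfin
    obtain ⟨i, j, hij, he⟩ : ∃ i j : ℕ, i < j ∧
        (z F v a b i, z F v a b (i + 1)) = (z F v a b j, z F v a b (j + 1)) := by
      have := Set.Finite.exists_lt_map_eq_of_forall_mem (f := fun k : ℕ =>
        (z F v a b k, z F v a b (k + 1))) (fun k => hmem k) hf2
      exact this
    rw [Prod.mk.injEq] at he
    have h1 := hT.z_back_iter h i (i := 0) (j := j - i) (by
      rw [Nat.sub_add_cancel hij.le, zero_add]; exact he.1) (by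
      rw [Nat.sub_add_cancel hij.le, zero_add]; exact he.2)
    refine ⟨j - i, Nat.sub_pos_of_lt hij, ?_, ?_⟩
    · rw [← h1.1]; rfl
    · rw [← h1.2]; rfl
  obtain ⟨hp0, hp1, hp2⟩ := Nat.find_spec hper
  set p := Nat.find hper with hp
  have hmin : ∀ q, 0 < q → q < p → ¬ (z F v a b q = a ∧ z F v a b (q + 1) = b) := by
    intro q hq hqp hh
    exact Nat.find_min hper hqp ⟨hq, hh⟩
  have hperiod : ∀ k, z F v a b (k + p) = z F v a b k := by
    intro k
    have := z_forward (F := F) (v := v) (a := a) (b := b) (p := p) (i := 0)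
      (by rw [zero_add]; exact hp1) (by rw [zero_add]; exact hp2) k
    rw [zero_add] at this
    exact this.1
  -- injectivity
  have hinj : ∀ g, 0 < g → g < p → ∀ i, z F v a b i ≠ z F v a b (i + g) := by
    intro g
    induction g using Nat.strong_induction_on with
    | _ g ih =>
      intro hg hgp i he
      have h3 := hT.z_nb h (i + g - 1) (c := z F v a b (i + 1)) (by
        rw [show i + g - 1 + 1 = i + g by omega, ← he]
        exact hT.z_face h i)
      rw [show i + g - 1 + 2 = i + g + 1 by omega] at h3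
      rcases h3 with h3 | h3
      · rcases Nat.lt_or_ge g 3 with hg3 | hg3
        · have : g = 1 ∨ g = 2 := by omega
          rcases this with rfl | rfl
          · exact hT.z_ne1 h i he
          · exact hT.z_ne2 h i he.symm
        · refine ih (g - 2) (by omega) (by omega) (by omega) (i + 1) ?_
          rw [show i + 1 + (g - 2) = i + g - 1 by omega]
          exact h3
      · have h4 := hT.z_back_iter h i (i := 0) (j := g) (by
          rw [zero_add, add_comm g i]; exact he) (by
          rw [zero_add, add_comm g i]; exact h3)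
        exact hmin g hg hgp ⟨h4.1.symm, h4.2.symm⟩
  -- surjectivity
  have hsurj : ∀ c, G.Adj v c → ∃ k, c = z F v a b k := by
    intro c hc
    have hreach := hT.link v a c (hT.adj h) hc
    obtain ⟨w⟩ := hreach
    have key : ∀ (x y : V) (w : (SimpleGraph.fromRel (fun a b : V => v ≠ a ∧ v ≠ b ∧
        ∃ f ∈ F, v ∈ f ∧ a ∈ f ∧ b ∈ f)).Walk x y), (∃ k, x = z F v a b k) →
        ∃ k, y = z F v a b k := by
      intro x y w
      induction w with
      | nil => exact fun h => h
      | cons hadj _ ih =>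
        rename_i x' y' z' pw
        intro hx
        apply ih
        obtain ⟨k, rfl⟩ := hx
        rw [SimpleGraph.fromRel_adj] at hadj
        obtain ⟨hne, hadj⟩ := hadj
        have hT3 : T3 F v (z F v a b k) y' := by
          rcases hadj with ⟨h1, h2, f, hf, h3, h4, h5⟩ | ⟨h1, h2, f, hf, h3, h4, h5⟩
          · obtain ⟨c', hc', ht⟩ := hT.exists_third h1 hf h3 h4
            rw [hc'] at h5
            simp only [Finset.mem_insert, Finset.mem_singleton] at h5
            rcases h5 with h5 | h5 | h5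
            · exact absurd h5.symm h2
            · exact absurd h5.symm hne
            · rw [h5]; exact ht
          · obtain ⟨c', hc', ht⟩ := hT.exists_third h2 hf h3 h5
            rw [hc'] at h4
            simp only [Finset.mem_insert, Finset.mem_singleton] at h4
            rcases h4 with h4 | h4 | h4
            · exact absurd h4.symm h1
            · exact absurd h4.symm hne
            · rw [h4]; exact ht
        rw [← hperiod k] at hT3
        have h6 := hT.z_nb h (k + p - 1) (c := y') (by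
          rw [show k + p - 1 + 1 = k + p by omega]; exact hT3)
        rcases h6 with h6 | h6
        · exact ⟨_, h6⟩
        · exact ⟨_, h6⟩
    exact key a c w ⟨0, rfl⟩
  have hsurj' : ∀ c, G.Adj v c → ∃ k < p, c = z F v a b k := by
    intro c hc
    obtain ⟨k, hk⟩ := hsurj c hc
    refine ⟨k % p, Nat.mod_lt _ hp0, ?_⟩
    rw [hk]
    conv_lhs => rw [← Nat.mod_add_div k p]
    generalize k / p = q
    induction q with
    | zero => rw [mul_zero, add_zero]
    | succ q ih => rw [mul_add, mul_one, ← add_assoc, hperiod, ih]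
  have hcard : (G.neighborSet v).ncard = p := by
    have h1 : G.neighborSet v = (fun k => z F v a b k) '' (Set.Iio p) := by
      ext c
      rw [SimpleGraph.mem_neighborSet]
      constructor
      · intro hc
        obtain ⟨k, hk, rfl⟩ := hsurj' c hc
        exact ⟨k, hk, rfl⟩
      · rintro ⟨k, hk, rfl⟩
        exact hT.z_adj h k
    rw [h1, Set.InjOn.ncard_image]
    · rw [← Finset.coe_range, Set.ncard_coe_finset, Finset.card_range]
    · intro i hi j hj he
      rw [Set.mem_Iio] at hi hj
      rcases lt_trichotomy i j with hlt | heq | hgt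
      · exfalso
        apply hinj (j - i) (by omega) (by omega) i
        rw [show i + (j - i) = j by omega]
        exact he
      · exact heq
      · exfalso
        apply hinj (i - j) (by omega) (by omega) j
        rw [show j + (i - j) = i by omega]
        exact he.symm
  rw [hcard]
  refine ⟨hperiod, ?_, hsurj'⟩
  intro i j hi hj he
  rcases lt_trichotomy i j with hlt | heq | hgt
  · exfalso
    apply hinj (j - i) (by omega) (by omega) i
    rw [show i + (j - i) = j by omega]
    exact he
  · exact heq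
  · exfalso
    apply hinj (i - j) (by omega) (by omega) j
    rw [show j + (i - j) = i by omega]
    exact he.symm

end

end Pool.Agent.Work.MP_91103f_co
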