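import Mathlib
import Pool.Agent.Work.MP_91103f_co.Link

/-!
# The combinatorial Gauss-Bonnet inequality
-/

namespace Pool.Agent.Work.MP_91103f_co

open Classical

section

variable {V : Type} {G : SimpleGraph V} {F : Set (Finset V)}

variable (F) in
/-- The faces at `v`. -/
noncomputable def ph (v a b : V) (k : ℕ) : Finset V := {v, z F v a b k, z F v a b (k + 1)}

/-- number of faces of `S` at an edge -/
noncomputable def ct (S : Finset (Finset V)) (e : Sym2 V) : ℕ := (S.filter (fun f => e ∈ f.sym2)).card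

/-- number of faces of `S` at a vertex -/
noncomputable def av (S : Finset (Finset V)) (v : V) : ℕ := (S.filter (fun f => v ∈ f)).card

theorem ct_eq_ncard (S : Finset (Finset V)) (e : Sym2 V) :
    {f : Finset V | f ∈ S ∧ ∀ x ∈ e, x ∈ f}.ncard = ct S e := by
  unfold ct
  rw [← Set.ncard_coe_finset]
  congr 1
  ext f
  simp [Finset.mem_sym2_iff]

theorem mem_sym2_mk {f : Finset V} {a b : V} : s(a, b) ∈ f.sym2 ↔ a ∈ f ∧ b ∈ f := by
  rw [Finset.mem_sym2_iff]
  simp

variable (hT : Tri V G F)
include hT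

theorem Tri.exists_flag (v : V) : ∃ a b, T3 F v a b := by
  have h := (hT.deg v).2
  have : (G.neighborSet v).Nonempty := by
    rw [Set.nonempty_iff_ne_empty]
    intro h0
    rw [h0, Set.ncard_empty] at h
    omega
  obtain ⟨a, ha⟩ := this
  obtain ⟨c₁, _, _, h1, _⟩ := hT.exists_two (v := v) (b := a) ha
  exact ⟨a, c₁, h1⟩

theorem Tri.exists_flag_of_adj {v a : V} (h : G.Adj v a) : ∃ b, T3 F v a b := by
  obtain ⟨c₁, _, _, h1, _⟩ := hT.exists_two h
  exact ⟨c₁, h1⟩

theorem Tri.faces_edge {e : Sym2 V} (he : e ∈ G.edgeSet) :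
    ∃ f₁ f₂, f₁ ≠ f₂ ∧ f₁ ∈ F ∧ f₂ ∈ F ∧ e ∈ f₁.sym2 ∧ e ∈ f₂.sym2 ∧
      ∀ f ∈ F, e ∈ f.sym2 → f = f₁ ∨ f = f₂ := by
  induction e using Sym2.ind with
  | _ x y =>
    rw [SimpleGraph.mem_edgeSet] at he
    obtain ⟨f₁, f₂, hne, hset⟩ := Set.ncard_eq_two.1 (hT.two x y he)
    have h1 : f₁ ∈ {f : Finset V | f ∈ F ∧ x ∈ f ∧ y ∈ f} := by rw [hset]; simp
    have h2 : f₂ ∈ {f : Finset V | f ∈ F ∧ x ∈ f ∧ y ∈ f} := by rw [hset]; simp
    refine ⟨f₁, f₂, hne, h1.1, h2.1, mem_sym2_mk.2 h1.2, mem_sym2_mk.2 h2.2, ?_⟩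
    intro f hf hfe
    have h3 : f ∈ {f : Finset V | f ∈ F ∧ x ∈ f ∧ y ∈ f} := ⟨hf, mem_sym2_mk.1 hfe⟩
    rw [hset] at h3
    exact h3

theorem Tri.ct_le_two {S : Finset (Finset V)} (hS : ∀ f ∈ S, f ∈ F) {e : Sym2 V}
    (he : e ∈ G.edgeSet) : ct S e ≤ 2 := by
  obtain ⟨f₁, f₂, hne, -, -, -, -, hall⟩ := hT.faces_edge he
  unfold ct
  refine (Finset.card_le_card (t := {f₁, f₂}) ?_).trans Finset.card_le_two
  intro f hf
  rw [Finset.mem_filter] at hf
  have := hall f (hS f hf.1) hf.2
  simpa using this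

/-- the count at an edge is at most one if some face at the edge is missing -/
theorem Tri.ct_le_one {S : Finset (Finset V)} (hS : ∀ f ∈ S, f ∈ F) {e : Sym2 V}
    (he : e ∈ G.edgeSet) {g : Finset V} (hg : g ∈ F) (hge : e ∈ g.sym2) (hgS : g ∉ S) :
    ct S e ≤ 1 := by
  obtain ⟨f₁, f₂, hne, -, -, -, -, hall⟩ := hT.faces_edge he
  unfold ct
  rcases hall g hg hge with rfl | rfl
  · refine (Finset.card_le_card (t := {f₂}) ?_).trans (Finset.card_singleton _).le
    intro f hf
    rw [Finset.mem_filter] at hf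
    rcases hall f (hS f hf.1) hf.2 with rfl | rfl
    · exact absurd hf.1 hgS
    · simp
  · refine (Finset.card_le_card (t := {f₁}) ?_).trans (Finset.card_singleton _).le
    intro f hf
    rw [Finset.mem_filter] at hf
    rcases hall f (hS f hf.1) hf.2 with rfl | rfl
    · simp
    · exact absurd hf.1 hgS

section flag

variable {v a b : V} (h : T3 F v a b)
include h

theorem Tri.ph_mem (k : ℕ) : ph F v a b k ∈ F := (hT.z_face h k).2

theorem Tri.ph_ne (k : ℕ) : ph F v a b k ≠ ph F v a b (k + 1) := by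
  intro he
  have h1 : z F v a b k ∈ ph F v a b (k + 1) := by
    rw [← he]; simp [ph]
  unfold ph at h1
  simp only [Finset.mem_insert, Finset.mem_singleton] at h1
  rcases h1 with h1 | h1 | h1
  · exact (hT.z_face h k).1.1 h1.symm
  · exact hT.z_ne1 h k h1
  · exact hT.z_ne2 h k h1.symm

theorem Tri.ph_cases (k : ℕ) {f : Finset V} (hf : f ∈ F) (h1 : v ∈ f)
    (h2 : z F v a b (k + 1) ∈ f) : f = ph F v a b k ∨ f = ph F v a b (k + 1) := by
  obtain ⟨w, hw, ht⟩ := hT.exists_third (hT.z_adj h (k + 1)).ne hf h1 h2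
  rcases hT.z_nb h k ht with rfl | rfl
  · left
    rw [hw]
    unfold ph
    ext x
    simp only [Finset.mem_insert, Finset.mem_singleton]
    tauto
  · right
    rw [hw]
    rfl

theorem Tri.ct_z {S : Finset (Finset V)} (hS : ∀ f ∈ S, f ∈ F) (k : ℕ) :
    ct S s(v, z F v a b (k + 1)) =
      (if ph F v a b k ∈ S then 1 else 0) + (if ph F v a b (k + 1) ∈ S then 1 else 0) := by
  have h1 : S.filter (fun f => s(v, z F v a b (k + 1)) ∈ f.sym2) =
      ({ph F v a b k, ph F v a b (k + 1)} : Finset (Finset V)).filter (· ∈ S) := by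
    ext f
    rw [Finset.mem_filter, Finset.mem_filter, mem_sym2_mk, Finset.mem_insert,
      Finset.mem_singleton]
    constructor
    · rintro ⟨h1, h2, h3⟩
      exact ⟨hT.ph_cases h k (hS f h1) h2 h3, h1⟩
    · rintro ⟨rfl | rfl, h2⟩
      · exact ⟨h2, by simp [ph], by simp [ph]⟩
      · exact ⟨h2, by simp [ph], by simp [ph]⟩
  unfold ct
  rw [h1, Finset.filter_insert, Finset.filter_singleton]
  have hne := hT.ph_ne h k
  by_cases h2 : ph F v a b k ∈ S <;> by_cases h3 : ph F v a b (k + 1) ∈ S <;>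
    simp [h2, h3, hne]

theorem Tri.z_per (k : ℕ) : z F v a b (k + (G.neighborSet v).ncard) = z F v a b k :=
  (hT.z_cycle h).1 k

theorem Tri.ph_per (k : ℕ) : ph F v a b (k + (G.neighborSet v).ncard) = ph F v a b k := by
  unfold ph
  rw [show k + (G.neighborSet v).ncard + 1 = k + 1 + (G.neighborSet v).ncard by ring,
    hT.z_per h, hT.z_per h]

theorem Tri.ph_inj {i j : ℕ} (hi : i < (G.neighborSet v).ncard)
    (hj : j < (G.neighborSet v).ncard) (he : ph F v a b i = ph F v a b j) : i = j := by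
  have hd := (hT.deg v).2
  have hz := (hT.z_cycle h).2.1
  have hzi := (hT.z_cycle h).1
  set d := (G.neighborSet v).ncard with hdd
  -- z (i+1) as an element with index < d
  have key : ∀ k, k < d → ∃ k' < d, z F v a b (k + 1) = z F v a b k' ∧
      (k + 1 < d → k' = k + 1) ∧ (k + 1 = d → k' = 0) := by
    intro k hk
    rcases Nat.lt_or_ge (k + 1) d with h1 | h1
    · exact ⟨k + 1, h1, rfl, fun _ => rfl, by omega⟩
    · have : k + 1 = d := by omega
      refine ⟨0, by omega, ?_, by omega, fun _ => rfl⟩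
      rw [this, ← hzi 0, zero_add]
  obtain ⟨i', hi', ei, ei1, ei2⟩ := key i hi
  obtain ⟨j', hj', ej, ej1, ej2⟩ := key j hj
  have h1 : z F v a b i = z F v a b j ∨ z F v a b i = z F v a b j' := by
    have : z F v a b i ∈ ph F v a b j := by rw [← he]; simp [ph]
    unfold ph at this
    simp only [Finset.mem_insert, Finset.mem_singleton] at this
    rcases this with h1 | h1 | h1
    · exact absurd h1.symm (hT.z_face h i).1.1
    · exact Or.inl h1
    · rw [← ej]; exact Or.inr h1
  have h2 : z F v a b i' = z F v a b j ∨ z F v a b i' = z F v a b j' := by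
    have : z F v a b (i + 1) ∈ ph F v a b j := by rw [← he]; simp [ph]
    unfold ph at this
    simp only [Finset.mem_insert, Finset.mem_singleton] at this
    rw [← ei]
    rcases this with h1 | h1 | h1
    · exact absurd h1.symm (hT.z_adj h (i + 1)).ne
    · exact Or.inl h1
    · rw [← ej]; exact Or.inr h1
  rcases h1 with h1 | h1
  · exact hz i j hi hj h1
  · have e1 := hz i j' hi hj' h1
    rcases h2 with h2 | h2
    · have e2 := hz i' j hi' hj h2
      rcases Nat.lt_or_ge (i + 1) d with h3 | h3 <;> rcases Nat.lt_or_ge (j + 1) d with h4 | h4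
      · have := ei1 h3; have := ej1 h4; omega
      · have := ei1 h3; have := ej2 (by omega); omega
      · have := ei2 (by omega); have := ej1 h4; omega
      · omega
    · have e2 := hz i' j' hi' hj' h2
      rcases Nat.lt_or_ge (i + 1) d with h3 | h3
      · have := ei1 h3; omega
      · have := ei2 (by omega); omega

theorem Tri.ph_surj {f : Finset V} (hf : f ∈ F) (hv : v ∈ f) :
    ∃ k < (G.neighborSet v).ncard, f = ph F v a b k := by
  have hd := (hT.deg v).2
  -- another vertex of f
  have h3 := (hT.face f hf).1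
  obtain ⟨c, hc, hcv⟩ := Finset.exists_mem_ne (by omega : 1 < f.card) v
  have hadj : G.Adj v c := (hT.face f hf).2 v hv c hc hcv.symm
  obtain ⟨k, hk, rfl⟩ := (hT.z_cycle h).2.2 c hadj
  -- shift the index to be positive
  have h4 : z F v a b (k + (G.neighborSet v).ncard - 1 + 1) ∈ f := by
    rw [show k + (G.neighborSet v).ncard - 1 + 1 = k + (G.neighborSet v).ncard by omega,
      hT.z_per h]
    exact hc
  rcases hT.ph_cases h _ hf hv h4 with h5 | h5
  · rcases Nat.eq_zero_or_pos k with rfl | hk0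
    · exact ⟨0 + (G.neighborSet v).ncard - 1, by omega, h5⟩
    · refine ⟨k - 1, by omega, ?_⟩
      rw [h5, show k + (G.neighborSet v).ncard - 1 = k - 1 + (G.neighborSet v).ncard by omega,
        hT.ph_per h]
  · refine ⟨k, hk, ?_⟩
    rw [h5, show k + (G.neighborSet v).ncard - 1 + 1 = k + (G.neighborSet v).ncard by omega,
      hT.ph_per h]

theorem Tri.av_eq {S : Finset (Finset V)} (hS : ∀ f ∈ S, f ∈ F) :
    av S v = ((Finset.range (G.neighborSet v).ncard).filter (fun k => ph F v a b k ∈ S)).card := by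
  unfold av
  symm
  apply Finset.card_bij (fun k _ => ph F v a b k)
  · intro k hk
    rw [Finset.mem_filter] at hk ⊢
    exact ⟨hk.2, by simp [ph]⟩
  · intro i hi j hj he
    rw [Finset.mem_filter, Finset.mem_range] at hi hj
    exact hT.ph_inj h hi.1 hj.1 he
  · intro f hf
    rw [Finset.mem_filter] at hf
    obtain ⟨k, hk, rfl⟩ := hT.ph_surj h (hS f hf.1) hf.2
    exact ⟨k, by rw [Finset.mem_filter, Finset.mem_range]; exact ⟨hk, hf.1⟩, rfl⟩

theorem Tri.sum_ct_even {S : Finset (Finset V)} (hS : ∀ f ∈ S, f ∈ F) :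
    Even (∑ k ∈ Finset.range (G.neighborSet v).ncard, ct S s(v, z F v a b (k + 1))) := by
  rw [Finset.sum_congr rfl (fun k _ => hT.ct_z h hS k), Finset.sum_add_distrib]
  set g : ℕ → ℕ := fun k => if ph F v a b k ∈ S then 1 else 0 with hg
  have h1 : ∑ k ∈ Finset.range (G.neighborSet v).ncard, g (k + 1) =
      ∑ k ∈ Finset.range (G.neighborSet v).ncard, g k := by
    have e1 := Finset.sum_range_succ' g (G.neighborSet v).ncard
    have e2 := Finset.sum_range_succ g (G.neighborSet v).ncard
    have e3 : g (G.neighborSet v).ncard = g 0 := by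
      simp only [hg]
      rw [← hT.ph_per h 0, zero_add]
    omega
  change Even (∑ k ∈ Finset.range (G.neighborSet v).ncard, g k +
    ∑ k ∈ Finset.range (G.neighborSet v).ncard, g (k + 1))
  rw [h1]
  exact ⟨_, rfl⟩

end flag

/-- A finite set of faces without boundary is empty. -/
theorem Tri.closed_empty {S : Finset (Finset V)} (hS : ∀ f ∈ S, f ∈ F)
    (hev : ∀ e ∈ G.edgeSet, Even (ct S e)) : S = ∅ := by
  by_contra hne
  obtain ⟨f₀, hf₀⟩ := Finset.nonempty_iff_ne_empty.2 hne
  have h3 := (hT.face f₀ (hS _ hf₀)).1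
  obtain ⟨v₀, hv₀⟩ : f₀.Nonempty := by rw [← Finset.card_pos]; omega
  -- propagation
  have key : ∀ v, (∃ f ∈ S, v ∈ f) → ∀ c, G.Adj v c → ∃ f ∈ S, c ∈ f := by
    rintro v ⟨f, hf, hvf⟩ c hc
    have h3 := (hT.face f (hS _ hf)).1
    obtain ⟨a, ha, hav⟩ := Finset.exists_mem_ne (by omega : 1 < f.card) v
    obtain ⟨b, hb, ht⟩ := hT.exists_third hav.symm (hS _ hf) hvf ha
    have hall : ∀ k, ph F v a b k ∈ S := by
      intro k
      induction k with
      | zero =>
        have : ph F v a b 0 = f := by rw [hb]; rfl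
        rw [this]; exact hf
      | succ k ih =>
        by_contra hcon
        have h4 := hT.ct_z ht hS k
        rw [if_pos ih, if_neg hcon] at h4
        have h5 := hev s(v, z F v a b (k + 1)) (hT.z_adj ht (k + 1))
        rw [h4] at h5
        simp at h5
    obtain ⟨k, -, rfl⟩ := (hT.z_cycle ht).2.2 c hc
    exact ⟨_, hall k, by simp [ph]⟩
  have hall : ∀ v, ∃ f ∈ S, v ∈ f := by
    intro v
    obtain ⟨w⟩ := hT.conn.preconnected v₀ v
    have : ∀ (x y : V) (w : G.Walk x y), (∃ f ∈ S, x ∈ f) → ∃ f ∈ S, y ∈ f := by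
      intro x y w
      induction w with
      | nil => exact fun h => h
      | cons hadj _ ih => exact fun h => ih (key _ h _ hadj)
    exact this v₀ v w ⟨f₀, hf₀, hv₀⟩
  have hfin : Finite V := by
    have : (Set.univ : Set V) ⊆ ((S.biUnion id : Finset V) : Set V) := by
      intro v _
      obtain ⟨f, hf, hv⟩ := hall v
      simp only [Finset.coe_biUnion, Set.mem_iUnion, Finset.mem_coe, id]
      exact ⟨f, hf, hv⟩
    exact Set.finite_univ_iff.1 ((Finset.finite_toSet _).subset this)
  exact hT.inf.not_finite hfin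

/-- Edges of a set of faces. -/
noncomputable def ES (G : SimpleGraph V) (S : Finset (Finset V)) : Finset (Sym2 V) :=
  (S.biUnion (fun f => f.sym2)).filter (· ∈ G.edgeSet)

omit hT in
theorem mem_ES {S : Finset (Finset V)} {e : Sym2 V} :
    e ∈ ES G S ↔ (∃ f ∈ S, e ∈ f.sym2) ∧ e ∈ G.edgeSet := by
  unfold ES
  rw [Finset.mem_filter, Finset.mem_biUnion]

/-- The boundary of a set of faces is even. -/
theorem Tri.boundary_even {R : Finset (Finset V)} (hR : ∀ f ∈ R, f ∈ F) {D : Finset (Sym2 V)}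
    (hD : ∀ e, e ∈ D ↔ e ∈ G.edgeSet ∧ Odd (ct R e)) (v : V) :
    Even (D.filter (fun e => v ∈ e)).card := by
  obtain ⟨a, b, h⟩ := hT.exists_flag v
  have h1 := hT.sum_ct_even h hR
  rw [Finset.even_sum_iff_even_card_odd] at h1
  have h2 : (D.filter (fun e => v ∈ e)).card =
      ((Finset.range (G.neighborSet v).ncard).filter
        (fun k => Odd (ct R s(v, z F v a b (k + 1))))).card := by
    symm
    apply Finset.card_bij (fun k _ => s(v, z F v a b (k + 1)))
    · intro k hk
      rw [Finset.mem_filter] at hk ⊢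
      rw [hD]
      exact ⟨⟨hT.z_adj h (k + 1), hk.2⟩, by simp⟩
    · intro i hi j hj he
      rw [Finset.mem_filter, Finset.mem_range] at hi hj
      have e1 : z F v a b (i + 1) = z F v a b (j + 1) := by
        rw [Sym2.eq_iff] at he
        rcases he with he | he
        · exact he.2
        · exact absurd he.1 (hT.z_adj h (j + 1)).ne
      have hz := (hT.z_cycle h).2.1
      have hp := (hT.z_cycle h).1
      have hd := (hT.deg v).2
      rcases Nat.lt_or_ge (i + 1) (G.neighborSet v).ncard with h3 | h3 <;>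
        rcases Nat.lt_or_ge (j + 1) (G.neighborSet v).ncard with h4 | h4
      · have := hz _ _ h3 h4 e1; omega
      · have h5 : j + 1 = 0 + (G.neighborSet v).ncard := by omega
        rw [h5, hp] at e1
        have := hz _ _ h3 (by omega) e1; omega
      · have h5 : i + 1 = 0 + (G.neighborSet v).ncard := by omega
        rw [h5, hp] at e1
        have := hz _ _ (by omega) h4 e1; omega
      · omega
    · intro e he
      rw [Finset.mem_filter, hD] at he
      obtain ⟨⟨h3, h4⟩, h5⟩ := he
      obtain ⟨c, rfl⟩ := Sym2.mem_iff_exists.1 h5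
      rw [SimpleGraph.mem_edgeSet] at h3
      obtain ⟨k, hk, rfl⟩ := (hT.z_cycle h).2.2 c h3
      rcases Nat.eq_zero_or_pos k with rfl | hk0
      · refine ⟨(G.neighborSet v).ncard - 1, ?_, ?_⟩
        · rw [Finset.mem_filter, Finset.mem_range]
          refine ⟨by omega, ?_⟩
          rw [show (G.neighborSet v).ncard - 1 + 1 = 0 + (G.neighborSet v).ncard by omega,
            hT.z_per h]
          exact h4
        · rw [show (G.neighborSet v).ncard - 1 + 1 = 0 + (G.neighborSet v).ncard by omega,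
            hT.z_per h]
      · refine ⟨k - 1, ?_, ?_⟩
        · rw [Finset.mem_filter, Finset.mem_range]
          refine ⟨by omega, ?_⟩
          rw [show k - 1 + 1 = k by omega]
          exact h4
        · rw [show k - 1 + 1 = k by omega]
  rw [h2]
  exact h1

end

end Pool.Agent.Work.MP_91103f_co
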