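import Mathlib
import Pool.Agent.Work.MP_91103f_co.GB

/-!
# Euler's inequality for regions and the Gauss-Bonnet inequality for simple cycles
-/

namespace Pool.Agent.Work.MP_91103f_co

open Classical

section

variable {V : Type} {G : SimpleGraph V} {F : Set (Finset V)}

/-- vertices of a set of faces -/
noncomputable def VS (S : Finset (Finset V)) : Finset V := S.biUnion id

theorem mem_VS {S : Finset (Finset V)} {v : V} : v ∈ VS S ↔ ∃ f ∈ S, v ∈ f := by
  unfold VS
  simp

/-- The property of a simple cycle used: even subsets are trivial. -/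
def EvMin (C : Finset (Sym2 V)) : Prop :=
  ∀ D ⊆ C, (∀ v, Even (D.filter (fun e => v ∈ e)).card) → D = ∅ ∨ D = C

theorem ct_union {R S : Finset (Finset V)} (hd : Disjoint R S) (e : Sym2 V) :
    ct (R ∪ S) e = ct R e + ct S e := by
  unfold ct
  rw [Finset.filter_union, Finset.card_union_of_disjoint]
  exact Finset.disjoint_filter_filter hd

variable (hT : Tri V G F)
include hT

/-- every even set of edges of the region of a simple cycle bounds inside the region -/
theorem Tri.exact {C : Finset (Sym2 V)} (hC : ∀ e ∈ C, e ∈ G.edgeSet) (hmin : EvMin C)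
    {S : Finset (Finset V)} (hS : ∀ f ∈ S, f ∈ F)
    (hb : ∀ e ∈ G.edgeSet, (e ∈ C ↔ Odd (ct S e))) {C' : Finset (Sym2 V)}
    (hC' : C' ⊆ ES G S) (hev : ∀ v, Even (C'.filter (fun e => v ∈ e)).card) :
    ∃ S' ⊆ S, ∀ e ∈ G.edgeSet, (e ∈ C' ↔ Odd (ct S' e)) := by
  obtain ⟨S', hS', hb'⟩ := hT.hom C' (fun e he => (mem_ES.1 (hC' he)).2) (by
    intro v
    have : {e : Sym2 V | e ∈ C' ∧ v ∈ e}.ncard = (C'.filter (fun e => v ∈ e)).card := by
      rw [← Set.ncard_coe_finset]
      congr 1
      ext e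
      simp
    rw [this]
    exact hev v)
  simp only [ct_eq_ncard] at hb'
  refine ⟨S', ?_, hb'⟩
  set R := S' \ S with hR
  have hRF : ∀ f ∈ R, f ∈ F := fun f hf => hS' f (Finset.mem_sdiff.1 hf).1
  have hdis : Disjoint R S := Finset.sdiff_disjoint
  -- boundary of R is in C
  have h1 : ∀ e ∈ G.edgeSet, Odd (ct R e) → e ∈ C := by
    intro e he hodd
    by_contra hcon
    have h2 : ¬ Odd (ct S e) := fun h => hcon ((hb e he).2 h)
    have hpos : 0 < ct R e := hodd.pos
    obtain ⟨g, hg⟩ := Finset.card_pos.1 hpos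
    rw [Finset.mem_filter] at hg
    have h3 := hT.ct_le_one hS he (hRF g hg.1) hg.2 (Finset.mem_sdiff.1 hg.1).2
    have h4 : ct S e = 0 := by
      rcases Nat.lt_or_ge (ct S e) 1 with h | h
      · omega
      · exfalso
        have : ct S e = 1 := by omega
        rw [this] at h2
        exact h2 odd_one
    have h5 : e ∉ ES G S := by
      intro h
      obtain ⟨⟨f, hf, hef⟩, -⟩ := mem_ES.1 h
      have : f ∈ S.filter (fun f => e ∈ f.sym2) := Finset.mem_filter.2 ⟨hf, hef⟩
      unfold ct at h4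
      rw [Finset.card_eq_zero] at h4
      rw [h4] at this
      simp at this
    have h6 : e ∉ C' := fun h => h5 (hC' h)
    have h7 : ct S' e = ct R e := by
      unfold ct
      congr 1
      ext f
      rw [Finset.mem_filter, Finset.mem_filter]
      constructor
      · rintro ⟨hf, hef⟩
        refine ⟨Finset.mem_sdiff.2 ⟨hf, fun hfS => ?_⟩, hef⟩
        exact h5 (mem_ES.2 ⟨⟨f, hfS, hef⟩, he⟩)
      · rintro ⟨hf, hef⟩
        exact ⟨(Finset.mem_sdiff.1 hf).1, hef⟩
    exact h6 ((hb' e he).2 (by rw [h7]; exact hodd))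
  set D := C.filter (fun e => Odd (ct R e)) with hD
  have hDmem : ∀ e, e ∈ D ↔ e ∈ G.edgeSet ∧ Odd (ct R e) := by
    intro e
    rw [hD, Finset.mem_filter]
    constructor
    · rintro ⟨h2, h3⟩
      exact ⟨hC e h2, h3⟩
    · rintro ⟨h2, h3⟩
      exact ⟨h1 e h2 h3, h3⟩
  have hRe : R = ∅ := by
    rcases hmin D (Finset.filter_subset _ _) (fun v => hT.boundary_even hRF hDmem v) with h2 | h2
    · apply hT.closed_empty hRF
      intro e he
      by_contra hcon
      rw [Nat.not_even_iff_odd] at hcon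
      have : e ∈ D := (hDmem e).2 ⟨he, hcon⟩
      rw [h2] at this
      simp at this
    · have h3 : R ∪ S = ∅ := by
        apply hT.closed_empty
        · intro f hf
          rcases Finset.mem_union.1 hf with hf | hf
          · exact hRF f hf
          · exact hS f hf
        · intro e he
          rw [ct_union hdis]
          by_cases hc : e ∈ C
          · have h4 := (hb e he).1 hc
            rw [← h2] at hc
            have h5 := ((hDmem e).1 hc).2
            exact h5.add_odd h4
          · have h4 : Even (ct S e) := by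
              rw [← Nat.not_odd_iff_even]
              exact fun h => hc ((hb e he).2 h)
            have h5 : Even (ct R e) := by
              rw [← Nat.not_odd_iff_even]
              exact fun h => hc (h1 e he h)
            exact h5.add h4
      rw [Finset.union_eq_empty] at h3
      exact h3.1
  rwa [hR, Finset.sdiff_eq_empty_iff_subset] at hRe

omit hT in
/-- `ct` as a sum -/
theorem ct_sum (S : Finset (Finset V)) (e : Sym2 V) :
    ct S e = ∑ f ∈ S, if e ∈ f.sym2 then 1 else 0 := by
  unfold ct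
  rw [Finset.card_filter]

/-- The Euler inequality. -/
theorem Tri.euler {S : Finset (Finset V)} (hS : ∀ f ∈ S, f ∈ F) (hne : S.Nonempty)
    (hex : ∀ C' ⊆ ES G S, (∀ v, Even (C'.filter (fun e => v ∈ e)).card) →
      ∃ S' ⊆ S, ∀ e ∈ G.edgeSet, (e ∈ C' ↔ Odd (ct S' e))) :
    (ES G S).card + 1 ≤ (VS S).card + S.card := by
  let A : (↥S → ZMod 2) →ₗ[ZMod 2] (↥(ES G S) → ZMod 2) :=
    { toFun := fun s e => ∑ f : S, if (e : Sym2 V) ∈ (f : Finset V).sym2 then s f else 0
      map_add' := by
        intro s t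
        funext e
        simp only [Pi.add_apply, ← Finset.sum_add_distrib]
        refine Finset.sum_congr rfl fun f _ => ?_
        split_ifs <;> simp
      map_smul' := by
        intro c s
        funext e
        simp only [Pi.smul_apply, smul_eq_mul, RingHom.id_apply, Finset.mul_sum]
        refine Finset.sum_congr rfl fun f _ => ?_
        split_ifs <;> simp }
  let B : (↥(ES G S) → ZMod 2) →ₗ[ZMod 2] (↥(VS S) → ZMod 2) :=
    { toFun := fun c v => ∑ e : ES G S, if (v : V) ∈ (e : Sym2 V) then c e else 0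
      map_add' := by
        intro s t
        funext e
        simp only [Pi.add_apply, ← Finset.sum_add_distrib]
        refine Finset.sum_congr rfl fun f _ => ?_
        split_ifs <;> simp
      map_smul' := by
        intro c s
        funext e
        simp only [Pi.smul_apply, smul_eq_mul, RingHom.id_apply, Finset.mul_sum]
        refine Finset.sum_congr rfl fun f _ => ?_
        split_ifs <;> simp }
  let T : (↥(VS S) → ZMod 2) →ₗ[ZMod 2] ZMod 2 :=
    { toFun := fun c => ∑ v : VS S, c v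
      map_add' := by intro s t; simp [Finset.sum_add_distrib]
      map_smul' := by intro c s; simp [Finset.mul_sum] }
  have hVne : Nonempty (VS S) := by
    obtain ⟨f, hf⟩ := hne
    have h3 := (hT.face f (hS f hf)).1
    obtain ⟨v, hv⟩ : f.Nonempty := by rw [← Finset.card_pos]; omega
    exact ⟨⟨v, mem_VS.2 ⟨f, hf, hv⟩⟩⟩
  have hTsurj : Function.Surjective T := by
    intro c
    obtain ⟨v₀⟩ := hVne
    refine ⟨Pi.single v₀ c, ?_⟩
    change ∑ v : VS S, (Pi.single v₀ c : ↥(VS S) → ZMod 2) v = c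
    rw [Finset.sum_pi_single']
    simp
  have hTB : LinearMap.range B ≤ LinearMap.ker T := by
    rintro _ ⟨c, rfl⟩
    rw [LinearMap.mem_ker]
    change ∑ v : VS S, ∑ e : ES G S, (if (v : V) ∈ (e : Sym2 V) then c e else 0) = 0
    rw [Finset.sum_comm]
    apply Finset.sum_eq_zero
    intro e _
    obtain ⟨⟨f, hf, hef⟩, he⟩ := mem_ES.1 e.2
    obtain ⟨e, he'⟩ := e
    induction e using Sym2.ind with
    | _ x y =>
      simp only at he hef ⊢
      rw [SimpleGraph.mem_edgeSet] at he
      rw [mem_sym2_mk] at hef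
      have hx : x ∈ VS S := mem_VS.2 ⟨f, hf, hef.1⟩
      have hy : y ∈ VS S := mem_VS.2 ⟨f, hf, hef.2⟩
      have hne : x ≠ y := he.ne
      have h1 : ∀ v : VS S, (if (v : V) ∈ s(x, y) then c ⟨s(x, y), he'⟩ else 0) =
          (if v = ⟨x, hx⟩ then c ⟨s(x, y), he'⟩ else 0) +
          (if v = ⟨y, hy⟩ then c ⟨s(x, y), he'⟩ else 0) := by
        rintro ⟨v, hv⟩
        simp only [Sym2.mem_iff, Subtype.mk.injEq]
        by_cases h1 : v = x
        · subst h1; simp [hne]
        · by_cases h2 : v = y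
          · subst h2; simp [h1]
          · simp [h1, h2]
      rw [Finset.sum_congr rfl (fun v _ => h1 v), Finset.sum_add_distrib, Finset.sum_ite_eq',
        Finset.sum_ite_eq']
      simp only [Finset.mem_univ, if_true]
      exact CharTwo.add_self_eq_zero _
  have hBA : LinearMap.ker B ≤ LinearMap.range A := by
    intro c hc
    rw [LinearMap.mem_ker] at hc
    let C' : Finset (Sym2 V) := (Finset.univ.filter (fun e : ES G S => c e = 1)).map
      (Function.Embedding.subtype _)
    have hC'mem : ∀ e, e ∈ C' ↔ ∃ h : e ∈ ES G S, c ⟨e, h⟩ = 1 := by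
      intro e
      simp only [C', Finset.mem_map, Finset.mem_filter, Finset.mem_univ, true_and,
        Function.Embedding.subtype_apply, Subtype.exists, exists_and_left, exists_prop]
      constructor
      · rintro ⟨e', h1, h2, rfl⟩
        exact ⟨h1, h2⟩
      · rintro ⟨h1, h2⟩
        exact ⟨e, h1, h2, rfl⟩
    have hsub : C' ⊆ ES G S := by
      intro e he
      exact ((hC'mem e).1 he).1
    have h01 : ∀ x : ZMod 2, x = 0 ∨ x = 1 := by decide
    obtain ⟨S', hS', hb'⟩ := hex C' hsub (by
      intro v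
      by_cases hv : v ∈ VS S
      · have h1 := congrFun hc ⟨v, hv⟩
        change ∑ e : ES G S, (if v ∈ (e : Sym2 V) then c e else 0) = 0 at h1
        have h2 : ∑ e : ES G S, (if v ∈ (e : Sym2 V) then c e else 0) =
            (((Finset.univ.filter (fun e : ES G S => c e = 1 ∧ v ∈ (e : Sym2 V))).card : ℕ) :
              ZMod 2) := by
          rw [Finset.card_filter, Nat.cast_sum]
          refine Finset.sum_congr rfl fun e _ => ?_
          by_cases h3 : v ∈ (e : Sym2 V)
          · rcases h01 (c e) with h4 | h4 <;> simp [h3, h4]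
          · simp [h3]
        rw [h2, ZMod.natCast_eq_zero_iff_even] at h1
        convert h1 using 1
        symm
        refine Finset.card_bij (fun (e : ↥(ES G S)) _ => (e : Sym2 V)) ?_ ?_ ?_
        · intro e he
          rw [Finset.mem_filter] at he ⊢
          rw [hC'mem]
          exact ⟨⟨e.2, he.2.1⟩, he.2.2⟩
        · intro e _ e' _ h
          exact Subtype.ext h
        · intro e he
          rw [Finset.mem_filter, hC'mem] at he
          obtain ⟨⟨h3, h4⟩, h5⟩ := he
          exact ⟨⟨e, h3⟩, by simp [h4, h5], rfl⟩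
      · have : C'.filter (fun e => v ∈ e) = ∅ := by
          rw [Finset.filter_eq_empty_iff]
          intro e he hve
          obtain ⟨⟨f, hf, hef⟩, -⟩ := mem_ES.1 (hsub he)
          rw [Finset.mem_sym2_iff] at hef
          exact hv (mem_VS.2 ⟨f, hf, hef v hve⟩)
        rw [this]
        simp)
    refine ⟨fun f => if (f : Finset V) ∈ S' then 1 else 0, ?_⟩
    funext e
    change (∑ f : S, if (e : Sym2 V) ∈ (f : Finset V).sym2 then
      (if (f : Finset V) ∈ S' then (1 : ZMod 2) else 0) else 0) = c e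
    have h1 : (∑ f : S, if (e : Sym2 V) ∈ (f : Finset V).sym2 then
        (if (f : Finset V) ∈ S' then (1 : ZMod 2) else 0) else 0) = ((ct S' e : ℕ) : ZMod 2) := by
      rw [ct_sum, Nat.cast_sum, Finset.sum_coe_sort S (fun f => if (e : Sym2 V) ∈ f.sym2 then
        (if f ∈ S' then (1 : ZMod 2) else 0) else 0)]
      rw [← Finset.sum_subset hS']
      · refine Finset.sum_congr rfl fun f hf => ?_
        simp [hf]
      · intro f _ hf
        simp [hf]
    rw [h1]
    have h2 := hb' e (mem_ES.1 e.2).2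
    rw [hC'mem] at h2
    rcases h01 (c e) with h3 | h3
    · rw [h3, ZMod.natCast_eq_zero_iff_even, ← Nat.not_odd_iff_even, ← h2]
      rintro ⟨h4, h5⟩
      rw [h3] at h5
      exact absurd h5 (by decide)
    · rw [h3, ZMod.natCast_eq_one_iff_odd, ← h2]
      exact ⟨e.2, h3⟩
  have r1 := LinearMap.finrank_range_add_finrank_ker B
  have r2 := LinearMap.finrank_range_add_finrank_ker T
  have r3 := LinearMap.finrank_range_add_finrank_ker A
  have r4 := Submodule.finrank_mono hTB
  have r5 := Submodule.finrank_mono hBA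
  rw [LinearMap.range_eq_top.2 hTsurj, finrank_top] at r2
  simp only [Module.finrank_fintype_fun_eq_card, Fintype.card_coe, Module.finrank_self] at r1 r2 r3
  omega

theorem Tri.face_edges {f : Finset V} (hf : f ∈ F) {E : Finset (Sym2 V)}
    (hE : ∀ e, e ∈ f.sym2 → e ∈ G.edgeSet → e ∈ E) :
    (E.filter (fun e => e ∈ f.sym2 ∧ e ∈ G.edgeSet)).card = 3 := by
  obtain ⟨h3, hadj⟩ := hT.face f hf
  obtain ⟨x, y, z, hxy, hxz, hyz, rfl⟩ := Finset.card_eq_three.1 h3
  have h1 : E.filter (fun e => e ∈ ({x, y, z} : Finset V).sym2 ∧ e ∈ G.edgeSet) =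
      {s(x, y), s(x, z), s(y, z)} := by
    ext e
    rw [Finset.mem_filter]
    constructor
    · rintro ⟨-, h1, h2⟩
      induction e using Sym2.ind with
      | _ p q =>
        rw [mem_sym2_mk] at h1
        rw [SimpleGraph.mem_edgeSet] at h2
        have hne := h2.ne
        simp only [Finset.mem_insert, Finset.mem_singleton] at h1
        simp only [Finset.mem_insert, Finset.mem_singleton, Sym2.eq_iff]
        rcases h1 with ⟨rfl | rfl | rfl, rfl | rfl | rfl⟩ <;> simp_all
    · intro h1
      simp only [Finset.mem_insert, Finset.mem_singleton] at h1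
      have key : e ∈ ({x, y, z} : Finset V).sym2 ∧ e ∈ G.edgeSet := by
        rcases h1 with rfl | rfl | rfl
        · exact ⟨mem_sym2_mk.2 ⟨by simp, by simp⟩, hadj x (by simp) y (by simp) hxy⟩
        · exact ⟨mem_sym2_mk.2 ⟨by simp, by simp⟩, hadj x (by simp) z (by simp) hxz⟩
        · exact ⟨mem_sym2_mk.2 ⟨by simp, by simp⟩, hadj y (by simp) z (by simp) hyz⟩
      exact ⟨hE e key.1 key.2, key⟩
  rw [h1]
  rw [Finset.card_eq_three]
  refine ⟨s(x, y), s(x, z), s(y, z), ?_, ?_, ?_, rfl⟩
  · rw [Ne, Sym2.eq_iff]; tauto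
  · rw [Ne, Sym2.eq_iff]; tauto
  · rw [Ne, Sym2.eq_iff]; tauto

theorem Tri.sum_ct {S : Finset (Finset V)} (hS : ∀ f ∈ S, f ∈ F) :
    ∑ e ∈ ES G S, ct S e = 3 * S.card := by
  simp only [ct_sum]
  rw [Finset.sum_comm]
  have h1 : ∀ f ∈ S, (∑ e ∈ ES G S, if e ∈ f.sym2 then 1 else 0) = 3 := by
    intro f hf
    rw [← Finset.card_filter, ← hT.face_edges (hS f hf) (E := ES G S)
      (fun e h1 h2 => mem_ES.2 ⟨⟨f, hf, h1⟩, h2⟩)]
    congr 1
    ext e
    rw [Finset.mem_filter, Finset.mem_filter]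
    constructor
    · rintro ⟨h1, h2⟩
      exact ⟨h1, h2, (mem_ES.1 h1).2⟩
    · rintro ⟨h1, h2, -⟩
      exact ⟨h1, h2⟩
  rw [Finset.sum_congr rfl h1, Finset.sum_const, smul_eq_mul, mul_comm]

theorem Tri.sum_av {S : Finset (Finset V)} (hS : ∀ f ∈ S, f ∈ F) :
    ∑ v ∈ VS S, av S v = 3 * S.card := by
  unfold av
  simp only [Finset.card_filter]
  rw [Finset.sum_comm]
  have h1 : ∀ f ∈ S, (∑ v ∈ VS S, if v ∈ f then 1 else 0) = 3 := by
    intro f hf
    rw [← Finset.card_filter, ← (hT.face f (hS f hf)).1]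
    congr 1
    ext v
    rw [Finset.mem_filter]
    exact ⟨fun h => h.2, fun h => ⟨mem_VS.2 ⟨f, hf, h⟩, h⟩⟩
  rw [Finset.sum_congr rfl h1, Finset.sum_const, smul_eq_mul, mul_comm]

/-- at an interior vertex all faces belong to the region -/
theorem Tri.av_interior {S : Finset (Finset V)} (hS : ∀ f ∈ S, f ∈ F) {v : V} (hv : v ∈ VS S)
    (hev : ∀ e ∈ G.edgeSet, v ∈ e → Even (ct S e)) : av S v = (G.neighborSet v).ncard := by
  obtain ⟨f, hf, hvf⟩ := mem_VS.1 hv
  have h3 := (hT.face f (hS _ hf)).1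
  obtain ⟨a, ha, hav⟩ := Finset.exists_mem_ne (by omega : 1 < f.card) v
  obtain ⟨b, hb, ht⟩ := hT.exists_third hav.symm (hS _ hf) hvf ha
  have hall : ∀ k, ph F v a b k ∈ S := by
    intro k
    induction k with
    | zero =>
      have : ph F v a b 0 = f := by rw [hb]; rfl
      rw [this]; exact hf
    | succ k ih =>
      by_contra hcon
      have h4 := hT.ct_z ht hS k
      rw [if_pos ih, if_neg hcon] at h4
      have h5 := hev s(v, z F v a b (k + 1)) (hT.z_adj ht (k + 1)) (by simp)
      rw [h4] at h5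
      simp at h5
  rw [hT.av_eq ht hS, Finset.filter_true_of_mem (fun k _ => hall k), Finset.card_range]

/-- **Combinatorial Gauss-Bonnet inequality** for a simple cycle. -/
theorem Tri.gauss_bonnet' {C : Finset (Sym2 V)} (hC : ∀ e ∈ C, e ∈ G.edgeSet) (hmin : EvMin C)
    (hne : C.Nonempty) {VC : Finset V} (hVC : ∀ v, v ∈ VC ↔ ∃ e ∈ C, v ∈ e)
    (hcard : VC.card = C.card)
    {S : Finset (Finset V)} (hS : ∀ f ∈ S, f ∈ F)
    (hb : ∀ e ∈ G.edgeSet, (e ∈ C ↔ Odd (ct S e))) :
    ∑ v ∈ VC, av S v + 6 ≤ 3 * VC.card ∧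
    (∑ v ∈ VC, av S v + 6 = 3 * VC.card → ∀ v ∈ VS S, v ∉ VC →
      (G.neighborSet v).ncard = 6) := by
  have hCS : ∀ e ∈ C, ∃ f ∈ S, e ∈ f.sym2 := by
    intro e he
    have h1 := ((hb e (hC e he)).1 he).pos
    obtain ⟨f, hf⟩ := Finset.card_pos.1 h1
    rw [Finset.mem_filter] at hf
    exact ⟨f, hf.1, hf.2⟩
  have hSne : S.Nonempty := by
    obtain ⟨e, he⟩ := hne
    obtain ⟨f, hf, -⟩ := hCS e he
    exact ⟨f, hf⟩
  have hEul := hT.euler hS hSne (fun C' hC' hev => hT.exact hC hmin hS hb hC' hev)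
  have hCES : C ⊆ ES G S := fun e he => mem_ES.2 ⟨hCS e he, hC e he⟩
  have h1 := hT.sum_ct hS
  have h2 : ∑ e ∈ ES G S, ct S e + C.card = 2 * (ES G S).card := by
    have e1 : ∀ e ∈ ES G S, ct S e = 2 - if e ∈ C then 1 else 0 := by
      intro e he
      obtain ⟨⟨f, hf, hef⟩, he'⟩ := mem_ES.1 he
      have h3 := hT.ct_le_two hS he'
      have h4 : 0 < ct S e := Finset.card_pos.2 ⟨f, Finset.mem_filter.2 ⟨hf, hef⟩⟩
      have h5 := hb e he'
      split_ifs with h6
      · have h7 := h5.1 h6
        rcases Nat.lt_or_ge (ct S e) 2 with h8 | h8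
        · omega
        · have : ct S e = 2 := by omega
          rw [this] at h7
          exact absurd h7 (by decide)
      · have h7 : ¬ Odd (ct S e) := fun h => h6 (h5.2 h)
        rcases Nat.lt_or_ge (ct S e) 2 with h8 | h8
        · have : ct S e = 1 := by omega
          rw [this] at h7
          exact absurd odd_one h7
        · omega
    rw [Finset.sum_congr rfl e1]
    have e2 : ∀ e ∈ ES G S, (2 - (if e ∈ C then 1 else 0)) + (if e ∈ C then 1 else 0) = 2 := by
      intro e _
      split_ifs <;> rfl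
    have e3 : C.card = ∑ e ∈ ES G S, if e ∈ C then 1 else 0 := by
      rw [← Finset.card_filter, Finset.filter_mem_eq_inter, Finset.inter_eq_right.2 hCES]
    rw [e3, ← Finset.sum_add_distrib, Finset.sum_congr rfl e2, Finset.sum_const, smul_eq_mul,
      mul_comm]
  have h3 := hT.sum_av hS
  have hVCS : VC ⊆ VS S := by
    intro v hv
    obtain ⟨e, he, hve⟩ := (hVC v).1 hv
    obtain ⟨f, hf, hef⟩ := hCS e he
    rw [Finset.mem_sym2_iff] at hef
    exact mem_VS.2 ⟨f, hf, hef v hve⟩
  have h4 : ∑ v ∈ VS S \ VC, av S v + ∑ v ∈ VC, av S v = ∑ v ∈ VS S, av S v :=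
    Finset.sum_sdiff hVCS
  have hint : ∀ v ∈ VS S \ VC, av S v = (G.neighborSet v).ncard := by
    intro v hv
    rw [Finset.mem_sdiff] at hv
    apply hT.av_interior hS hv.1
    intro e he hve
    rw [← Nat.not_odd_iff_even]
    intro hodd
    exact hv.2 ((hVC v).2 ⟨e, (hb e he).2 hodd, hve⟩)
  have h5 : 6 * (VS S \ VC).card ≤ ∑ v ∈ VS S \ VC, av S v := by
    rw [mul_comm, ← smul_eq_mul]
    apply Finset.card_nsmul_le_sum
    intro v hv
    rw [hint v hv]
    exact (hT.deg v).2
  have h6 := Finset.card_sdiff_add_card_eq_card hVCS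
  refine ⟨by omega, ?_⟩
  intro heq v hv hvC
  have hv' : v ∈ VS S \ VC := Finset.mem_sdiff.2 ⟨hv, hvC⟩
  by_contra hcon
  have h7 : 6 * (VS S \ VC).card < ∑ v ∈ VS S \ VC, av S v := by
    have : ∑ v ∈ VS S \ VC, 6 < ∑ v ∈ VS S \ VC, av S v := by
      apply Finset.sum_lt_sum
      · intro w hw
        rw [hint w hw]
        exact (hT.deg w).2
      · refine ⟨v, hv', ?_⟩
        rw [hint v hv']
        have := (hT.deg v).2
        omega
    rw [Finset.sum_const, smul_eq_mul, mul_comm] at this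
    exact this
  omega

theorem Tri.gauss_bonnet {C : Finset (Sym2 V)} (hC : ∀ e ∈ C, e ∈ G.edgeSet) (hmin : EvMin C)
    (hne : C.Nonempty) {VC : Finset V} (hVC : ∀ v, v ∈ VC ↔ ∃ e ∈ C, v ∈ e)
    (hcard : VC.card = C.card)
    {S : Finset (Finset V)} (hS : ∀ f ∈ S, f ∈ F)
    (hb : ∀ e ∈ G.edgeSet, (e ∈ C ↔ Odd (ct S e))) :
    ∑ v ∈ VC, av S v + 6 ≤ 3 * VC.card :=
  (hT.gauss_bonnet' hC hmin hne hVC hcard hS hb).1

end

end Pool.Agent.Work.MP_91103f_co
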