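import Mathlib
import Pool.Agent.Work.MP_91103f_co.Euler

/-!
# Loops made of turns
-/

namespace Pool.Agent.Work.MP_91103f_co

open Classical

section

variable {V : Type} {G : SimpleGraph V} {F : Set (Finset V)}

section cyc

variable {m : ℕ} {x : ℕ → V}

/-- the edges of a cycle -/
noncomputable def cyc (m : ℕ) (x : ℕ → V) : Finset (Sym2 V) :=
  (Finset.range m).image (fun t => s(x t, x (t + 1)))

variable (hm : 3 ≤ m) (hx : x m = x 0) (hinj : ∀ i j, i < m → j < m → x i = x j → i = j)
include hm hx hinj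

theorem x_eq_cases {i j : ℕ} (hi : i ≤ m) (hj : j ≤ m) (h : x i = x j) :
    i = j ∨ (i = 0 ∧ j = m) ∨ (i = m ∧ j = 0) := by
  rcases Nat.lt_or_ge i m with h1 | h1 <;> rcases Nat.lt_or_ge j m with h2 | h2
  · exact Or.inl (hinj i j h1 h2 h)
  · have : j = m := by omega
    subst this
    rw [hx] at h
    have := hinj i 0 h1 (by omega) h
    omega
  · have : i = m := by omega
    subst this
    rw [hx] at h
    have := hinj 0 j (by omega) h2 h
    omega
  · omega

theorem cyc_inj {i j : ℕ} (hi : i < m) (hj : j < m)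
    (h : s(x i, x (i + 1)) = s(x j, x (j + 1))) : i = j := by
  rw [Sym2.eq_iff] at h
  rcases h with ⟨h1, -⟩ | ⟨h1, h2⟩
  · exact hinj i j hi hj h1
  · have e1 := x_eq_cases hm hx hinj hi.le (by omega : j + 1 ≤ m) h1
    have e2 := x_eq_cases hm hx hinj (by omega : i + 1 ≤ m) hj.le h2
    omega

theorem card_cyc : (cyc m x).card = m := by
  unfold cyc
  rw [Finset.card_image_of_injOn, Finset.card_range]
  intro i hi j hj h
  rw [Finset.coe_range, Set.mem_Iio] at hi hj
  exact cyc_inj hm hx hinj hi hj h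

theorem card_verts : ((Finset.range m).image x).card = m := by
  rw [Finset.card_image_of_injOn, Finset.card_range]
  intro i hi j hj h
  rw [Finset.coe_range, Set.mem_Iio] at hi hj
  exact hinj i j hi hj h

omit hm hinj in
theorem mem_verts (v : V) : v ∈ (Finset.range m).image x ↔ ∃ e ∈ cyc m x, v ∈ e := by
  rw [Finset.mem_image]
  constructor
  · rintro ⟨t, ht, rfl⟩
    exact ⟨s(x t, x (t + 1)), Finset.mem_image.2 ⟨t, ht, rfl⟩, by simp⟩
  · rintro ⟨e, he, hv⟩
    obtain ⟨t, ht, rfl⟩ := Finset.mem_image.1 he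
    rw [Finset.mem_range] at ht
    rw [Sym2.mem_iff] at hv
    rcases hv with rfl | rfl
    · exact ⟨t, Finset.mem_range.2 ht, rfl⟩
    · rcases Nat.lt_or_ge (t + 1) m with h | h
      · exact ⟨t + 1, Finset.mem_range.2 h, rfl⟩
      · refine ⟨0, Finset.mem_range.2 (by omega), ?_⟩
        rw [← hx]
        congr 1
        omega

/-- edges of the cycle at an inner vertex -/
theorem cyc_at_succ {t : ℕ} (ht : t + 1 < m) {D : Finset (Sym2 V)} (hD : D ⊆ cyc m x) :
    D.filter (fun e => x (t + 1) ∈ e) =
      ({s(x t, x (t + 1)), s(x (t + 1), x (t + 2))} : Finset (Sym2 V)).filter (· ∈ D) := by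
  ext e
  rw [Finset.mem_filter, Finset.mem_filter, Finset.mem_insert, Finset.mem_singleton]
  constructor
  · rintro ⟨h1, h2⟩
    obtain ⟨j, hj, rfl⟩ := Finset.mem_image.1 (hD h1)
    rw [Finset.mem_range] at hj
    refine ⟨?_, h1⟩
    rw [Sym2.mem_iff] at h2
    rcases h2 with h2 | h2
    · have := x_eq_cases hm hx hinj ht.le hj.le h2
      have h3 : j = t + 1 := by omega
      right
      rw [h3]
    · have := x_eq_cases hm hx hinj ht.le (by omega : j + 1 ≤ m) h2
      have h3 : j = t := by omega
      left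
      rw [h3]
  · rintro ⟨rfl | rfl, h2⟩
    · exact ⟨h2, by simp⟩
    · exact ⟨h2, by simp⟩

theorem cyc_at_zero {D : Finset (Sym2 V)} (hD : D ⊆ cyc m x) :
    D.filter (fun e => x 0 ∈ e) =
      ({s(x 0, x 1), s(x (m - 1), x 0)} : Finset (Sym2 V)).filter (· ∈ D) := by
  ext e
  rw [Finset.mem_filter, Finset.mem_filter, Finset.mem_insert, Finset.mem_singleton]
  constructor
  · rintro ⟨h1, h2⟩
    obtain ⟨j, hj, rfl⟩ := Finset.mem_image.1 (hD h1)
    rw [Finset.mem_range] at hj
    refine ⟨?_, h1⟩
    rw [Sym2.mem_iff] at h2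
    rcases h2 with h2 | h2
    · have := x_eq_cases hm hx hinj (Nat.zero_le m) hj.le h2
      have h3 : j = 0 := by omega
      left
      rw [h3]
    · have := x_eq_cases hm hx hinj (Nat.zero_le m) (by omega : j + 1 ≤ m) h2
      have h3 : j = m - 1 := by omega
      right
      rw [h3, show m - 1 + 1 = m by omega, hx]
  · rintro ⟨rfl | rfl, h2⟩
    · exact ⟨h2, by simp⟩
    · exact ⟨h2, by simp⟩

theorem cyc_edges_ne {t : ℕ} (ht : t + 1 < m) : s(x t, x (t + 1)) ≠ s(x (t + 1), x (t + 2)) := by
  intro h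
  have := cyc_inj hm hx hinj (by omega : t < m) ht h
  omega

theorem cyc_even (v : V) : Even ((cyc m x).filter (fun e => v ∈ e)).card := by
  by_cases hv : ∃ t < m, v = x t
  · obtain ⟨t, ht, rfl⟩ := hv
    rcases t with _ | t
    · rw [cyc_at_zero hm hx hinj (Finset.Subset.refl _)]
      have h1 : s(x 0, x 1) ∈ cyc m x := Finset.mem_image.2 ⟨0, by simp; omega, rfl⟩
      have h2 : s(x (m - 1), x 0) ∈ cyc m x := Finset.mem_image.2 ⟨m - 1, by simp; omega, by
        rw [show m - 1 + 1 = m by omega, hx]⟩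
      have h3 : s(x 0, x 1) ≠ s(x (m - 1), x 0) := by
        intro h
        have := cyc_inj hm hx hinj (i := 0) (j := m - 1) (by omega) (by omega) (by
          rw [show m - 1 + 1 = m by omega, hx]; exact h)
        omega
      rw [Finset.filter_true_of_mem, Finset.card_pair h3]
      · exact even_two
      · intro e he
        simp only [Finset.mem_insert, Finset.mem_singleton] at he
        rcases he with rfl | rfl
        · exact h1
        · exact h2
    · rw [cyc_at_succ hm hx hinj ht (Finset.Subset.refl _)]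
      have h1 : s(x t, x (t + 1)) ∈ cyc m x := Finset.mem_image.2 ⟨t, by simp; omega, rfl⟩
      have h2 : s(x (t + 1), x (t + 2)) ∈ cyc m x := Finset.mem_image.2 ⟨t + 1, by simpa, rfl⟩
      rw [Finset.filter_true_of_mem, Finset.card_pair (cyc_edges_ne hm hx hinj ht)]
      · exact even_two
      · intro e he
        simp only [Finset.mem_insert, Finset.mem_singleton] at he
        rcases he with rfl | rfl
        · exact h1
        · exact h2
  · have : (cyc m x).filter (fun e => v ∈ e) = ∅ := by
      rw [Finset.filter_eq_empty_iff]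
      intro e he hve
      obtain ⟨t, ht, rfl⟩ := Finset.mem_image.1 ((mem_verts hx v).2 ⟨e, he, hve⟩)
      exact hv ⟨t, Finset.mem_range.1 ht, rfl⟩
    rw [this]
    simp

theorem cyc_evMin : EvMin (cyc m x) := by
  intro D hD hev
  have key : ∀ t, t + 1 < m → (s(x t, x (t + 1)) ∈ D ↔ s(x (t + 1), x (t + 2)) ∈ D) := by
    intro t ht
    have h1 := hev (x (t + 1))
    rw [cyc_at_succ hm hx hinj ht hD] at h1
    have hne := cyc_edges_ne hm hx hinj ht
    rw [Finset.filter_insert, Finset.filter_singleton] at h1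
    by_cases h2 : s(x t, x (t + 1)) ∈ D <;> by_cases h3 : s(x (t + 1), x (t + 2)) ∈ D
    · simp [h2, h3]
    · simp [h2, h3] at h1
    · simp [h2, h3] at h1
    · simp [h2, h3]
  have key2 : ∀ t, t < m → (s(x t, x (t + 1)) ∈ D ↔ s(x 0, x 1) ∈ D) := by
    intro t
    induction t with
    | zero => intro _; exact Iff.rfl
    | succ t ih =>
      intro ht
      rw [← ih (by omega), key t ht]
  by_cases h0 : s(x 0, x 1) ∈ D
  · right
    apply Finset.Subset.antisymm hD
    intro e he
    obtain ⟨t, ht, rfl⟩ := Finset.mem_image.1 he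
    exact (key2 t (Finset.mem_range.1 ht)).2 h0
  · left
    rw [Finset.eq_empty_iff_forall_notMem]
    intro e he
    obtain ⟨t, ht, rfl⟩ := Finset.mem_image.1 (hD he)
    exact h0 ((key2 t (Finset.mem_range.1 ht)).1 he)

end cyc

variable (hT : Tri V G F)
include hT

/-- The flag after a turn. -/
theorem Tri.flag_step {v a b : V} (h : T3 F v a b) {l : ℕ} (hl : 1 ≤ l) :
    T3 F (z F v a b l) v (z F v a b (l - 1)) := by
  have := hT.z_face h (l - 1)
  rw [show l - 1 + 1 = l by omega] at this
  exact this.swap'.swap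

/-- The angle of the region at an inner vertex of a simple cycle. -/
theorem Tri.angle {v a b : V} (h : T3 F v a b) {l : ℕ} (hl : 1 ≤ l)
    (hl2 : l < (G.neighborSet v).ncard) {S : Finset (Finset V)} (hS : ∀ f ∈ S, f ∈ F)
    (hodd : ∀ c, G.Adj v c → (Odd (ct S s(v, c)) ↔ c = a ∨ c = z F v a b l)) :
    (ph F v a b (l - 1) ∈ S ↔ ph F v a b 0 ∈ S) ∧
    (av S v = if ph F v a b 0 ∈ S then l else (G.neighborSet v).ncard - l) ∧
    (∀ k, k < l → (ph F v a b k ∈ S ↔ ph F v a b 0 ∈ S)) ∧
    (∀ k, l ≤ k → k < (G.neighborSet v).ncard →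
      (ph F v a b k ∈ S ↔ ¬ ph F v a b 0 ∈ S)) := by
  have hz := (hT.z_cycle h).2.1
  set d := (G.neighborSet v).ncard with hd
  have hd6 := (hT.deg v).2
  have step : ∀ k, k + 1 < d → k + 1 ≠ l → (ph F v a b (k + 1) ∈ S ↔ ph F v a b k ∈ S) := by
    intro k hk hkl
    have h1 := hodd _ (hT.z_adj h (k + 1))
    have h2 : ¬ (z F v a b (k + 1) = a ∨ z F v a b (k + 1) = z F v a b l) := by
      rintro (h2 | h2)
      · have := hz (k + 1) 0 hk (by omega) h2
        omega
      · exact hkl (hz _ _ hk hl2 h2)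
    have h3 : ¬ Odd (ct S s(v, z F v a b (k + 1))) := fun hh => h2 (h1.1 hh)
    rw [hT.ct_z h hS] at h3
    by_cases h4 : ph F v a b k ∈ S <;> by_cases h5 : ph F v a b (k + 1) ∈ S
    · simp [h4, h5]
    · simp [h4, h5] at h3
    · simp [h4, h5] at h3
    · simp [h4, h5]
  have jump : ph F v a b l ∈ S ↔ ¬ ph F v a b (l - 1) ∈ S := by
    have h1 := (hodd _ (hT.z_adj h l)).2 (Or.inr rfl)
    have h2 := hT.ct_z h hS (l - 1)
    rw [show l - 1 + 1 = l by omega] at h2
    rw [h2] at h1
    by_cases h4 : ph F v a b (l - 1) ∈ S <;> by_cases h5 : ph F v a b l ∈ S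
    · simp [h4, h5] at h1
      exact absurd h1 (by decide)
    · simp [h4, h5]
    · simp [h4, h5]
    · simp [h4, h5] at h1
  have low : ∀ k, k < l → (ph F v a b k ∈ S ↔ ph F v a b 0 ∈ S) := by
    intro k
    induction k with
    | zero => intro _; exact Iff.rfl
    | succ k ih =>
      intro hk
      rw [step k (by omega) (by omega), ih (by omega)]
  have high : ∀ k, l ≤ k → k < d → (ph F v a b k ∈ S ↔ ¬ ph F v a b 0 ∈ S) := by
    intro k
    induction k with
    | zero => intro h0; omega
    | succ k ih =>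
      intro hk hkd
      rcases Nat.lt_or_ge k l with h1 | h1
      · have : k + 1 = l := by omega
        rw [this, jump, low (l - 1) (by omega)]
      · rw [step k hkd (by omega), ih h1 (by omega)]
  refine ⟨low (l - 1) (by omega), ?_, low, high⟩
  rw [hT.av_eq h hS, ← hd]
  split_ifs with h0
  · have : (Finset.range d).filter (fun k => ph F v a b k ∈ S) = Finset.range l := by
      ext k
      rw [Finset.mem_filter, Finset.mem_range, Finset.mem_range]
      constructor
      · rintro ⟨h1, h2⟩
        by_contra hcon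
        exact (high k (by omega) h1).1 h2 h0
      · intro h1
        exact ⟨by omega, (low k h1).2 h0⟩
    rw [this, Finset.card_range]
  · have : (Finset.range d).filter (fun k => ph F v a b k ∈ S) = Finset.Ico l d := by
      ext k
      rw [Finset.mem_filter, Finset.mem_range, Finset.mem_Ico]
      constructor
      · rintro ⟨h1, h2⟩
        refine ⟨?_, h1⟩
        by_contra hcon
        exact h0 ((low k (by omega)).1 h2)
      · rintro ⟨h1, h2⟩
        exact ⟨h2, (high k h1 h2).2 h0⟩
    rw [this, Nat.card_Ico]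

/-- **Loop lemma**: the total left turning or the total right turning along a loop is at
least four. -/
theorem Tri.loop {m : ℕ} {x w : ℕ → V} {l : ℕ → ℕ} (hm : 3 ≤ m) (hx : x m = x 0)
    (hinj : ∀ i j, i < m → j < m → x i = x j → i = j)
    (h0 : T3 F (x 1) (x 0) (w 0))
    (hl : ∀ t, t + 1 < m → 1 ≤ l t ∧ l t < (G.neighborSet (x (t + 1))).ncard)
    (hxs : ∀ t, t + 1 < m → x (t + 2) = z F (x (t + 1)) (x t) (w t) (l t))
    (hws : ∀ t, t + 1 < m → w (t + 1) = z F (x (t + 1)) (x t) (w t) (l t - 1)) :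
    (∑ t ∈ Finset.range (m - 1), l t) + 7 ≤ 3 * m ∨
    (∑ t ∈ Finset.range (m - 1), ((G.neighborSet (x (t + 1))).ncard - l t)) + 7 ≤ 3 * m := by
  -- flags
  have hfl : ∀ t, t < m → T3 F (x (t + 1)) (x t) (w t) := by
    intro t
    induction t with
    | zero => intro _; exact h0
    | succ t ih =>
      intro ht
      have := hT.flag_step (ih (by omega)) (hl t ht).1
      rw [← hxs t ht, ← hws t ht] at this
      exact this
  have hadj : ∀ t, t < m → G.Adj (x t) (x (t + 1)) := fun t ht => (hT.adj (hfl t ht)).symm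
  have hC : ∀ e ∈ cyc m x, e ∈ G.edgeSet := by
    intro e he
    obtain ⟨t, ht, rfl⟩ := Finset.mem_image.1 he
    exact hadj t (Finset.mem_range.1 ht)
  obtain ⟨S, hS, hb⟩ := hT.hom (cyc m x) hC (by
    intro v
    have : {e : Sym2 V | e ∈ cyc m x ∧ v ∈ e}.ncard =
        ((cyc m x).filter (fun e => v ∈ e)).card := by
      rw [← Set.ncard_coe_finset]
      congr 1
      ext e
      simp
    rw [this]
    exact cyc_even hm hx hinj v)
  simp only [ct_eq_ncard] at hb
  have hne : (cyc m x).Nonempty := by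
    rw [← Finset.card_pos, card_cyc hm hx hinj]
    omega
  have hgb := hT.gauss_bonnet hC (cyc_evMin hm hx hinj) hne (mem_verts hx)
    (by rw [card_verts hm hx hinj, card_cyc hm hx hinj]) hS hb
  rw [card_verts hm hx hinj, Finset.sum_image (by
    intro i hi j hj h
    rw [Finset.coe_range, Set.mem_Iio] at hi hj
    exact hinj i j hi hj h)] at hgb
  -- angle at the base point
  have hbase : 1 ≤ av S (x 0) := by
    have h1 : s(x 0, x 1) ∈ cyc m x := Finset.mem_image.2 ⟨0, by simp; omega, rfl⟩
    have h2 := ((hb _ (hC _ h1)).1 h1).pos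
    obtain ⟨f, hf⟩ := Finset.card_pos.1 h2
    rw [Finset.mem_filter, mem_sym2_mk] at hf
    exact Finset.card_pos.2 ⟨f, Finset.mem_filter.2 ⟨hf.1, hf.2.1⟩⟩
  -- parity at inner vertices
  have hodd : ∀ t, t + 1 < m → ∀ c, G.Adj (x (t + 1)) c →
      (Odd (ct S s(x (t + 1), c)) ↔ c = x t ∨ c = z F (x (t + 1)) (x t) (w t) (l t)) := by
    intro t ht c hc
    rw [← hb _ hc, ← hxs t ht]
    constructor
    · intro h1
      obtain ⟨j, hj, hje⟩ := Finset.mem_image.1 h1
      rw [Finset.mem_range] at hj
      rw [Sym2.eq_iff] at hje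
      rcases hje with ⟨h2, h3⟩ | ⟨h2, h3⟩
      · have := x_eq_cases hm hx hinj hj.le ht.le h2
        have h4 : j = t + 1 := by omega
        right
        rw [← h3, h4]
      · have := x_eq_cases hm hx hinj (by omega : j + 1 ≤ m) ht.le h3
        have h4 : j = t := by omega
        left
        rw [← h2, h4]
    · rintro (rfl | rfl)
      · exact Finset.mem_image.2 ⟨t, by simp; omega, Sym2.eq_swap⟩
      · exact Finset.mem_image.2 ⟨t + 1, by simpa, rfl⟩
  have hang := fun t ht => hT.angle (hfl t (by omega)) (hl t ht).1 (hl t ht).2 hS (hodd t ht)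
  -- the side is constant
  have hside : ∀ t, t + 1 < m →
      (ph F (x (t + 1)) (x t) (w t) 0 ∈ S ↔ ph F (x 1) (x 0) (w 0) 0 ∈ S) := by
    intro t
    induction t with
    | zero => intro _; exact Iff.rfl
    | succ t ih =>
      intro ht
      rw [← ih (by omega), ← (hang t (by omega)).1]
      have : ph F (x (t + 2)) (x (t + 1)) (w (t + 1)) 0 =
          ph F (x (t + 1)) (x t) (w t) (l t - 1) := by
        have hl1 := (hl t (by omega)).1
        unfold ph
        rw [show l t - 1 + 1 = l t by omega, ← hxs t (by omega), ← hws t (by omega), z_zero,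
          zero_add, z_one]
        ext u
        simp only [Finset.mem_insert, Finset.mem_singleton]
        tauto
      rw [show t + 1 + 1 = t + 2 by ring, this]
  have hsum : ∑ t ∈ Finset.range m, av S (x t) =
      ∑ t ∈ Finset.range (m - 1), av S (x (t + 1)) + av S (x 0) := by
    have := Finset.sum_range_succ' (fun t => av S (x t)) (m - 1)
    rw [show m - 1 + 1 = m by omega] at this
    exact this
  by_cases hP : ph F (x 1) (x 0) (w 0) 0 ∈ S
  · left
    have h1 : ∑ t ∈ Finset.range (m - 1), av S (x (t + 1)) =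
        ∑ t ∈ Finset.range (m - 1), l t := by
      refine Finset.sum_congr rfl fun t ht => ?_
      rw [Finset.mem_range] at ht
      rw [(hang t (by omega)).2.1, if_pos ((hside t (by omega)).2 hP)]
    omega
  · right
    have h1 : ∑ t ∈ Finset.range (m - 1), av S (x (t + 1)) =
        ∑ t ∈ Finset.range (m - 1), ((G.neighborSet (x (t + 1))).ncard - l t) := by
      refine Finset.sum_congr rfl fun t ht => ?_
      rw [Finset.mem_range] at ht
      rw [(hang t (by omega)).2.1, if_neg (fun h => hP ((hside t (by omega)).1 h))]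
    omega

end

end Pool.Agent.Work.MP_91103f_co
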