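import Mathlib
import Pool.Agent.Work.MP_91103f_co.Loop

/-!
# Flat polygons: the height function and rotation of the base point
-/

namespace Pool.Agent.Work.MP_91103f_co

open Classical

/-- The height of the unit vector of direction `60 k` degrees. -/
def hgt (k : ℤ) : ℤ :=
  if k % 6 = 0 ∨ k % 6 = 3 then 0 else if k % 6 = 1 ∨ k % 6 = 2 then 1 else -1

theorem hgt_add_six (k : ℤ) : hgt (k + 6) = hgt k := by
  unfold hgt
  rw [show (k + 6) % 6 = k % 6 by omega]

theorem hgt_tri (k : ℤ) : hgt k + hgt (k + 2) = hgt (k + 1) := by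
  unfold hgt
  split_ifs <;> omega

theorem hgt_add_three (k : ℤ) : hgt (k + 3) = - hgt k := by
  unfold hgt
  split_ifs <;> omega

theorem hgt_add_four (k : ℤ) : hgt (k + 4) = - hgt (k + 1) := by
  rw [show k + 4 = (k + 1) + 3 by ring, hgt_add_three]

theorem hgt_add_five (k : ℤ) : hgt (k + 5) = hgt (k - 1) := by
  rw [show k + 5 = (k - 1) + 6 by ring, hgt_add_six]

theorem hgt_three (k : ℤ) : hgt k + hgt (k + 2) + hgt (k + 4) = 0 := by
  rw [hgt_add_four, hgt_tri]
  ring

/-- The polygon with turning angles `al` closes up, in the vertical direction. -/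
def Cl (m : ℕ) (al : ℕ → ℤ) : Prop :=
  (∑ t ∈ Finset.range m, al t = 6) ∧
  ∀ k : ℤ, ∑ q ∈ Finset.range m, hgt (k + ∑ t ∈ Finset.range q, al (t + 1)) = 0

theorem Cl.congr {m : ℕ} {al al' : ℕ → ℤ} (h : ∀ t < m, al t = al' t) (hc : Cl m al) :
    Cl m al' := by
  refine ⟨?_, ?_⟩
  · rw [← hc.1]
    refine Finset.sum_congr rfl fun t ht => (h t (Finset.mem_range.1 ht)).symm
  · intro k
    rw [← hc.2 k]
    refine Finset.sum_congr rfl fun q hq => ?_
    rw [Finset.mem_range] at hq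
    congr 2
    refine Finset.sum_congr rfl fun t ht => ?_
    rw [Finset.mem_range] at ht
    rw [h (t + 1) (by omega)]

theorem Cl.of_rotate {m : ℕ} (hm : 1 ≤ m) {al : ℕ → ℤ} (hal : al m = al 0)
    (h : Cl m (fun t => al (t + 1))) : Cl m al := by
  obtain ⟨h1, h2⟩ := h
  have hs : ∑ t ∈ Finset.range m, al t = 6 := by
    rw [← h1]
    have e1 := Finset.sum_range_succ' al m
    have e2 := Finset.sum_range_succ al m
    linarith
  refine ⟨hs, ?_⟩
  intro k
  have h3 := h2 (k + al 1)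
  have e1 : ∀ q, (k + al 1) + ∑ t ∈ Finset.range q, al (t + 1 + 1) =
      k + ∑ t ∈ Finset.range (q + 1), al (t + 1) := by
    intro q
    rw [Finset.sum_range_succ']
    ring
  simp only [e1] at h3
  set f : ℕ → ℤ := fun q => hgt (k + ∑ t ∈ Finset.range q, al (t + 1)) with hf
  have e2 := Finset.sum_range_succ' f m
  have e3 := Finset.sum_range_succ f m
  have e4 : f m = f 0 := by
    simp only [hf]
    rw [h1, hgt_add_six, Finset.sum_range_zero, add_zero]
  change ∑ q ∈ Finset.range m, f (q + 1) = 0 at h3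
  change ∑ q ∈ Finset.range m, f q = 0
  linarith

section

variable {V : Type} {G : SimpleGraph V} {F : Set (Finset V)}

variable (G F) in
/-- A simple loop with its region, which is flat inside. -/
structure Lp (m : ℕ) (x : ℕ → V) (S : Finset (Finset V)) : Prop where
  hm : 3 ≤ m
  hx : x m = x 0
  inj : ∀ i j, i < m → j < m → x i = x j → i = j
  adj : ∀ t < m, G.Adj (x t) (x (t + 1))
  sub : ∀ f ∈ S, f ∈ F
  bd : ∀ e ∈ G.edgeSet, (e ∈ cyc m x ↔ Odd (ct S e))
  flat : ∀ v ∈ VS S, (∀ t < m, v ≠ x t) → (G.neighborSet v).ncard = 6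

/-- rotation by one step -/
def rot (m : ℕ) (x : ℕ → V) (t : ℕ) : V := if t < m then x (t + 1) else x 1

theorem cyc_rot {m : ℕ} {x : ℕ → V} (hm : 3 ≤ m) (hx : x m = x 0) :
    cyc m (rot m x) = cyc m x := by
  have hr : ∀ t < m, s(rot m x t, rot m x (t + 1)) =
      if t + 1 < m then s(x (t + 1), x (t + 2)) else s(x 0, x 1) := by
    intro t ht
    unfold rot
    rw [if_pos ht]
    split_ifs with h1
    · rfl
    · rw [show t + 1 = m by omega, hx]
  ext e
  unfold cyc
  rw [Finset.mem_image, Finset.mem_image]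
  constructor
  · rintro ⟨t, ht, rfl⟩
    rw [Finset.mem_range] at ht
    rw [hr t ht]
    split_ifs with h1
    · exact ⟨t + 1, Finset.mem_range.2 h1, rfl⟩
    · exact ⟨0, Finset.mem_range.2 (by omega), rfl⟩
  · rintro ⟨t, ht, rfl⟩
    rw [Finset.mem_range] at ht
    rcases t with _ | t
    · refine ⟨m - 1, Finset.mem_range.2 (by omega), ?_⟩
      rw [hr _ (by omega), if_neg (by omega)]
    · refine ⟨t, Finset.mem_range.2 (by omega), ?_⟩
      rw [hr _ (by omega), if_pos ht]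

theorem Lp.rot {m : ℕ} {x : ℕ → V} {S : Finset (Finset V)} (L : Lp G F m x S) :
    Lp G F m (rot m x) S := by
  have hm := L.hm
  refine ⟨L.hm, ?_, ?_, ?_, L.sub, ?_, ?_⟩
  · unfold Pool.Agent.Work.MP_91103f_co.rot
    rw [if_neg (lt_irrefl _), if_pos (by omega)]
  · intro i j hi hj h
    unfold Pool.Agent.Work.MP_91103f_co.rot at h
    rw [if_pos hi, if_pos hj] at h
    have := x_eq_cases L.hm L.hx L.inj (by omega) (by omega) h
    omega
  · intro t ht
    unfold Pool.Agent.Work.MP_91103f_co.rot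
    rw [if_pos ht]
    split_ifs with h1
    · exact L.adj (t + 1) h1
    · rw [show t + 1 = m by omega, L.hx]
      exact L.adj 0 (by omega)
  · rw [cyc_rot L.hm L.hx]
    exact L.bd
  · intro v hv h
    apply L.flat v hv
    intro t ht hvt
    rcases t with _ | t
    · apply h (m - 1) (by omega)
      unfold Pool.Agent.Work.MP_91103f_co.rot
      rw [if_pos (by omega), show m - 1 + 1 = m by omega, L.hx]
      exact hvt
    · apply h t (by omega)
      unfold Pool.Agent.Work.MP_91103f_co.rot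
      rw [if_pos (by omega)]
      exact hvt

/-- the turning angles of a loop -/
noncomputable def tal (x : ℕ → V) (S : Finset (Finset V)) (t : ℕ) : ℤ := 3 - (av S (x t) : ℤ)

theorem Cl.of_rot {m : ℕ} {x : ℕ → V} {S : Finset (Finset V)} (L : Lp G F m x S)
    (h : Cl m (tal (Pool.Agent.Work.MP_91103f_co.rot m x) S)) : Cl m (tal x S) := by
  have hm := L.hm
  apply Cl.of_rotate (by omega)
  · unfold tal
    rw [L.hx]
  · apply Cl.congr _ h
    intro t ht
    unfold tal Pool.Agent.Work.MP_91103f_co.rot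
    rw [if_pos ht]

theorem rot_iter {m : ℕ} {x : ℕ → V} (s : ℕ) (hs : s < m) :
    ((rot m)^[s] x) 0 = x s := by
  have key : ∀ s (y : ℕ → V), s < m → ∀ t, t + s ≤ m → ((rot m)^[s] y) t = y (t + s) := by
    intro s
    induction s with
    | zero => intro y _ t _; rfl
    | succ s ih =>
      intro y hs t ht
      rw [Function.iterate_succ_apply, ih (rot m y) (by omega) t (by omega)]
      unfold rot
      rw [if_pos (by omega)]
      rfl
  have := key s x hs 0 (by omega)
  rwa [zero_add] at this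

theorem Lp.rot_iter {m : ℕ} {S : Finset (Finset V)} (s : ℕ) : ∀ {x : ℕ → V}, Lp G F m x S →
    Lp G F m ((Pool.Agent.Work.MP_91103f_co.rot m)^[s] x) S ∧
    (Cl m (tal ((Pool.Agent.Work.MP_91103f_co.rot m)^[s] x) S) → Cl m (tal x S)) := by
  induction s with
  | zero => intro x L; exact ⟨L, id⟩
  | succ s ih =>
    intro x L
    obtain ⟨h1, h2⟩ := ih L.rot
    rw [Function.iterate_succ_apply]
    exact ⟨h1, fun h => Cl.of_rot L (h2 h)⟩

/-- membership in a cycle -/
theorem mem_cyc {m : ℕ} {x : ℕ → V} {e : Sym2 V} :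
    e ∈ cyc m x ↔ ∃ t < m, e = s(x t, x (t + 1)) := by
  unfold cyc
  rw [Finset.mem_image]
  constructor
  · rintro ⟨t, ht, rfl⟩
    exact ⟨t, Finset.mem_range.1 ht, rfl⟩
  · rintro ⟨t, ht, rfl⟩
    exact ⟨t, Finset.mem_range.2 ht, rfl⟩

/-- the middle edges -/
noncomputable def mid (m : ℕ) (x : ℕ → V) : Finset (Sym2 V) :=
  (Finset.Ico 1 (m - 1)).image (fun t => s(x t, x (t + 1)))

theorem mem_mid {m : ℕ} {x : ℕ → V} {e : Sym2 V} :
    e ∈ mid m x ↔ ∃ t, 1 ≤ t ∧ t < m - 1 ∧ e = s(x t, x (t + 1)) := by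
  unfold mid
  rw [Finset.mem_image]
  constructor
  · rintro ⟨t, ht, rfl⟩
    rw [Finset.mem_Ico] at ht
    exact ⟨t, ht.1, ht.2, rfl⟩
  · rintro ⟨t, h1, h2, rfl⟩
    exact ⟨t, Finset.mem_Ico.2 ⟨h1, h2⟩, rfl⟩

theorem mem_cyc_mid {m : ℕ} {x : ℕ → V} (hm : 3 ≤ m) (hx : x m = x 0) {e : Sym2 V} :
    e ∈ cyc m x ↔ e = s(x 0, x 1) ∨ e = s(x (m - 1), x 0) ∨ e ∈ mid m x := by
  rw [mem_cyc, mem_mid]
  constructor
  · rintro ⟨t, ht, rfl⟩
    rcases Nat.eq_zero_or_pos t with rfl | h0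
    · left; rfl
    rcases Nat.lt_or_ge t (m - 1) with h1 | h1
    · right; right; exact ⟨t, h0, h1, rfl⟩
    · right; left
      rw [show t = m - 1 by omega, show m - 1 + 1 = m by omega, hx]
  · rintro (rfl | rfl | ⟨t, h1, h2, rfl⟩)
    · exact ⟨0, by omega, rfl⟩
    · exact ⟨m - 1, by omega, by rw [show m - 1 + 1 = m by omega, hx]⟩
    · exact ⟨t, by omega, rfl⟩

theorem mem_cyc_zero {m : ℕ} {x : ℕ → V} (hm : 3 ≤ m) (hx : x m = x 0)
    (hinj : ∀ i j, i < m → j < m → x i = x j → i = j) {c : V} :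
    s(x 0, c) ∈ cyc m x ↔ c = x 1 ∨ c = x (m - 1) := by
  rw [mem_cyc]
  constructor
  · rintro ⟨t, ht, he⟩
    rw [Sym2.eq_iff] at he
    rcases he with ⟨h1, h2⟩ | ⟨h1, h2⟩
    · have := hinj 0 t (by omega) ht h1
      subst this
      left; exact h2
    · have := x_eq_cases hm hx hinj (by omega : 0 ≤ m) (by omega : t + 1 ≤ m) h1
      right
      rw [h2]
      congr 1
      omega
  · rintro (rfl | rfl)
    · exact ⟨0, by omega, rfl⟩
    · exact ⟨m - 1, by omega, by rw [show m - 1 + 1 = m by omega, hx]; exact Sym2.eq_swap⟩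

theorem mem_cyc_succ {m : ℕ} {x : ℕ → V} (hm : 3 ≤ m) (hx : x m = x 0)
    (hinj : ∀ i j, i < m → j < m → x i = x j → i = j) {t : ℕ} (ht : t + 1 < m) {c : V} :
    s(x (t + 1), c) ∈ cyc m x ↔ c = x t ∨ c = x (t + 2) := by
  rw [mem_cyc]
  constructor
  · rintro ⟨j, hj, he⟩
    rw [Sym2.eq_iff] at he
    rcases he with ⟨h1, h2⟩ | ⟨h1, h2⟩
    · have := hinj (t + 1) j ht hj h1
      right
      rw [h2, ← this]
    · have := x_eq_cases hm hx hinj ht.le (by omega : j + 1 ≤ m) h1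
      left
      rw [h2]
      congr 1
      omega
  · rintro (rfl | rfl)
    · exact ⟨t, by omega, Sym2.eq_swap⟩
    · exact ⟨t + 1, ht, rfl⟩

/-- no edge of the cycle at a vertex off the cycle -/
theorem notMem_cyc {m : ℕ} {x : ℕ → V} (hx : x m = x 0) {v c : V} (hv : ∀ t < m, v ≠ x t) :
    s(v, c) ∉ cyc m x := by
  rw [mem_cyc]
  rintro ⟨j, hj, he⟩
  rw [Sym2.eq_iff] at he
  rcases he with ⟨h1, h2⟩ | ⟨h1, h2⟩
  · exact hv j hj h1
  · rcases Nat.lt_or_ge (j + 1) m with h3 | h3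
    · exact hv _ h3 h1
    · rw [show j + 1 = m by omega, hx] at h1
      exact hv 0 (by omega) h1

theorem ct_erase {S : Finset (Finset V)} {f : Finset V} (hf : f ∈ S) (e : Sym2 V) :
    ct S e = ct (S.erase f) e + if e ∈ f.sym2 then 1 else 0 := by
  conv_lhs => rw [← Finset.insert_erase hf]
  unfold ct
  rw [Finset.filter_insert]
  split_ifs with h
  · rw [Finset.card_insert_of_notMem]
    simp
  · rfl

theorem av_erase {S : Finset (Finset V)} {f : Finset V} (hf : f ∈ S) (v : V) :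
    av S v = av (S.erase f) v + if v ∈ f then 1 else 0 := by
  conv_lhs => rw [← Finset.insert_erase hf]
  unfold av
  rw [Finset.filter_insert]
  split_ifs with h
  · rw [Finset.card_insert_of_notMem]
    simp
  · rfl

theorem mem_VS_av {S : Finset (Finset V)} {v : V} : v ∈ VS S ↔ av S v ≠ 0 := by
  rw [mem_VS]
  unfold av
  rw [Ne, Finset.card_eq_zero, ← Ne, ← Finset.nonempty_iff_ne_empty]
  constructor
  · rintro ⟨f, h1, h2⟩
    exact ⟨f, Finset.mem_filter.2 ⟨h1, h2⟩⟩
  · rintro ⟨f, h⟩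
    rw [Finset.mem_filter] at h
    exact ⟨f, h.1, h.2⟩

variable (hT : Tri V G F)
include hT

/-- The corner of the region at the base point. -/
theorem Tri.corner {m : ℕ} {x : ℕ → V} {S : Finset (Finset V)} (L : Lp G F m x S) :
    ∃ b l, T3 F (x 0) (x (m - 1)) b ∧ 1 ≤ l ∧ l < (G.neighborSet (x 0)).ncard ∧
      x 1 = z F (x 0) (x (m - 1)) b l ∧ av S (x 0) = l ∧
      (∀ k < l, ph F (x 0) (x (m - 1)) b k ∈ S) ∧
      (∀ f ∈ S, x 0 ∈ f → ∃ k < l, f = ph F (x 0) (x (m - 1)) b k) := by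
  have hm := L.hm
  have hadj : G.Adj (x 0) (x (m - 1)) := by
    have := L.adj (m - 1) (by omega)
    rw [show m - 1 + 1 = m by omega, L.hx] at this
    exact this.symm
  -- a face of S at the last edge
  have hodd0 : Odd (ct S s(x 0, x (m - 1))) :=
    (L.bd _ hadj).1 ((mem_cyc_zero hm L.hx L.inj).2 (Or.inr rfl))
  obtain ⟨f, hf⟩ := Finset.card_pos.1 hodd0.pos
  rw [Finset.mem_filter, mem_sym2_mk] at hf
  obtain ⟨b, hb, ht⟩ := hT.exists_third hadj.ne (L.sub f hf.1) hf.2.1 hf.2.2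
  have h0 : ph F (x 0) (x (m - 1)) b 0 ∈ S := by
    have : ph F (x 0) (x (m - 1)) b 0 = f := by rw [hb]; rfl
    rw [this]
    exact hf.1
  obtain ⟨l, hl, hxl⟩ := (hT.z_cycle ht).2.2 (x 1) (L.adj 0 (by omega))
  have hl1 : 1 ≤ l := by
    by_contra hcon
    have : l = 0 := by omega
    subst this
    have := L.inj 1 (m - 1) (by omega) (by omega) hxl
    omega
  have hang := hT.angle ht hl1 hl L.sub (by
    intro c hc
    rw [← L.bd _ hc, mem_cyc_zero hm L.hx L.inj, ← hxl]
    tauto)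
  refine ⟨b, l, ht, hl1, hl, hxl, ?_, ?_, ?_⟩
  · rw [hang.2.1, if_pos h0]
  · intro k hk
    exact (hang.2.2.1 k hk).2 h0
  · intro f hfS hxf
    obtain ⟨k, hk, rfl⟩ := hT.ph_surj ht (L.sub f hfS) hxf
    refine ⟨k, ?_, rfl⟩
    by_contra hcon
    exact ((hang.2.2.2 k (by omega) hk).1 hfS) h0

/-- some corner has angle at most two -/
theorem Tri.exists_small {m : ℕ} {x : ℕ → V} {S : Finset (Finset V)} (L : Lp G F m x S) :
    ∃ s < m, av S (x s) ≤ 2 := by
  have hm := L.hm
  have hC : ∀ e ∈ cyc m x, e ∈ G.edgeSet := by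
    intro e he
    obtain ⟨t, ht, rfl⟩ := mem_cyc.1 he
    exact L.adj t ht
  have hne : (cyc m x).Nonempty := by
    rw [← Finset.card_pos, card_cyc L.hm L.hx L.inj]
    omega
  have hgb := hT.gauss_bonnet hC (cyc_evMin L.hm L.hx L.inj) hne (mem_verts L.hx)
    (by rw [card_verts L.hm L.hx L.inj, card_cyc L.hm L.hx L.inj]) L.sub L.bd
  rw [card_verts L.hm L.hx L.inj, Finset.sum_image (by
    intro i hi j hj h
    rw [Finset.coe_range, Set.mem_Iio] at hi hj
    exact L.inj i j hi hj h)] at hgb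
  by_contra hcon
  push Not at hcon
  have : ∑ t ∈ Finset.range m, 3 ≤ ∑ t ∈ Finset.range m, av S (x t) :=
    Finset.sum_le_sum fun t ht => hcon t (Finset.mem_range.1 ht)
  rw [Finset.sum_const, Finset.card_range, smul_eq_mul] at this
  omega

end

end Pool.Agent.Work.MP_91103f_co
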