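import Mathlib
import Pool.Agent.Work.MP_91103f_co.Dev1

/-!
# Flat polygons: arithmetic of the induction steps
-/

namespace Pool.Agent.Work.MP_91103f_co

theorem Cl.triangle {al : ℕ → ℤ} (h : ∀ t < 3, al t = 2) : Cl 3 al := by
  refine ⟨?_, ?_⟩
  · simp [Finset.sum_range_succ, h 0, h 1, h 2]
  · intro k
    have := hgt_three k
    simp only [Finset.sum_range_succ, Finset.sum_range_zero, zero_add, add_zero, h 1 (by norm_num),
      h 2 (by norm_num)]
    rw [show k + (2 + 2) = k + 4 by ring]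
    linarith

theorem Cl.stepA {m : ℕ} (hm : 4 ≤ m) {al al' : ℕ → ℤ} (h0 : al 0 = 2) (h1 : al' 0 = al 1 + 1)
    (h2 : al' (m - 2) = al (m - 1) + 1) (h3 : ∀ t, 0 < t → t < m - 2 → al' t = al (t + 1))
    (h : Cl (m - 1) al') : Cl m al := by
  obtain ⟨n, rfl⟩ : ∃ n, m = n + 4 := ⟨m - 4, by omega⟩
  simp only [show n + 4 - 1 = n + 3 by omega, show n + 4 - 2 = n + 2 by omega] at *
  obtain ⟨hs, hd⟩ := h
  have e1 : ∀ q ≤ n + 1, ∑ t ∈ Finset.range q, al' (t + 1) =
      ∑ t ∈ Finset.range q, al (t + 2) := by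
    intro q hq
    refine Finset.sum_congr rfl fun t ht => ?_
    rw [Finset.mem_range] at ht
    exact h3 (t + 1) (by omega) (by omega)
  have e2 : ∑ t ∈ Finset.range (n + 2), al' (t + 1) =
      ∑ t ∈ Finset.range (n + 2), al (t + 2) + 1 := by
    rw [Finset.sum_range_succ, Finset.sum_range_succ (fun t => al (t + 2)), e1 _ le_rfl, h2]
    ring
  have e3 : ∀ q, ∑ t ∈ Finset.range (q + 1), al (t + 1) =
      al 1 + ∑ t ∈ Finset.range q, al (t + 2) := by
    intro q
    rw [Finset.sum_range_succ']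
    ring
  have e4 : ∑ t ∈ Finset.range (n + 3), al (t + 1) = 4 := by
    rw [Finset.sum_range_succ', h1, e2] at hs
    rw [e3 (n + 2)]
    linarith
  have hsum : ∑ t ∈ Finset.range (n + 4), al t = 6 := by
    rw [Finset.sum_range_succ', e4, h0]
    norm_num
  refine ⟨hsum, ?_⟩
  intro k
  have hd' := hd (k + al 1)
  rw [Finset.sum_range_succ, e2] at hd'
  rw [Finset.sum_range_succ, Finset.sum_range_succ', e4]
  simp only [Finset.sum_range_zero, add_zero]
  have e5 : ∑ q ∈ Finset.range (n + 2), hgt (k + al 1 + ∑ t ∈ Finset.range q, al' (t + 1)) =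
      ∑ q ∈ Finset.range (n + 2), hgt (k + ∑ t ∈ Finset.range (q + 1), al (t + 1)) := by
    refine Finset.sum_congr rfl fun q hq => ?_
    rw [Finset.mem_range] at hq
    rw [e1 q (by omega), e3 q, add_assoc]
  rw [e5] at hd'
  have e6 : k + al 1 + (∑ t ∈ Finset.range (n + 2), al (t + 2) + 1) = k + 5 := by
    have := e3 (n + 2)
    rw [e4] at this
    linarith
  rw [e6] at hd'
  have e7 := hgt_tri (k + 4)
  rw [show k + 4 + 2 = k + 6 by ring, hgt_add_six, show k + 4 + 1 = k + 5 by ring] at e7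
  linarith

theorem Cl.stepB {m : ℕ} (hm : 3 ≤ m) {al al' : ℕ → ℤ} (h0 : al 0 = 1) (h0' : al' 0 = -1)
    (h1 : al' 1 = al 1 + 1)
    (h2 : al' (m - 1) = al (m - 1) + 1) (h3 : ∀ t, 1 < t → t < m - 1 → al' t = al t)
    (h : Cl m al') : Cl m al := by
  obtain ⟨n, rfl⟩ : ∃ n, m = n + 3 := ⟨m - 3, by omega⟩
  simp only [show n + 3 - 1 = n + 2 by omega] at *
  obtain ⟨hs, hd⟩ := h
  have e1 : ∀ q ≤ n, ∑ t ∈ Finset.range (q + 1), al' (t + 1) =
      ∑ t ∈ Finset.range (q + 1), al (t + 1) + 1 := by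
    intro q hq
    rw [Finset.sum_range_succ', Finset.sum_range_succ', zero_add, h1]
    have : ∑ t ∈ Finset.range q, al' (t + 1 + 1) = ∑ t ∈ Finset.range q, al (t + 1 + 1) := by
      refine Finset.sum_congr rfl fun t ht => ?_
      rw [Finset.mem_range] at ht
      exact h3 _ (by omega) (by omega)
    rw [this]
    ring
  have e2 : ∑ t ∈ Finset.range (n + 2), al' (t + 1) =
      ∑ t ∈ Finset.range (n + 2), al (t + 1) + 2 := by
    rw [Finset.sum_range_succ, Finset.sum_range_succ (fun t => al (t + 1)), e1 n le_rfl, h2]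
    ring
  have e4 : ∑ t ∈ Finset.range (n + 2), al (t + 1) = 5 := by
    rw [Finset.sum_range_succ', h0', e2] at hs
    linarith
  have hsum : ∑ t ∈ Finset.range (n + 3), al t = 6 := by
    rw [Finset.sum_range_succ', e4, h0]
    norm_num
  refine ⟨hsum, ?_⟩
  intro k
  have hd' := hd (k - 1)
  rw [Finset.sum_range_succ, Finset.sum_range_succ', e2, e4] at hd'
  rw [Finset.sum_range_succ, Finset.sum_range_succ', e4]
  simp only [Finset.sum_range_zero, add_zero] at hd' ⊢
  have e5 : ∑ q ∈ Finset.range (n + 1), hgt (k - 1 + ∑ t ∈ Finset.range (q + 1), al' (t + 1)) =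
      ∑ q ∈ Finset.range (n + 1), hgt (k + ∑ t ∈ Finset.range (q + 1), al (t + 1)) := by
    refine Finset.sum_congr rfl fun q hq => ?_
    rw [Finset.mem_range] at hq
    rw [e1 q (by omega)]
    congr 1
    ring
  rw [e5, show k - 1 + (5 + 2) = k + 6 by ring, hgt_add_six] at hd'
  rw [hgt_add_five]
  linarith

theorem Cl.stepC {m j : ℕ} (hj : 2 ≤ j) (hjm : j + 2 ≤ m) {al al₁ al₂ : ℕ → ℤ} {c₁ c₂ : ℤ}
    (h0 : al 0 = 1) (h10 : al₁ 0 = 2) (h1j : al₁ j = c₁)
    (h1 : ∀ t, 0 < t → t < j → al₁ t = al t) (h20 : al₂ 0 = 2) (h21 : al₂ 1 = c₂)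
    (h2 : ∀ t, 2 ≤ t → t ≤ m - j → al₂ t = al (j + t - 1)) (hc : al j = c₁ + c₂ - 3)
    (hC1 : Cl (j + 1) al₁) (hC2 : Cl (m - j + 1) al₂) : Cl m al := by
  obtain ⟨i, rfl⟩ : ∃ i, j = i + 2 := ⟨j - 2, by omega⟩
  obtain ⟨n, rfl⟩ : ∃ n, m = i + 2 + (n + 2) := ⟨m - (i + 4), by omega⟩
  simp only [show i + 2 + (n + 2) - (i + 2) = n + 2 by omega] at *
  obtain ⟨hs1, hd1⟩ := hC1
  obtain ⟨hs2, hd2⟩ := hC2
  -- sums of the first part
  have e1 : ∀ q ≤ i + 1, ∑ t ∈ Finset.range q, al₁ (t + 1) =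
      ∑ t ∈ Finset.range q, al (t + 1) := by
    intro q hq
    refine Finset.sum_congr rfl fun t ht => ?_
    rw [Finset.mem_range] at ht
    exact h1 _ (by omega) (by omega)
  have e2 : ∑ t ∈ Finset.range (i + 1), al (t + 1) + c₁ = 4 := by
    rw [Finset.sum_range_succ', Finset.sum_range_succ, h10, e1 _ le_rfl] at hs1
    rw [show i + 1 + 1 = i + 2 by ring, h1j] at hs1
    linarith
  have e3 : ∀ q ≤ n + 1, ∑ t ∈ Finset.range q, al₂ (t + 2) =
      ∑ t ∈ Finset.range q, al (i + 2 + t + 1) := by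
    intro q hq
    refine Finset.sum_congr rfl fun t ht => ?_
    rw [Finset.mem_range] at ht
    rw [h2 _ (by omega) (by omega)]
    congr 1
  have e4 : c₂ + ∑ t ∈ Finset.range (n + 1), al (i + 2 + t + 1) = 4 := by
    rw [Finset.sum_range_succ', Finset.sum_range_succ', h20] at hs2
    rw [zero_add, h21] at hs2
    have := e3 (n + 1) le_rfl
    rw [this] at hs2
    linarith
  -- partial sums
  have e5 : ∑ t ∈ Finset.range (i + 2), al (t + 1) =
      ∑ t ∈ Finset.range (i + 1), al (t + 1) + al (i + 2) := Finset.sum_range_succ _ _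
  have e6 : ∀ q, ∑ t ∈ Finset.range (i + 2 + q), al (t + 1) =
      ∑ t ∈ Finset.range (i + 2), al (t + 1) + ∑ t ∈ Finset.range q, al (i + 2 + t + 1) := by
    intro q
    rw [Finset.sum_range_add]
  have hsum : ∑ t ∈ Finset.range (i + 2 + (n + 2)), al t = 6 := by
    rw [show i + 2 + (n + 2) = (i + 2 + (n + 1)) + 1 by ring, Finset.sum_range_succ', e6, e5, h0,
      hc]
    linarith
  refine ⟨hsum, ?_⟩
  intro k
  rw [Finset.sum_range_add]
  have f1 : ∑ q ∈ Finset.range (i + 2), hgt (k + ∑ t ∈ Finset.range q, al (t + 1)) =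
      hgt (k + 1) := by
    have := hd1 k
    rw [Finset.sum_range_succ, Finset.sum_range_succ (fun t => al₁ (t + 1)), e1 _ le_rfl,
      show i + 1 + 1 = i + 2 by ring, h1j, e2, hgt_add_four] at this
    rw [← add_neg_eq_zero, ← this]
    congr 1
    refine Finset.sum_congr rfl fun q hq => ?_
    rw [Finset.mem_range] at hq
    rw [e1 q (by omega)]
  have f2 : ∑ q ∈ Finset.range (n + 2), hgt (k + ∑ t ∈ Finset.range (i + 2 + q), al (t + 1)) =
      - hgt (k + 1) := by
    have := hd2 (k + 1)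
    rw [Finset.sum_range_succ'] at this
    simp only [Finset.sum_range_zero, add_zero] at this
    rw [eq_neg_iff_add_eq_zero, ← this]
    congr 1
    refine Finset.sum_congr rfl fun q hq => ?_
    rw [Finset.mem_range] at hq
    rw [Finset.sum_range_succ', zero_add, h21]
    have e7 := e3 q (by omega)
    have e8 := e6 q
    rw [e7, e8, e5, hc]
    congr 1
    linarith
  rw [f1, f2]
  ring

end Pool.Agent.Work.MP_91103f_co
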