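import Mathlib
import Pool.Agent.Work.MP_91103f_co.Dev1
import Pool.Agent.Work.MP_91103f_co.Dev2

/-!
# Flat polygons: removing corners
-/

namespace Pool.Agent.Work.MP_91103f_co

open Classical

section

variable {V : Type} {G : SimpleGraph V} {F : Set (Finset V)}

theorem T3.pair_ne {a b c : V} (h : T3 F a b c) : a ≠ b ∧ b ≠ c ∧ a ≠ c := h.1

theorem mem_face_edges {a b c : V} {e : Sym2 V} (he : e ∈ G.edgeSet) :
    e ∈ ({a, b, c} : Finset V).sym2 ↔ (e = s(a, b) ∨ e = s(a, c) ∨ e = s(b, c)) := by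
  induction e using Sym2.ind with
  | _ p q =>
    rw [SimpleGraph.mem_edgeSet] at he
    have hne := he.ne
    rw [mem_sym2_mk]
    simp only [Finset.mem_insert, Finset.mem_singleton, Sym2.eq_iff]
    constructor
    · rintro ⟨rfl | rfl | rfl, rfl | rfl | rfl⟩ <;> simp_all
    · rintro ((⟨rfl, rfl⟩ | ⟨rfl, rfl⟩) | (⟨rfl, rfl⟩ | ⟨rfl, rfl⟩) | (⟨rfl, rfl⟩ | ⟨rfl, rfl⟩)) <;>
        simp

theorem odd_erase {S : Finset (Finset V)} {f : Finset V} (hf : f ∈ S) (e : Sym2 V) :
    Odd (ct (S.erase f) e) ↔ (Odd (ct S e) ↔ ¬ e ∈ f.sym2) := by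
  rw [ct_erase hf e]
  split_ifs with h
  · rw [Nat.odd_add_one]
    simp only [h, not_true_eq_false, iff_false, not_not]
  · simp [h]

variable (hT : Tri V G F)
include hT

/-- the last triangle -/
theorem Tri.stepA1 {x : ℕ → V} {S : Finset (Finset V)} (L : Lp G F 3 x S)
    (ht : T3 F (x 0) (x 2) (x 1)) (hf : ({x 0, x 2, x 1} : Finset V) ∈ S) :
    Cl 3 (tal x S) := by
  set f : Finset V := {x 0, x 2, x 1} with hfdef
  have hS' : S.erase f = ∅ := by
    apply hT.closed_empty (fun g hg => L.sub g (Finset.mem_of_mem_erase hg))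
    intro e he
    rw [← Nat.not_odd_iff_even, odd_erase hf, ← L.bd e he]
    have h1 : e ∈ cyc 3 x ↔ e ∈ f.sym2 := by
      rw [hfdef, mem_face_edges he, mem_cyc]
      constructor
      · rintro ⟨t, ht', rfl⟩
        have : t = 0 ∨ t = 1 ∨ t = 2 := by omega
        rcases this with rfl | rfl | rfl
        · right; left; rfl
        · right; right; exact Sym2.eq_swap
        · left
          rw [show x (2 + 1) = x 0 from L.hx]
          exact Sym2.eq_swap
      · rintro (rfl | rfl | rfl)
        · exact ⟨2, by norm_num, by rw [show x (2 + 1) = x 0 from L.hx]; exact Sym2.eq_swap⟩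
        · exact ⟨0, by norm_num, rfl⟩
        · exact ⟨1, by norm_num, Sym2.eq_swap⟩
    rw [h1]
    tauto
  apply Cl.triangle
  intro t ht'
  unfold tal
  rw [av_erase hf, hS']
  have : x t ∈ f := by
    have : t = 0 ∨ t = 1 ∨ t = 2 := by omega
    rcases this with rfl | rfl | rfl <;> simp [hfdef]
  rw [if_pos this]
  simp [av]

theorem Tri.stepA2 {m : ℕ} {x : ℕ → V} {S : Finset (Finset V)} (L : Lp G F m x S) (hm4 : 4 ≤ m)
    (ht : T3 F (x 0) (x (m - 1)) (x 1)) (hf : ({x 0, x (m - 1), x 1} : Finset V) ∈ S)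
    (hav : av S (x 0) = 1) :
    ∃ x', Lp G F (m - 1) x' (S.erase {x 0, x (m - 1), x 1}) ∧
      (Cl (m - 1) (tal x' (S.erase {x 0, x (m - 1), x 1})) → Cl m (tal x S)) := by
  set f : Finset V := {x 0, x (m - 1), x 1} with hfdef
  set S' := S.erase f with hS'
  have hm := L.hm
  let x' : ℕ → V := fun t => if t < m - 1 then x (t + 1) else x 1
  have hx't : ∀ t < m - 1, x' t = x (t + 1) := fun t ht => if_pos ht
  have hx'm : x' (m - 1) = x 1 := if_neg (lt_irrefl _)
  have hx'0 : x' 0 = x 1 := hx't 0 (by omega)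
  have hne0 : ∀ t, 0 < t → t < m → x 0 ≠ x t := by
    intro t h1 h2 h3
    have := L.inj 0 t (by omega) h2 h3
    omega
  have hav' : av S' (x 0) = 0 := by
    have := av_erase hf (x 0)
    rw [if_pos (by simp [hfdef]), hav, ← hS'] at this
    omega
  have hcyc' : ∀ e, e ∈ cyc (m - 1) x' ↔ e = s(x (m - 1), x 1) ∨ e ∈ mid m x := by
    intro e
    rw [mem_cyc, mem_mid]
    constructor
    · rintro ⟨t, ht', rfl⟩
      rcases Nat.lt_or_ge (t + 1) (m - 1) with h1 | h1
      · right
        refine ⟨t + 1, by omega, h1, ?_⟩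
        rw [hx't t ht', hx't (t + 1) h1]
      · left
        have : t + 1 = m - 1 := by omega
        rw [hx't t ht', this, hx'm]
    · rintro (rfl | ⟨t, h1, h2, rfl⟩)
      · refine ⟨m - 2, by omega, ?_⟩
        rw [hx't _ (by omega), show m - 2 + 1 = m - 1 by omega, hx'm]
      · refine ⟨t - 1, by omega, ?_⟩
        rw [hx't _ (by omega), show t - 1 + 1 = t by omega, hx't t h2]
  refine ⟨x', ⟨by omega, by rw [hx'm, hx'0], ?_, ?_, ?_, ?_, ?_⟩, ?_⟩
  · intro i j hi hj h
    rw [hx't i hi, hx't j hj] at h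
    have := L.inj _ _ (by omega) (by omega) h
    omega
  · intro t ht'
    rcases Nat.lt_or_ge (t + 1) (m - 1) with h1 | h1
    · rw [hx't t ht', hx't (t + 1) h1]
      exact L.adj (t + 1) (by omega)
    · have : t + 1 = m - 1 := by omega
      rw [hx't t ht', this, hx'm]
      exact hT.adj ht.swap.swap'
  · intro g hg
    exact L.sub g (Finset.mem_of_mem_erase hg)
  · intro e he
    rw [hcyc', hS', odd_erase hf, ← L.bd e he, mem_cyc_mid hm L.hx, hfdef, mem_face_edges he]
    -- exclusivity
    have k1 : e ∈ mid m x → e ≠ s(x 0, x 1) ∧ e ≠ s(x 0, x (m - 1)) ∧ e ≠ s(x (m - 1), x 1) := by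
      rw [mem_mid]
      rintro ⟨t, h1, h2, rfl⟩
      refine ⟨?_, ?_, ?_⟩
      · intro h
        rw [Sym2.eq_iff] at h
        rcases h with ⟨h, -⟩ | ⟨-, h⟩
        · exact hne0 t (by omega) (by omega) h.symm
        · exact hne0 (t + 1) (by omega) (by omega) h.symm
      · intro h
        rw [Sym2.eq_iff] at h
        rcases h with ⟨h, -⟩ | ⟨-, h⟩
        · exact hne0 t (by omega) (by omega) h.symm
        · exact hne0 (t + 1) (by omega) (by omega) h.symm
      · intro h
        rw [Sym2.eq_iff] at h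
        rcases h with ⟨h3, h4⟩ | ⟨h3, h4⟩
        · have := L.inj _ _ (by omega) (by omega) h3
          omega
        · have e1 := L.inj _ _ (by omega) (by omega) h3
          have e2 := L.inj _ _ (by omega) (by omega) h4
          omega
    have k2 : s(x (m - 1), x 0) = s(x 0, x (m - 1)) := Sym2.eq_swap
    have k3 : s(x (m - 1), x 1) ≠ s(x 0, x 1) := by
      intro h
      rw [Sym2.eq_iff] at h
      rcases h with ⟨h, -⟩ | ⟨-, h⟩
      · exact hne0 (m - 1) (by omega) (by omega) h.symm
      · exact hne0 1 (by omega) (by omega) h.symm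
    have k4 : s(x (m - 1), x 1) ≠ s(x 0, x (m - 1)) := by
      intro h
      rw [Sym2.eq_iff] at h
      rcases h with ⟨h, -⟩ | ⟨-, h⟩
      · exact hne0 (m - 1) (by omega) (by omega) h.symm
      · exact hne0 1 (by omega) (by omega) h.symm
    rw [k2]
    by_cases h1 : e = s(x (m - 1), x 1)
    · subst h1
      have : ¬ s(x (m - 1), x 1) ∈ mid m x := fun h => (k1 h).2.2 rfl
      simp [k3, k4, this]
    · by_cases h2 : e = s(x 0, x 1)
      · subst h2
        have : ¬ s(x 0, x 1) ∈ mid m x := fun h => (k1 h).1 rfl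
        simp [h1, this]
      · by_cases h3 : e = s(x 0, x (m - 1))
        · subst h3
          have : ¬ s(x 0, x (m - 1)) ∈ mid m x := fun h => (k1 h).2.1 rfl
          simp [h1, this]
        · simp [h1, h2, h3]
  · intro v hv h
    have hvS : v ∈ VS S := by
      rw [mem_VS] at hv ⊢
      obtain ⟨g, hg, hvg⟩ := hv
      exact ⟨g, Finset.mem_of_mem_erase hg, hvg⟩
    apply L.flat v hvS
    intro t ht' hvt
    rcases t with _ | t
    · rw [hvt, mem_VS_av] at hv
      exact hv hav'
    · apply h t (by omega)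
      rw [hx't t (by omega)]
      exact hvt
  · intro hc
    refine Cl.stepA hm4 (al := tal x S) (al' := tal x' S') ?_ ?_ ?_ ?_ hc
    · unfold tal
      rw [hav]
      norm_num
    · unfold tal
      rw [hx'0]
      have := av_erase hf (x 1)
      rw [if_pos (by simp [hfdef])] at this
      rw [this]
      push_cast
      ring
    · unfold tal
      rw [hx't (m - 2) (by omega), show m - 2 + 1 = m - 1 by omega]
      have := av_erase hf (x (m - 1))
      rw [if_pos (by simp [hfdef])] at this
      rw [this]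
      push_cast
      ring
    · intro t h1 h2
      unfold tal
      rw [hx't t (by omega)]
      have := av_erase hf (x (t + 1))
      rw [if_neg] at this
      · rw [this, add_zero]
      · simp only [hfdef, Finset.mem_insert, Finset.mem_singleton, not_or]
        refine ⟨fun h => hne0 (t + 1) (by omega) (by omega) h.symm, fun h => ?_, fun h => ?_⟩
        · have := L.inj _ _ (by omega) (by omega) h
          omega
        · have := L.inj _ _ (by omega) (by omega) h
          omega

theorem Tri.stepB {m : ℕ} {x : ℕ → V} {S : Finset (Finset V)} (L : Lp G F m x S) {y : V}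
    (hy : ∀ t < m, y ≠ x t)
    (ht0 : T3 F (x 0) (x (m - 1)) y) (ht1 : T3 F (x 0) y (x 1))
    (hf0 : ({x 0, x (m - 1), y} : Finset V) ∈ S) (hf1 : ({x 0, y, x 1} : Finset V) ∈ S)
    (hav : av S (x 0) = 2) :
    ∃ x' S', S'.card < S.card ∧ Lp G F m x' S' ∧ (Cl m (tal x' S') → Cl m (tal x S)) := by
  set f₀ : Finset V := {x 0, x (m - 1), y} with hf0def
  set f₁ : Finset V := {x 0, y, x 1} with hf1def
  have hm := L.hm
  have hne0 : ∀ t, 0 < t → t < m → x 0 ≠ x t := by
    intro t h1 h2 h3
    have := L.inj 0 t (by omega) h2 h3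
    omega
  have h1m : x 1 ≠ x (m - 1) := by
    intro h
    have := L.inj _ _ (by omega) (by omega) h
    omega
  have hf01 : f₁ ≠ f₀ := by
    intro h
    have : x 1 ∈ f₀ := by rw [← h]; simp [hf1def]
    simp only [hf0def, Finset.mem_insert, Finset.mem_singleton] at this
    rcases this with h | h | h
    · exact hne0 1 (by omega) (by omega) h.symm
    · exact h1m h
    · exact hy 1 (by omega) h.symm
  have hf1' : f₁ ∈ S.erase f₀ := Finset.mem_erase.2 ⟨hf01, hf1⟩
  set S' := (S.erase f₀).erase f₁ with hS'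
  have hS'S : ∀ g ∈ S', g ∈ S := fun g hg =>
    Finset.mem_of_mem_erase (Finset.mem_of_mem_erase hg)
  have hav2 : ∀ v, av S v = av S' v + (if v ∈ f₁ then 1 else 0) + (if v ∈ f₀ then 1 else 0) := by
    intro v
    rw [av_erase hf0 v, av_erase hf1' v]
  have hav' : av S' (x 0) = 0 := by
    have := hav2 (x 0)
    rw [if_pos (by simp [hf1def]), if_pos (by simp [hf0def]), hav] at this
    omega
  have hyS : y ∈ VS S := mem_VS.2 ⟨f₀, hf0, by simp [hf0def]⟩
  have hyav : av S y = 6 := by
    rw [hT.av_interior L.sub hyS, L.flat y hyS hy]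
    intro e he hye
    rw [← Nat.not_odd_iff_even, ← L.bd e he]
    obtain ⟨c, rfl⟩ := Sym2.mem_iff_exists.1 hye
    exact notMem_cyc L.hx hy
  have hyav' : av S' y = 4 := by
    have := hav2 y
    rw [if_pos (by simp [hf1def]), if_pos (by simp [hf0def]), hyav] at this
    omega
  let x' : ℕ → V := fun t => if t = 0 ∨ t = m then y else x t
  have hx't : ∀ t, 0 < t → t < m → x' t = x t := fun t h1 h2 => if_neg (by omega)
  have hx'0 : x' 0 = y := if_pos (Or.inl rfl)
  have hx'm : x' m = y := if_pos (Or.inr rfl)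
  have hmid : mid m x' = mid m x := by
    ext e
    rw [mem_mid, mem_mid]
    constructor
    · rintro ⟨t, h1, h2, rfl⟩
      exact ⟨t, h1, h2, by rw [hx't t (by omega) (by omega), hx't (t + 1) (by omega) (by omega)]⟩
    · rintro ⟨t, h1, h2, rfl⟩
      exact ⟨t, h1, h2, by rw [hx't t (by omega) (by omega), hx't (t + 1) (by omega) (by omega)]⟩
  refine ⟨x', S', ?_, ⟨hm, by rw [hx'm, hx'0], ?_, ?_, fun g hg => L.sub g (hS'S g hg), ?_, ?_⟩, ?_⟩
  · exact (Finset.card_lt_card (Finset.erase_ssubset hf1')).trans_le (Finset.card_le_card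
      (Finset.erase_subset _ _))
  · intro i j hi hj h
    rcases Nat.eq_zero_or_pos i with rfl | hi0 <;> rcases Nat.eq_zero_or_pos j with rfl | hj0
    · rfl
    · rw [hx'0, hx't j hj0 hj] at h
      exact absurd h (hy j hj)
    · rw [hx'0, hx't i hi0 hi] at h
      exact absurd h.symm (hy i hi)
    · rw [hx't i hi0 hi, hx't j hj0 hj] at h
      exact L.inj _ _ hi hj h
  · intro t ht'
    rcases Nat.eq_zero_or_pos t with rfl | h0
    · rw [hx'0, hx't 1 (by omega) (by omega)]
      exact hT.adj ht1.swap.swap'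
    · rcases Nat.lt_or_ge (t + 1) m with h1 | h1
      · rw [hx't t h0 ht', hx't (t + 1) (by omega) h1]
        exact L.adj t ht'
      · have h2 : t + 1 = m := by omega
        have h3 : t = m - 1 := by omega
        rw [h2, hx'm, hx't t h0 ht', h3]
        exact hT.adj ht0.swap.swap'
  · intro e he
    have hxm : x' m = x' 0 := by rw [hx'm, hx'0]
    rw [mem_cyc_mid hm hxm, hmid, hx'0, hx't 1 (by omega) (by omega),
      hx't (m - 1) (by omega) (by omega), hS', odd_erase hf1', odd_erase hf0, ← L.bd e he,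
      mem_cyc_mid hm L.hx, hf0def, hf1def, mem_face_edges he, mem_face_edges he]
    have key : ∀ t, 1 ≤ t → t < m - 1 → ∀ c, s(x t, x (t + 1)) ≠ s(x 0, c) ∧
        s(x t, x (t + 1)) ≠ s(y, c) := by
      intro t h1 h2 c
      refine ⟨?_, ?_⟩
      · intro h
        rw [Sym2.eq_iff] at h
        rcases h with ⟨h, -⟩ | ⟨-, h⟩
        · exact hne0 t (by omega) (by omega) h.symm
        · exact hne0 (t + 1) (by omega) (by omega) h.symm
      · intro h
        rw [Sym2.eq_iff] at h
        rcases h with ⟨h, -⟩ | ⟨-, h⟩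
        · exact hy t (by omega) h.symm
        · exact hy (t + 1) (by omega) h.symm
    have k1 : e ∈ mid m x → ∀ c, e ≠ s(x 0, c) ∧ e ≠ s(y, c) := by
      rw [mem_mid]
      rintro ⟨t, h1, h2, rfl⟩ c
      exact key t h1 h2 c
    have w1 : s(x (m - 1), x 0) = s(x 0, x (m - 1)) := Sym2.eq_swap
    have w2 : s(x (m - 1), y) = s(y, x (m - 1)) := Sym2.eq_swap
    rw [w1, w2]
    -- the five special edges are distinct
    have d1 : s(x 0, x 1) ≠ s(x 0, x (m - 1)) := by
      intro h
      rw [Sym2.eq_iff] at h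
      rcases h with ⟨-, h⟩ | ⟨h, -⟩
      · exact h1m h
      · exact hne0 (m - 1) (by omega) (by omega) h
    have d2 : s(x 0, x 1) ≠ s(x 0, y) := by
      intro h
      rw [Sym2.eq_iff] at h
      rcases h with ⟨-, h⟩ | ⟨h, -⟩
      · exact hy 1 (by omega) h.symm
      · exact hy 0 (by omega) h.symm
    have d3 : s(x 0, x (m - 1)) ≠ s(x 0, y) := by
      intro h
      rw [Sym2.eq_iff] at h
      rcases h with ⟨-, h⟩ | ⟨h, -⟩
      · exact hy (m - 1) (by omega) h.symm
      · exact hy 0 (by omega) h.symm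
    have d4 : ∀ c, c ≠ y → c ≠ x 0 → ∀ c', s(y, c) ≠ s(x 0, c') := by
      intro c hc hc0 c' h
      rw [Sym2.eq_iff] at h
      rcases h with ⟨h, -⟩ | ⟨-, h⟩
      · exact hy 0 (by omega) h
      · exact hc0 h
    have d5 : s(y, x 1) ≠ s(y, x (m - 1)) := by
      intro h
      rw [Sym2.eq_iff] at h
      rcases h with ⟨-, h⟩ | ⟨h, -⟩
      · exact h1m h
      · exact hy (m - 1) (by omega) h
    have y1 : x 1 ≠ y := (hy 1 (by omega)).symm
    have ym : x (m - 1) ≠ y := (hy (m - 1) (by omega)).symm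
    have z1 : x 1 ≠ x 0 := (hne0 1 (by omega) (by omega)).symm
    have zm : x (m - 1) ≠ x 0 := (hne0 (m - 1) (by omega) (by omega)).symm
    by_cases g1 : e = s(x 0, x 1)
    · subst g1
      have n1 : ¬ s(x 0, x 1) ∈ mid m x := fun h => (k1 h _).1 rfl
      have n2 : ∀ c, c ≠ y → c ≠ x 0 → s(x 0, x 1) ≠ s(y, c) := fun c h h' => (d4 c h h' _).symm
      simp [n1, d1, d2, n2 _ y1 z1, n2 _ ym zm]
    by_cases g2 : e = s(x 0, x (m - 1))
    · subst g2
      have n1 : ¬ s(x 0, x (m - 1)) ∈ mid m x := fun h => (k1 h _).1 rfl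
      have n2 : ∀ c, c ≠ y → c ≠ x 0 → s(x 0, x (m - 1)) ≠ s(y, c) :=
        fun c h h' => (d4 c h h' _).symm
      simp [n1, d1.symm, d3, n2 _ y1 z1, n2 _ ym zm]
    by_cases g3 : e = s(x 0, y)
    · subst g3
      have n1 : ¬ s(x 0, y) ∈ mid m x := fun h => (k1 h _).1 rfl
      have n2 : ∀ c, c ≠ y → c ≠ x 0 → s(x 0, y) ≠ s(y, c) := fun c h h' => (d4 c h h' _).symm
      simp [n1, d2.symm, d3.symm, n2 _ y1 z1, n2 _ ym zm]
    by_cases g4 : e = s(y, x 1)
    · subst g4
      have n1 : ¬ s(y, x 1) ∈ mid m x := fun h => (k1 h _).2 rfl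
      simp [n1, d4 _ y1 z1, d5]
    by_cases g5 : e = s(y, x (m - 1))
    · subst g5
      have n1 : ¬ s(y, x (m - 1)) ∈ mid m x := fun h => (k1 h _).2 rfl
      simp [n1, d4 _ ym zm, d5.symm]
    simp [g1, g2, g3, g4, g5]
  · intro v hv h
    have hvS : v ∈ VS S := by
      rw [mem_VS] at hv ⊢
      obtain ⟨g, hg, hvg⟩ := hv
      exact ⟨g, hS'S g hg, hvg⟩
    apply L.flat v hvS
    intro t ht' hvt
    rcases Nat.eq_zero_or_pos t with rfl | h0
    · rw [hvt, mem_VS_av] at hv
      exact hv hav'
    · apply h t ht'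
      rw [hx't t h0 ht']
      exact hvt
  · intro hc
    refine Cl.stepB hm (al := tal x S) (al' := tal x' S') ?_ ?_ ?_ ?_ ?_ hc
    · unfold tal
      rw [hav]
      norm_num
    · unfold tal
      rw [hx'0, hyav']
      norm_num
    · unfold tal
      rw [hx't 1 (by omega) (by omega)]
      have := hav2 (x 1)
      rw [if_pos (by simp [hf1def]), if_neg] at this
      · rw [this]
        push_cast
        ring
      · simp only [hf0def, Finset.mem_insert, Finset.mem_singleton, not_or]
        exact ⟨(hne0 1 (by omega) (by omega)).symm, h1m, (hy 1 (by omega)).symm⟩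
    · unfold tal
      rw [hx't (m - 1) (by omega) (by omega)]
      have := hav2 (x (m - 1))
      rw [if_neg, if_pos (by simp [hf0def])] at this
      · rw [this]
        push_cast
        ring
      · simp only [hf1def, Finset.mem_insert, Finset.mem_singleton, not_or]
        exact ⟨(hne0 (m - 1) (by omega) (by omega)).symm, (hy (m - 1) (by omega)).symm, h1m.symm⟩
    · intro t h1 h2
      unfold tal
      rw [hx't t (by omega) (by omega)]
      have := hav2 (x t)
      rw [if_neg, if_neg] at this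
      · rw [this, add_zero, add_zero]
      · simp only [hf0def, Finset.mem_insert, Finset.mem_singleton, not_or]
        refine ⟨(hne0 t (by omega) (by omega)).symm, fun h => ?_, (hy t (by omega)).symm⟩
        have := L.inj _ _ (by omega) (by omega) h
        omega
      · simp only [hf1def, Finset.mem_insert, Finset.mem_singleton, not_or]
        refine ⟨(hne0 t (by omega) (by omega)).symm, (hy t (by omega)).symm, fun h => ?_⟩
        have := L.inj _ _ (by omega) (by omega) h
        omega

end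

end Pool.Agent.Work.MP_91103f_co
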