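import Mathlib
import Pool.Agent.Work.MP_91103f_co.Dev3

/-!
# Flat polygons: cutting along a chord, and the closing theorem
-/

namespace Pool.Agent.Work.MP_91103f_co

open Classical

section

variable {V : Type} {G : SimpleGraph V} {F : Set (Finset V)}

theorem ct_eq_zero {S : Finset (Finset V)} {e : Sym2 V} (h : ∀ f ∈ S, e ∉ f.sym2) :
    ct S e = 0 := by
  unfold ct
  rw [Finset.card_eq_zero, Finset.filter_eq_empty_iff]
  exact h

theorem ct_sdiff_add (P Q : Finset (Finset V)) (e : Sym2 V) :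
    ct (P \ Q) e + ct (P ∩ Q) e = ct P e := by
  rw [← ct_union (Finset.disjoint_sdiff_inter P Q), Finset.sdiff_union_inter]

theorem odd_symmDiff (P Q : Finset (Finset V)) (e : Sym2 V) :
    Odd (ct (symmDiff P Q) e) ↔ (Odd (ct P e) ↔ ¬ Odd (ct Q e)) := by
  have h1 : ct (symmDiff P Q) e = ct (P \ Q) e + ct (Q \ P) e := by
    rw [← ct_union disjoint_sdiff_sdiff]
    rfl
  rw [h1, ← ct_sdiff_add P Q e, ← ct_sdiff_add Q P e, Finset.inter_comm Q P]
  rw [Nat.odd_add, Nat.odd_add, Nat.odd_add]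
  simp only [← Nat.not_odd_iff_even]
  tauto

theorem av_union {P Q : Finset (Finset V)} (h : Disjoint P Q) (v : V) :
    av (P ∪ Q) v = av P v + av Q v := by
  unfold av
  rw [Finset.filter_union, Finset.card_union_of_disjoint (Finset.disjoint_filter_filter h)]

theorem av_eq_zero_iff {S : Finset (Finset V)} {v : V} : av S v = 0 ↔ ∀ f ∈ S, v ∉ f := by
  unfold av
  rw [Finset.card_eq_zero, Finset.filter_eq_empty_iff]

variable (hT : Tri V G F)
include hT

theorem Tri.even_cases {S : Finset (Finset V)} (hS : ∀ f ∈ S, f ∈ F) {e : Sym2 V}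
    (he : e ∈ G.edgeSet) (h : Even (ct S e)) :
    (∀ f ∈ F, e ∈ f.sym2 → f ∈ S) ∨ (∀ f ∈ S, e ∉ f.sym2) := by
  by_cases h0 : ∀ f ∈ F, e ∈ f.sym2 → f ∈ S
  · exact Or.inl h0
  · right
    push Not at h0
    obtain ⟨g, hg, hge, hgS⟩ := h0
    have h1 := hT.ct_le_one hS he hg hge hgS
    have h2 : ct S e = 0 := by
      rcases Nat.lt_or_ge (ct S e) 1 with h3 | h3
      · omega
      · have : ct S e = 1 := by omega
        rw [this] at h
        exact absurd h (by decide)
    unfold ct at h2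
    rw [Finset.card_eq_zero, Finset.filter_eq_empty_iff] at h2
    exact h2

theorem Tri.even_of_all {S : Finset (Finset V)} (hS : ∀ f ∈ S, f ∈ F) {e : Sym2 V}
    (he : e ∈ G.edgeSet) (h : ∀ f ∈ F, e ∈ f.sym2 → f ∈ S) : Even (ct S e) := by
  obtain ⟨f₁, f₂, hne, h1, h2, h3, h4, hall⟩ := hT.faces_edge he
  have : S.filter (fun f => e ∈ f.sym2) = {f₁, f₂} := by
    ext f
    rw [Finset.mem_filter, Finset.mem_insert, Finset.mem_singleton]
    constructor
    · rintro ⟨h5, h6⟩
      exact hall f (hS f h5) h6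
    · rintro (rfl | rfl)
      · exact ⟨h f h1 h3, h3⟩
      · exact ⟨h f h2 h4, h4⟩
  unfold ct
  rw [this, Finset.card_pair hne]
  exact even_two

/-- all faces at an inner vertex -/
theorem Tri.all_faces {S : Finset (Finset V)} (hS : ∀ f ∈ S, f ∈ F) {v : V} (hv : av S v ≠ 0)
    (hev : ∀ e ∈ G.edgeSet, v ∈ e → Even (ct S e)) : ∀ f ∈ F, v ∈ f → f ∈ S := by
  have h1 := hT.av_interior hS (mem_VS_av.2 hv) hev
  obtain ⟨a, b, h⟩ := hT.exists_flag v
  rw [hT.av_eq h hS] at h1
  have h2 : (Finset.range (G.neighborSet v).ncard).filter (fun k => ph F v a b k ∈ S) =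
      Finset.range (G.neighborSet v).ncard := by
    apply Finset.eq_of_subset_of_card_le (Finset.filter_subset _ _)
    rw [h1, Finset.card_range]
  intro f hf hvf
  obtain ⟨k, hk, rfl⟩ := hT.ph_surj h hf hvf
  have : k ∈ (Finset.range (G.neighborSet v).ncard).filter (fun k => ph F v a b k ∈ S) := by
    rw [h2]
    exact Finset.mem_range.2 hk
  exact (Finset.mem_filter.1 this).2

theorem Tri.exists_region {m : ℕ} {x : ℕ → V} (hm : 3 ≤ m) (hx : x m = x 0)
    (hinj : ∀ i j, i < m → j < m → x i = x j → i = j) (hadj : ∀ t < m, G.Adj (x t) (x (t + 1))) :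
    ∃ S : Finset (Finset V), (∀ f ∈ S, f ∈ F) ∧
      ∀ e ∈ G.edgeSet, (e ∈ cyc m x ↔ Odd (ct S e)) := by
  obtain ⟨S, hS, hb⟩ := hT.hom (cyc m x) (by
    intro e he
    obtain ⟨t, ht, rfl⟩ := mem_cyc.1 he
    exact hadj t ht) (by
    intro v
    have : {e : Sym2 V | e ∈ cyc m x ∧ v ∈ e}.ncard =
        ((cyc m x).filter (fun e => v ∈ e)).card := by
      rw [← Set.ncard_coe_finset]
      congr 1
      ext e
      simp
    rw [this]
    exact cyc_even hm hx hinj v)
  simp only [ct_eq_ncard] at hb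
  exact ⟨S, hS, hb⟩

/-- two regions sharing a boundary edge cannot be on the wrong sides -/
theorem Tri.side_false {P Q : Finset (Finset V)} (hP : ∀ f ∈ P, f ∈ F) (hQ : ∀ f ∈ Q, f ∈ F)
    {c₁ c₂ : Finset (Sym2 V)} (hb1 : ∀ e ∈ G.edgeSet, (e ∈ c₁ ↔ Odd (ct P e)))
    (hb2 : ∀ e ∈ G.edgeSet, (e ∈ c₂ ↔ Odd (ct Q e))) (hmin : EvMin c₂)
    (hc2 : ∀ e ∈ c₂, e ∈ G.edgeSet)
    {ch : Sym2 V} (hch : ch ∈ G.edgeSet) (hch1 : ch ∈ c₁) (hch2 : ch ∈ c₂)
    (hboth : ∀ g ∈ F, ch ∈ g.sym2 → g ∈ P ∨ g ∈ Q)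
    (hall : ∀ e ∈ c₁, e ≠ ch → ∀ f ∈ F, e ∈ f.sym2 → f ∈ Q) : False := by
  have hU : ∀ f ∈ P ∪ Q, f ∈ F := by
    intro f hf
    rcases Finset.mem_union.1 hf with h | h
    · exact hP f h
    · exact hQ f h
  have key : ∀ e ∈ G.edgeSet, Odd (ct (P ∪ Q) e) → e ∈ c₂ ∧ e ≠ ch := by
    intro e he hodd
    have hne : e ≠ ch := by
      rintro rfl
      have := hT.even_of_all hU he (fun f hf hef => Finset.mem_union.2 (hboth f hf hef))
      exact (Nat.not_odd_iff_even.2 this) hodd
    refine ⟨?_, hne⟩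
    by_contra hcon
    have h2 : Even (ct Q e) := by
      rw [← Nat.not_odd_iff_even]
      exact fun h => hcon ((hb2 e he).2 h)
    by_cases h1 : e ∈ c₁
    · have := hT.even_of_all hU he (fun f hf hef =>
        Finset.mem_union.2 (Or.inr (hall e h1 hne f hf hef)))
      exact (Nat.not_odd_iff_even.2 this) hodd
    · have h3 : Even (ct P e) := by
        rw [← Nat.not_odd_iff_even]
        exact fun h => h1 ((hb1 e he).2 h)
      have h4 : Even (ct (P ∪ Q) e) := by
        rcases hT.even_cases hP he h3 with h5 | h5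
        · exact hT.even_of_all hU he (fun f hf hef => Finset.mem_union.2 (Or.inl (h5 f hf hef)))
        · rcases hT.even_cases hQ he h2 with h6 | h6
          · exact hT.even_of_all hU he (fun f hf hef => Finset.mem_union.2 (Or.inr (h6 f hf hef)))
          · rw [ct_eq_zero]
            · simp
            · intro f hf
              rcases Finset.mem_union.1 hf with h | h
              · exact h5 f h
              · exact h6 f h
      exact (Nat.not_odd_iff_even.2 h4) hodd
  set D := c₂.filter (fun e => Odd (ct (P ∪ Q) e)) with hD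
  have hDmem : ∀ e, e ∈ D ↔ e ∈ G.edgeSet ∧ Odd (ct (P ∪ Q) e) := by
    intro e
    rw [hD, Finset.mem_filter]
    constructor
    · rintro ⟨h1, h2⟩
      exact ⟨hc2 e h1, h2⟩
    · rintro ⟨h1, h2⟩
      exact ⟨(key e h1 h2).1, h2⟩
  rcases hmin D (Finset.filter_subset _ _) (fun v => hT.boundary_even hU hDmem v) with h1 | h1
  · have h2 : P ∪ Q = ∅ := by
      apply hT.closed_empty hU
      intro e he
      rw [← Nat.not_odd_iff_even]
      intro hodd
      have : e ∈ D := (hDmem e).2 ⟨he, hodd⟩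
      rw [h1] at this
      simp at this
    rw [Finset.union_eq_empty] at h2
    have h3 := (hb1 ch hch).1 hch1
    rw [h2.1] at h3
    simp [ct] at h3
  · have h2 : ch ∈ D := by rw [h1]; exact hch2
    exact (key ch hch ((hDmem ch).1 h2).2).2 rfl

theorem Tri.stepC {m : ℕ} {x : ℕ → V} {S : Finset (Finset V)} (L : Lp G F m x S) {j : ℕ}
    (hj : 2 ≤ j) (hjm : j + 2 ≤ m)
    (ht0 : T3 F (x 0) (x (m - 1)) (x j))
    (hf0 : ({x 0, x (m - 1), x j} : Finset V) ∈ S) (hf1 : ({x 0, x j, x 1} : Finset V) ∈ S)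
    (hav : av S (x 0) = 2) :
    ∃ x₁ S₁ x₂ S₂, S₁.card < S.card ∧ S₂.card < S.card ∧ Lp G F (j + 1) x₁ S₁ ∧
      Lp G F (m - j + 1) x₂ S₂ ∧
      (Cl (j + 1) (tal x₁ S₁) → Cl (m - j + 1) (tal x₂ S₂) → Cl m (tal x S)) := by
  have hm := L.hm
  set f₀ : Finset V := {x 0, x (m - 1), x j} with hf0def
  set f₁ : Finset V := {x 0, x j, x 1} with hf1def
  have hadjc : G.Adj (x 0) (x j) := hT.adj' ht0
  have hxne : ∀ i k, i < m → k < m → i ≠ k → x i ≠ x k := fun i k hi hk h h' =>
    h (L.inj i k hi hk h')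
  have hf01 : f₀ ≠ f₁ := by
    intro h
    have : x 1 ∈ f₀ := by rw [h]; simp [hf1def]
    simp only [hf0def, Finset.mem_insert, Finset.mem_singleton] at this
    rcases this with h | h | h
    · exact hxne 1 0 (by omega) (by omega) (by omega) h
    · exact hxne 1 (m - 1) (by omega) (by omega) (by omega) h
    · exact hxne 1 j (by omega) (by omega) (by omega) h
  set ch : Sym2 V := s(x 0, x j) with hchdef
  have hch : ch ∈ G.edgeSet := hadjc
  have hchf0 : ch ∈ f₀.sym2 := mem_sym2_mk.2 ⟨by simp [hf0def], by simp [hf0def]⟩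
  have hchf1 : ch ∈ f₁.sym2 := mem_sym2_mk.2 ⟨by simp [hf1def], by simp [hf1def]⟩
  have hchfaces : ∀ g ∈ F, ch ∈ g.sym2 → g = f₀ ∨ g = f₁ := by
    intro g hg hgc
    obtain ⟨g₁, g₂, hne, -, -, -, -, hall⟩ := hT.faces_edge hch
    rcases hall g hg hgc with h1 | h1 <;> rcases hall f₀ (L.sub _ hf0) hchf0 with h2 | h2 <;>
      rcases hall f₁ (L.sub _ hf1) hchf1 with h3 | h3
    · exact Or.inl (by rw [h1, h2])
    · exact Or.inl (by rw [h1, h2])
    · exact Or.inr (by rw [h1, h3])
    · exact absurd (by rw [h2, h3]) hf01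
    · exact absurd (by rw [h2, h3]) hf01
    · exact Or.inr (by rw [h1, h3])
    · exact Or.inl (by rw [h1, h2])
    · exact Or.inl (by rw [h1, h2])
  have hchC : ch ∉ cyc m x := by
    rw [hchdef, mem_cyc_zero hm L.hx L.inj]
    rintro (h | h)
    · exact hxne j 1 (by omega) (by omega) (by omega) h
    · exact hxne j (m - 1) (by omega) (by omega) (by omega) h
  -- the two loops
  let x₁ : ℕ → V := fun t => if t ≤ j then x t else x 0
  let x₂ : ℕ → V := fun t => if t = 0 then x 0 else x (j + t - 1)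
  have h1t : ∀ t, t ≤ j → x₁ t = x t := fun t ht => if_pos ht
  have h1e : x₁ (j + 1) = x 0 := if_neg (by omega)
  have h20 : x₂ 0 = x 0 := if_pos rfl
  have h2t : ∀ t, 0 < t → x₂ t = x (j + t - 1) := fun t ht => if_neg (by omega)
  have h2e : x₂ (m - j + 1) = x 0 := by
    rw [h2t _ (by omega), show j + (m - j + 1) - 1 = m by omega, L.hx]
  have hx1 : x₁ (j + 1) = x₁ 0 := by rw [h1e, h1t 0 (by omega)]
  have hx2 : x₂ (m - j + 1) = x₂ 0 := by rw [h2e, h20]
  have hinj1 : ∀ i k, i < j + 1 → k < j + 1 → x₁ i = x₁ k → i = k := by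
    intro i k hi hk h
    rw [h1t i (by omega), h1t k (by omega)] at h
    exact L.inj i k (by omega) (by omega) h
  have hinj2 : ∀ i k, i < m - j + 1 → k < m - j + 1 → x₂ i = x₂ k → i = k := by
    intro i k hi hk h
    rcases Nat.eq_zero_or_pos i with rfl | hi0 <;> rcases Nat.eq_zero_or_pos k with rfl | hk0
    · rfl
    · rw [h20, h2t k hk0] at h
      have := L.inj _ _ (by omega) (by omega) h
      omega
    · rw [h20, h2t i hi0] at h
      have := L.inj _ _ (by omega) (by omega) h
      omega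
    · rw [h2t i hi0, h2t k hk0] at h
      have := L.inj _ _ (by omega) (by omega) h
      omega
  have hadj1 : ∀ t < j + 1, G.Adj (x₁ t) (x₁ (t + 1)) := by
    intro t ht
    rcases Nat.lt_or_ge t j with h | h
    · rw [h1t t (by omega), h1t (t + 1) (by omega)]
      exact L.adj t (by omega)
    · have : t = j := by omega
      subst this
      rw [h1e, h1t t le_rfl]
      exact hadjc.symm
  have hadj2 : ∀ t < m - j + 1, G.Adj (x₂ t) (x₂ (t + 1)) := by
    intro t ht
    rcases Nat.eq_zero_or_pos t with rfl | h0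
    · rw [h20, h2t 1 (by omega)]
      exact hadjc
    · rw [h2t t h0, h2t (t + 1) (by omega)]
      have := L.adj (j + t - 1) (by omega)
      rw [show j + t - 1 + 1 = j + (t + 1) - 1 by omega] at this
      exact this
  obtain ⟨S₁, hS1, hb1⟩ := hT.exists_region (by omega) hx1 hinj1 hadj1
  obtain ⟨S₂, hS2, hb2⟩ := hT.exists_region (by omega) hx2 hinj2 hadj2
  set C₁ := cyc (j + 1) x₁ with hC1
  set C₂ := cyc (m - j + 1) x₂ with hC2
  have hm1 : ∀ e, e ∈ C₁ ↔ (∃ t < j, e = s(x t, x (t + 1))) ∨ e = ch := by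
    intro e
    rw [hC1, mem_cyc]
    constructor
    · rintro ⟨t, ht, rfl⟩
      rcases Nat.lt_or_ge t j with h | h
      · left
        exact ⟨t, h, by rw [h1t t (by omega), h1t (t + 1) (by omega)]⟩
      · right
        have : t = j := by omega
        subst this
        rw [h1e, h1t t le_rfl]
        exact Sym2.eq_swap
    · rintro (⟨t, ht, rfl⟩ | rfl)
      · exact ⟨t, by omega, by rw [h1t t (by omega), h1t (t + 1) (by omega)]⟩
      · exact ⟨j, by omega, by rw [h1e, h1t j le_rfl]; exact Sym2.eq_swap⟩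
  have hm2 : ∀ e, e ∈ C₂ ↔ (∃ t, j ≤ t ∧ t < m ∧ e = s(x t, x (t + 1))) ∨ e = ch := by
    intro e
    rw [hC2, mem_cyc]
    constructor
    · rintro ⟨t, ht, rfl⟩
      rcases Nat.eq_zero_or_pos t with rfl | h0
      · right
        rw [h20, h2t 1 (by omega)]
        rfl
      · left
        refine ⟨j + t - 1, by omega, by omega, ?_⟩
        rw [h2t t h0, h2t (t + 1) (by omega), show j + (t + 1) - 1 = j + t - 1 + 1 by omega]
    · rintro (⟨t, ht1, ht2, rfl⟩ | rfl)
      · refine ⟨t - j + 1, by omega, ?_⟩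
        rw [h2t _ (by omega), h2t _ (by omega), show j + (t - j + 1) - 1 = t by omega,
          show j + (t - j + 1 + 1) - 1 = t + 1 by omega]
      · exact ⟨0, by omega, by rw [h20, h2t 1 (by omega)]; rfl⟩
  have hmC : ∀ e, e ∈ cyc m x ↔ (∃ t < j, e = s(x t, x (t + 1))) ∨
      (∃ t, j ≤ t ∧ t < m ∧ e = s(x t, x (t + 1))) := by
    intro e
    rw [mem_cyc]
    constructor
    · rintro ⟨t, ht, rfl⟩
      rcases Nat.lt_or_ge t j with h | h
      · exact Or.inl ⟨t, h, rfl⟩
      · exact Or.inr ⟨t, h, ht, rfl⟩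
    · rintro (⟨t, ht, rfl⟩ | ⟨t, ht1, ht2, rfl⟩)
      · exact ⟨t, by omega, rfl⟩
      · exact ⟨t, ht2, rfl⟩
  have hdisj : ∀ e, (∃ t < j, e = s(x t, x (t + 1))) →
      ¬ (∃ t, j ≤ t ∧ t < m ∧ e = s(x t, x (t + 1))) := by
    rintro e ⟨t, ht, rfl⟩ ⟨t', h1, h2, h3⟩
    have := cyc_inj hm L.hx L.inj (by omega) h2 h3
    omega
  have hchA : ¬ (∃ t < j, ch = s(x t, x (t + 1))) := fun h => hchC ((hmC ch).2 (Or.inl h))
  have hchB : ¬ (∃ t, j ≤ t ∧ t < m ∧ ch = s(x t, x (t + 1))) :=
    fun h => hchC ((hmC ch).2 (Or.inr h))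
  have hch1 : ch ∈ C₁ := (hm1 ch).2 (Or.inr rfl)
  have hch2 : ch ∈ C₂ := (hm2 ch).2 (Or.inr rfl)
  -- S is the sum of S₁ and S₂
  have hsum : symmDiff S₁ S₂ = S := by
    have h1 : symmDiff (symmDiff S₁ S₂) S = ∅ := by
      apply hT.closed_empty
      · intro f hf
        rw [Finset.mem_symmDiff, Finset.mem_symmDiff] at hf
        rcases hf with ⟨⟨h, -⟩ | ⟨h, -⟩, -⟩ | ⟨h, -⟩
        · exact hS1 f h
        · exact hS2 f h
        · exact L.sub f h
      · intro e he
        rw [← Nat.not_odd_iff_even, odd_symmDiff, odd_symmDiff, ← hb1 e he, ← hb2 e he,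
          ← L.bd e he, hm1, hm2, hmC]
        have h2 := hdisj e
        have h5 : e = ch → ¬ (∃ t < j, e = s(x t, x (t + 1))) := by
          intro h; rw [h]; exact hchA
        have h6 : e = ch → ¬ (∃ t, j ≤ t ∧ t < m ∧ e = s(x t, x (t + 1))) := by
          intro h; rw [h]; exact hchB
        generalize (∃ t < j, e = s(x t, x (t + 1))) = A at h2 h5 ⊢
        generalize (∃ t, j ≤ t ∧ t < m ∧ e = s(x t, x (t + 1))) = B at h2 h6 ⊢
        generalize (e = ch) = c at h5 h6 ⊢
        by_cases hA : A <;> by_cases hB : B <;> by_cases hc : c <;> simp [hA, hB, hc] at h2 h5 h6 ⊢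
    rw [← Finset.bot_eq_empty, symmDiff_eq_bot] at h1
    exact h1
  have hfmem : ∀ f, f ∈ S ↔ (f ∈ S₁ ∧ f ∉ S₂) ∨ (f ∈ S₂ ∧ f ∉ S₁) := by
    intro f
    rw [← hsum, Finset.mem_symmDiff]
  have hboth : ∀ g ∈ F, ch ∈ g.sym2 → g ∈ S₁ ∨ g ∈ S₂ := by
    intro g hg hgc
    have : g ∈ S := by
      rcases hchfaces g hg hgc with rfl | rfl
      · exact hf0
      · exact hf1
    rcases (hfmem g).1 this with h | h
    · exact Or.inl h.1
    · exact Or.inr h.1
  have hC1e : ∀ e ∈ C₁, e ∈ G.edgeSet := by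
    intro e he
    obtain ⟨t, ht, rfl⟩ := mem_cyc.1 he
    exact hadj1 t ht
  have hC2e : ∀ e ∈ C₂, e ∈ G.edgeSet := by
    intro e he
    obtain ⟨t, ht, rfl⟩ := mem_cyc.1 he
    exact hadj2 t ht
  -- vertices off the loops
  have hoff2 : ∀ i, 0 < i → i < j → ∀ t < m - j + 1, x i ≠ x₂ t := by
    intro i hi0 hij t ht h
    rcases Nat.eq_zero_or_pos t with rfl | h0
    · rw [h20] at h
      exact hxne i 0 (by omega) (by omega) (by omega) h
    · rw [h2t t h0] at h
      exact hxne i (j + t - 1) (by omega) (by omega) (by omega) h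
  have hoff1 : ∀ i, j < i → i < m → ∀ t < j + 1, x i ≠ x₁ t := by
    intro i hi0 hij t ht h
    rw [h1t t (by omega)] at h
    exact hxne i t (by omega) (by omega) (by omega) h
  have hev2 : ∀ i, 0 < i → i < j → ∀ e ∈ G.edgeSet, x i ∈ e → Even (ct S₂ e) := by
    intro i hi0 hij e he hie
    rw [← Nat.not_odd_iff_even, ← hb2 e he]
    obtain ⟨c, rfl⟩ := Sym2.mem_iff_exists.1 hie
    exact notMem_cyc hx2 (hoff2 i hi0 hij)
  have hev1 : ∀ i, j < i → i < m → ∀ e ∈ G.edgeSet, x i ∈ e → Even (ct S₁ e) := by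
    intro i hi0 hij e he hie
    rw [← Nat.not_odd_iff_even, ← hb1 e he]
    obtain ⟨c, rfl⟩ := Sym2.mem_iff_exists.1 hie
    exact notMem_cyc hx1 (hoff1 i hi0 hij)
  -- propagation along a path
  have hprop : ∀ (R : Finset (Finset V)), (∀ f ∈ R, f ∈ F) → ∀ lo hi : ℕ, hi ≤ m →
      (∀ i, lo < i → i < hi → ∀ e ∈ G.edgeSet, x i ∈ e → Even (ct R e)) →
      ∀ i, lo < i → i < hi → av R (x i) ≠ 0 → ∀ k, lo < k → k < hi → av R (x k) ≠ 0 := by
    intro R hR lo hi hhi hevR
    have up : ∀ i, lo < i → i + 1 < hi → (av R (x i) ≠ 0 ↔ av R (x (i + 1)) ≠ 0) := by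
      intro i h1 h2
      obtain ⟨g₁, g₂, -, hg1, -, hge, -, -⟩ := hT.faces_edge (show s(x i, x (i + 1)) ∈ G.edgeSet
        from L.adj i (by omega))
      rw [mem_sym2_mk] at hge
      constructor
      · intro h3
        have h4 := hT.all_faces hR h3 (hevR i h1 (by omega)) g₁ hg1 hge.1
        intro h5
        exact av_eq_zero_iff.1 h5 g₁ h4 hge.2
      · intro h3
        have h4 := hT.all_faces hR h3 (hevR (i + 1) (by omega) h2) g₁ hg1 hge.2
        intro h5
        exact av_eq_zero_iff.1 h5 g₁ h4 hge.1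
    have all : ∀ d, lo + 1 + d < hi → (av R (x (lo + 1 + d)) ≠ 0 ↔ av R (x (lo + 1)) ≠ 0) := by
      intro d
      induction d with
      | zero => intro _; exact Iff.rfl
      | succ d ih =>
        intro hd
        rw [← ih (by omega), show lo + 1 + (d + 1) = lo + 1 + d + 1 by ring]
        exact (up (lo + 1 + d) (by omega) (by omega)).symm
    intro i h1 h2 h3 k h4 h5
    have e1 := all (i - lo - 1) (by omega)
    have e2 := all (k - lo - 1) (by omega)
    rw [show lo + 1 + (i - lo - 1) = i by omega] at e1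
    rw [show lo + 1 + (k - lo - 1) = k by omega] at e2
    exact e2.2 (e1.1 h3)
  have hz2 : ∀ i, 0 < i → i < j → av S₂ (x i) = 0 := by
    intro i hi0 hij
    by_contra hcon
    have hallv := hprop S₂ hS2 0 j (by omega) hev2 i hi0 hij hcon
    refine hT.side_false hS1 hS2 hb1 hb2 (cyc_evMin (by omega) hx2 hinj2) hC2e hch hch1 hch2
      hboth ?_
    intro e he hne f hf hef
    rcases (hm1 e).1 he with ⟨t, ht, rfl⟩ | h
    · rw [mem_sym2_mk] at hef
      rcases Nat.eq_zero_or_pos t with rfl | h0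
      · exact hT.all_faces hS2 (hallv 1 (by omega) (by omega)) (hev2 1 (by omega) (by omega)) f hf
          hef.2
      · exact hT.all_faces hS2 (hallv t h0 ht) (hev2 t h0 ht) f hf hef.1
    · exact absurd h hne
  have hz1 : ∀ i, j < i → i < m → av S₁ (x i) = 0 := by
    intro i hi0 hij
    by_contra hcon
    have hallv := hprop S₁ hS1 j m le_rfl hev1 i hi0 hij hcon
    refine hT.side_false hS2 hS1 hb2 hb1 (cyc_evMin (by omega) hx1 hinj1) hC1e hch hch2 hch1
      (fun g hg hgc => (hboth g hg hgc).symm) ?_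
    intro e he hne f hf hef
    rcases (hm2 e).1 he with ⟨t, ht1, ht2, rfl⟩ | h
    · rw [mem_sym2_mk] at hef
      rcases Nat.lt_or_ge j t with h0 | h0
      · exact hT.all_faces hS1 (hallv t h0 ht2) (hev1 t h0 ht2) f hf hef.1
      · have : t = j := by omega
        subst this
        exact hT.all_faces hS1 (hallv (t + 1) (by omega) (by omega))
          (hev1 (t + 1) (by omega) (by omega)) f hf hef.2
    · exact absurd h hne
  -- disjointness
  have hdis : Disjoint S₁ S₂ := by
    rw [Finset.disjoint_iff_inter_eq_empty]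
    apply hT.closed_empty (fun f hf => hS1 f (Finset.mem_inter.1 hf).1)
    intro e he
    by_cases hA : (∃ t < j, e = s(x t, x (t + 1)))
    · rw [ct_eq_zero]
      · simp
      · intro f hf hef
        rw [Finset.mem_inter] at hf
        obtain ⟨t, ht, rfl⟩ := hA
        rw [mem_sym2_mk] at hef
        rcases Nat.eq_zero_or_pos t with rfl | h0
        · exact av_eq_zero_iff.1 (hz2 1 (by omega) (by omega)) f hf.2 hef.2
        · exact av_eq_zero_iff.1 (hz2 t h0 ht) f hf.2 hef.1
    by_cases hB : (∃ t, j ≤ t ∧ t < m ∧ e = s(x t, x (t + 1)))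
    · rw [ct_eq_zero]
      · simp
      · intro f hf hef
        rw [Finset.mem_inter] at hf
        obtain ⟨t, ht1, ht2, rfl⟩ := hB
        rw [mem_sym2_mk] at hef
        rcases Nat.lt_or_ge j t with h0 | h0
        · exact av_eq_zero_iff.1 (hz1 t h0 ht2) f hf.1 hef.1
        · exact av_eq_zero_iff.1 (hz1 (t + 1) (by omega) (by omega)) f hf.1 hef.2
    by_cases hc : e = ch
    · rw [ct_eq_zero]
      · simp
      · intro f hf hef
        rw [Finset.mem_inter] at hf
        rw [hc] at hef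
        have : f ∈ S := by
          rcases hchfaces f (hS1 f hf.1) hef with rfl | rfl
          · exact hf0
          · exact hf1
        rcases (hfmem f).1 this with h | h
        · exact h.2 hf.2
        · exact h.2 hf.1
    · have e1 : Even (ct S₁ e) := by
        rw [← Nat.not_odd_iff_even, ← hb1 e he, hm1]
        rintro (h | h)
        · exact hA h
        · exact hc h
      have e2 : Even (ct S₂ e) := by
        rw [← Nat.not_odd_iff_even, ← hb2 e he, hm2]
        rintro (h | h)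
        · exact hB h
        · exact hc h
      rcases hT.even_cases hS1 he e1 with h5 | h5
      · rcases hT.even_cases hS2 he e2 with h6 | h6
        · exact hT.even_of_all (fun f hf => hS1 f (Finset.mem_inter.1 hf).1) he
            (fun f hf hef => Finset.mem_inter.2 ⟨h5 f hf hef, h6 f hf hef⟩)
        · rw [ct_eq_zero]
          · simp
          · intro f hf
            exact h6 f (Finset.mem_inter.1 hf).2
      · rw [ct_eq_zero]
        · simp
        · intro f hf
          exact h5 f (Finset.mem_inter.1 hf).1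
  have hunion : S₁ ∪ S₂ = S := by
    rw [← hsum]
    exact hdis.symmDiff_eq_sup.symm
  have havs : ∀ v, av S v = av S₁ v + av S₂ v := by
    intro v
    rw [← hunion, av_union hdis]
  have hne1 : S₁.Nonempty := by
    obtain ⟨f, hf⟩ := Finset.card_pos.1 ((hb1 ch hch).1 hch1).pos
    exact ⟨f, (Finset.mem_filter.1 hf).1⟩
  have hne2 : S₂.Nonempty := by
    obtain ⟨f, hf⟩ := Finset.card_pos.1 ((hb2 ch hch).1 hch2).pos
    exact ⟨f, (Finset.mem_filter.1 hf).1⟩
  have hcard : S.card = S₁.card + S₂.card := by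
    rw [← hunion, Finset.card_union_of_disjoint hdis]
  have hp1 := Finset.card_pos.2 hne1
  have hp2 := Finset.card_pos.2 hne2
  -- angle at the base point
  have ha1 : 1 ≤ av S₁ (x 0) := by
    obtain ⟨f, hf⟩ := Finset.card_pos.1 ((hb1 ch hch).1 hch1).pos
    rw [Finset.mem_filter, hchdef, mem_sym2_mk] at hf
    exact Finset.card_pos.2 ⟨f, Finset.mem_filter.2 ⟨hf.1, hf.2.1⟩⟩
  have ha2 : 1 ≤ av S₂ (x 0) := by
    obtain ⟨f, hf⟩ := Finset.card_pos.1 ((hb2 ch hch).1 hch2).pos
    rw [Finset.mem_filter, hchdef, mem_sym2_mk] at hf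
    exact Finset.card_pos.2 ⟨f, Finset.mem_filter.2 ⟨hf.1, hf.2.1⟩⟩
  have ha := havs (x 0)
  rw [hav] at ha
  refine ⟨x₁, S₁, x₂, S₂, by omega, by omega,
    ⟨by omega, hx1, hinj1, hadj1, hS1, hb1, ?_⟩, ⟨by omega, hx2, hinj2, hadj2, hS2, hb2, ?_⟩, ?_⟩
  · intro v hv h
    have hvS : v ∈ VS S := by
      rw [mem_VS] at hv ⊢
      obtain ⟨g, hg, hvg⟩ := hv
      exact ⟨g, by rw [← hunion]; exact Finset.mem_union_left _ hg, hvg⟩
    apply L.flat v hvS
    intro t ht hvt
    rcases Nat.lt_or_ge j t with h0 | h0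
    · rw [hvt, mem_VS_av] at hv
      exact hv (hz1 t h0 ht)
    · apply h t (by omega)
      rw [h1t t h0]
      exact hvt
  · intro v hv h
    have hvS : v ∈ VS S := by
      rw [mem_VS] at hv ⊢
      obtain ⟨g, hg, hvg⟩ := hv
      exact ⟨g, by rw [← hunion]; exact Finset.mem_union_right _ hg, hvg⟩
    apply L.flat v hvS
    intro t ht hvt
    rcases Nat.eq_zero_or_pos t with rfl | h0
    · apply h 0 (by omega)
      rw [h20]
      exact hvt
    · rcases Nat.lt_or_ge t j with h1 | h1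
      · rw [hvt, mem_VS_av] at hv
        exact hv (hz2 t h0 h1)
      · apply h (t - j + 1) (by omega)
        rw [h2t _ (by omega), show j + (t - j + 1) - 1 = t by omega]
        exact hvt
  · intro hcl1 hcl2
    refine Cl.stepC hj hjm (al := tal x S) (al₁ := tal x₁ S₁) (al₂ := tal x₂ S₂)
      (c₁ := tal x₁ S₁ j) (c₂ := tal x₂ S₂ 1) ?_ ?_ rfl ?_ ?_ rfl ?_ ?_ hcl1 hcl2
    · unfold tal
      rw [hav]
      norm_num
    · unfold tal
      rw [h1t 0 (by omega)]
      have : av S₁ (x 0) = 1 := by omega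
      rw [this]
      norm_num
    · intro t h0 h1
      unfold tal
      rw [h1t t (by omega), havs, hz2 t h0 h1, add_zero]
    · unfold tal
      rw [h20]
      have : av S₂ (x 0) = 1 := by omega
      rw [this]
      norm_num
    · intro t h1 h2
      unfold tal
      rw [h2t t (by omega), havs, hz1 (j + t - 1) (by omega) (by omega), zero_add]
    · unfold tal
      rw [h1t j le_rfl, h2t 1 (by omega), show j + 1 - 1 = j by omega, havs]
      push_cast
      ring

/-- **Flat polygons close up.** -/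
theorem Tri.dev (n : ℕ) : ∀ {m : ℕ} {x : ℕ → V} {S : Finset (Finset V)}, S.card = n →
    Lp G F m x S → Cl m (tal x S) := by
  induction n using Nat.strong_induction_on with
  | _ n ih =>
    intro m x S hn L
    obtain ⟨s, hs, hsmall⟩ := hT.exists_small L
    obtain ⟨L', himp⟩ := L.rot_iter s
    apply himp
    have h0 := rot_iter (x := x) s hs
    set y := (rot m)^[s] x with hy
    rw [← h0] at hsmall
    clear himp
    clear_value y
    have hm := L'.hm
    obtain ⟨b, l, ht, hl1, hl2, hxl, hav, hin, honly⟩ := hT.corner L'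
    rw [hav] at hsmall
    have hl : l = 1 ∨ l = 2 := by omega
    rcases hl with rfl | rfl
    · have hb : y 1 = b := hxl
      subst hb
      have hf := hin 0 (by norm_num)
      unfold ph at hf
      rw [z_zero, zero_add, z_one] at hf
      rcases Nat.lt_or_ge m 4 with h4 | h4
      · have : m = 3 := by omega
        subst this
        exact hT.stepA1 L' ht hf
      · obtain ⟨x', Lx', himp⟩ := hT.stepA2 L' h4 ht hf hav
        apply himp
        have hcard := Finset.card_erase_of_mem hf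
        have hpos := Finset.card_pos.2 ⟨_, hf⟩
        exact ih _ (by omega) rfl Lx'
    · have hf0 := hin 0 (by norm_num)
      have hf1 := hin 1 (by norm_num)
      unfold ph at hf0 hf1
      rw [z_zero, zero_add, z_one] at hf0
      rw [z_one, show 1 + 1 = 2 by norm_num, ← hxl] at hf1
      have ht1 : T3 F (y 0) b (y 1) := by
        have := hT.z_face ht 1
        rw [z_one, show 1 + 1 = 2 by norm_num, ← hxl] at this
        exact this
      by_cases hyb : ∀ t < m, b ≠ y t
      · obtain ⟨x', S', hcard, Lx', himp⟩ := hT.stepB L' hyb ht ht1 hf0 hf1 hav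
        apply himp
        exact ih _ (by omega) rfl Lx'
      · push Not at hyb
        obtain ⟨j, hj, rfl⟩ := hyb
        have hj0 : j ≠ 0 := by
          rintro rfl
          exact ht.1.2.2 rfl
        have hj1 : j ≠ 1 := by
          rintro rfl
          exact ht1.1.2.1 rfl
        have hjm : j ≠ m - 1 := by
          rintro rfl
          exact ht.1.2.1 rfl
        obtain ⟨x₁, S₁, x₂, S₂, hc1, hc2, L1, L2, himp⟩ := hT.stepC L' (j := j) (by omega)
          (by omega) ht hf0 hf1 hav
        exact himp (ih _ (by omega) rfl L1) (ih _ (by omega) rfl L2)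

end

end Pool.Agent.Work.MP_91103f_co
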