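import Mathlib
import Pool.Agent.Work.MP_91103f_co.Dev4

/-!
# Loops made of turns, with the closing condition in the extremal case
-/

namespace Pool.Agent.Work.MP_91103f_co

open Classical

section

variable {V : Type} {G : SimpleGraph V} {F : Set (Finset V)}

variable (hT : Tri V G F)
include hT

/-- **Refined loop lemma**. -/
theorem Tri.loop2 {m : ℕ} {x w : ℕ → V} {l : ℕ → ℕ} (hm : 3 ≤ m) (hx : x m = x 0)
    (hinj : ∀ i j, i < m → j < m → x i = x j → i = j)
    (h0 : T3 F (x 1) (x 0) (w 0))
    (hl : ∀ t, t + 1 < m → 1 ≤ l t ∧ l t < (G.neighborSet (x (t + 1))).ncard)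
    (hxs : ∀ t, t + 1 < m → x (t + 2) = z F (x (t + 1)) (x t) (w t) (l t))
    (hws : ∀ t, t + 1 < m → w (t + 1) = z F (x (t + 1)) (x t) (w t) (l t - 1)) :
    ((∑ t ∈ Finset.range (m - 1), l t) + 7 ≤ 3 * m ∧
      ((∑ t ∈ Finset.range (m - 1), l t) + 7 = 3 * m →
        ∑ q ∈ Finset.range m, hgt (∑ t ∈ Finset.range q, (3 - (l t : ℤ))) = 0)) ∨
    ((∑ t ∈ Finset.range (m - 1), ((G.neighborSet (x (t + 1))).ncard - l t)) + 7 ≤ 3 * m ∧
      ((∑ t ∈ Finset.range (m - 1), ((G.neighborSet (x (t + 1))).ncard - l t)) + 7 = 3 * m →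
        ∑ q ∈ Finset.range m, hgt (∑ t ∈ Finset.range q,
          (3 - (((G.neighborSet (x (t + 1))).ncard - l t : ℕ) : ℤ))) = 0)) := by
  -- flags
  have hfl : ∀ t, t < m → T3 F (x (t + 1)) (x t) (w t) := by
    intro t
    induction t with
    | zero => intro _; exact h0
    | succ t ih =>
      intro ht
      have := hT.flag_step (ih (by omega)) (hl t ht).1
      rw [← hxs t ht, ← hws t ht] at this
      exact this
  have hadj : ∀ t, t < m → G.Adj (x t) (x (t + 1)) := fun t ht => (hT.adj (hfl t ht)).symm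
  have hC : ∀ e ∈ cyc m x, e ∈ G.edgeSet := by
    intro e he
    obtain ⟨t, ht, rfl⟩ := Finset.mem_image.1 he
    exact hadj t (Finset.mem_range.1 ht)
  obtain ⟨S, hS, hb⟩ := hT.exists_region hm hx hinj hadj
  have hne : (cyc m x).Nonempty := by
    rw [← Finset.card_pos, card_cyc hm hx hinj]
    omega
  have hgb := hT.gauss_bonnet' hC (cyc_evMin hm hx hinj) hne (mem_verts hx)
    (by rw [card_verts hm hx hinj, card_cyc hm hx hinj]) hS hb
  rw [card_verts hm hx hinj, Finset.sum_image (by
    intro i hi j hj h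
    rw [Finset.coe_range, Set.mem_Iio] at hi hj
    exact hinj i j hi hj h)] at hgb
  obtain ⟨hgb, hgb2⟩ := hgb
  -- angle at the base point
  have hbase : 1 ≤ av S (x 0) := by
    have h1 : s(x 0, x 1) ∈ cyc m x := Finset.mem_image.2 ⟨0, by simp; omega, rfl⟩
    have h2 := ((hb _ (hC _ h1)).1 h1).pos
    obtain ⟨f, hf⟩ := Finset.card_pos.1 h2
    rw [Finset.mem_filter, mem_sym2_mk] at hf
    exact Finset.card_pos.2 ⟨f, Finset.mem_filter.2 ⟨hf.1, hf.2.1⟩⟩
  -- parity at inner vertices
  have hodd : ∀ t, t + 1 < m → ∀ c, G.Adj (x (t + 1)) c →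
      (Odd (ct S s(x (t + 1), c)) ↔ c = x t ∨ c = z F (x (t + 1)) (x t) (w t) (l t)) := by
    intro t ht c hc
    rw [← hb _ hc, ← hxs t ht]
    exact mem_cyc_succ hm hx hinj ht
  have hang := fun t ht => hT.angle (hfl t (by omega)) (hl t ht).1 (hl t ht).2 hS (hodd t ht)
  -- the side is constant
  have hside : ∀ t, t + 1 < m →
      (ph F (x (t + 1)) (x t) (w t) 0 ∈ S ↔ ph F (x 1) (x 0) (w 0) 0 ∈ S) := by
    intro t
    induction t with
    | zero => intro _; exact Iff.rfl
    | succ t ih =>
      intro ht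
      rw [← ih (by omega), ← (hang t (by omega)).1]
      have : ph F (x (t + 2)) (x (t + 1)) (w (t + 1)) 0 =
          ph F (x (t + 1)) (x t) (w t) (l t - 1) := by
        have hl1 := (hl t (by omega)).1
        unfold ph
        rw [show l t - 1 + 1 = l t by omega, ← hxs t (by omega), ← hws t (by omega), z_zero,
          zero_add, z_one]
        ext u
        simp only [Finset.mem_insert, Finset.mem_singleton]
        tauto
      rw [show t + 1 + 1 = t + 2 by ring, this]
  have hsum : ∑ t ∈ Finset.range m, av S (x t) =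
      ∑ t ∈ Finset.range (m - 1), av S (x (t + 1)) + av S (x 0) := by
    have := Finset.sum_range_succ' (fun t => av S (x t)) (m - 1)
    rw [show m - 1 + 1 = m by omega] at this
    exact this
  -- closing in the extremal case
  have hclose : ∑ t ∈ Finset.range (m - 1), av S (x (t + 1)) + 7 = 3 * m → ∀ k : ℤ,
      ∑ q ∈ Finset.range m, hgt (k + ∑ t ∈ Finset.range q, (3 - (av S (x (t + 1)) : ℤ))) = 0 := by
    intro heq
    have h1 := hgb2 (by omega)
    have L : Lp G F m x S := ⟨hm, hx, hinj, hadj, hS, hb, by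
      intro v hv hvx
      apply h1 v hv
      rw [Finset.mem_image]
      rintro ⟨t, ht, rfl⟩
      exact hvx t (Finset.mem_range.1 ht) rfl⟩
    exact (hT.dev S.card rfl L).2
  by_cases hP : ph F (x 1) (x 0) (w 0) 0 ∈ S
  · left
    have h2 : ∀ t, t + 1 < m → av S (x (t + 1)) = l t := by
      intro t ht
      rw [(hang t (by omega)).2.1, if_pos ((hside t (by omega)).2 hP)]
    have h1 : ∑ t ∈ Finset.range (m - 1), av S (x (t + 1)) =
        ∑ t ∈ Finset.range (m - 1), l t := by
      refine Finset.sum_congr rfl fun t ht => ?_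
      rw [Finset.mem_range] at ht
      exact h2 t (by omega)
    refine ⟨by omega, ?_⟩
    intro heq
    have h3 := hclose (by omega) 0
    rw [← h3]
    refine Finset.sum_congr rfl fun q hq => ?_
    rw [Finset.mem_range] at hq
    rw [zero_add]
    congr 1
    refine Finset.sum_congr rfl fun t ht => ?_
    rw [Finset.mem_range] at ht
    rw [h2 t (by omega)]
  · right
    have h2 : ∀ t, t + 1 < m → av S (x (t + 1)) = (G.neighborSet (x (t + 1))).ncard - l t := by
      intro t ht
      rw [(hang t (by omega)).2.1, if_neg (fun h => hP ((hside t (by omega)).1 h))]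
    have h1 : ∑ t ∈ Finset.range (m - 1), av S (x (t + 1)) =
        ∑ t ∈ Finset.range (m - 1), ((G.neighborSet (x (t + 1))).ncard - l t) := by
      refine Finset.sum_congr rfl fun t ht => ?_
      rw [Finset.mem_range] at ht
      exact h2 t (by omega)
    refine ⟨by omega, ?_⟩
    intro heq
    have h3 := hclose (by omega) 0
    rw [← h3]
    refine Finset.sum_congr rfl fun q hq => ?_
    rw [Finset.mem_range] at hq
    rw [zero_add]
    congr 1
    refine Finset.sum_congr rfl fun t ht => ?_
    rw [Finset.mem_range] at ht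
    rw [h2 t (by omega)]

end

end Pool.Agent.Work.MP_91103f_co
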