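import Mathlib
import Pool.Agent.Work.MP_91103f_co.Auto

/-!
# Windows of turning sequences
-/

namespace Pool.Agent.Work.MP_91103f_co

/-- partial sums -/
def ps (b : ℕ → ℤ) (i : ℕ) : ℤ := ∑ t ∈ Finset.range i, b t

/-- heights -/
def hs (b : ℕ → ℤ) (j : ℕ) : ℤ := ∑ q ∈ Finset.range (j + 1), hgt (ps b q)

theorem ps_zero (b : ℕ → ℤ) : ps b 0 = 0 := rfl

theorem ps_succ' (b : ℕ → ℤ) (i : ℕ) : ps b (i + 1) = b 0 + ps (fun t => b (t + 1)) i := by
  unfold ps
  rw [Finset.sum_range_succ', add_comm]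

theorem ps_shift (b : ℕ → ℤ) (i j : ℕ) : ps b (i + j) = ps b i + ps (fun t => b (i + t)) j := by
  unfold ps
  rw [Finset.sum_range_add]

/-- what the state says about the future -/
def Fut (c : ℕ) (b : ℕ → ℤ) (n : ℕ) : Prop :=
  ∀ r : ℕ, r ≤ 4 → lv c r ≤ 2 → ∀ i ≤ n, (∀ q ≤ i, 0 ≤ (r : ℤ) + ps b q) →
    (r : ℤ) + ps b i ≤ 4 ∧ (0 < i → (r : ℤ) + ps b i = 4 →
      1 ≤ (lv c r : ℤ) + ∑ q ∈ Finset.range i, hgt (r + ps b (q + 1)))

theorem Fut.zero (c : ℕ) (b : ℕ → ℤ) : Fut c b 0 := by
  intro r hr _ i hi _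
  obtain rfl : i = 0 := by omega
  rw [ps_zero]
  exact ⟨by omega, fun h => absurd h (lt_irrefl _)⟩

theorem hgt_small : hgt 0 = 0 ∧ hgt 1 = 1 ∧ hgt 2 = 1 ∧ hgt 3 = 0 ∧ hgt 4 = -1 := by
  unfold hgt
  norm_num

theorem okL_spec {c c' l r : ℕ} (h : okL c c' l r = true) (h2 : lv c r ≤ 2) (h3 : l ≤ r + 3) :
    r + 3 - l ≤ 4 ∧ lv c' (r + 3 - l) ≤ 2 ∧
      (lv c' (r + 3 - l) : ℤ) ≤ (lv c r : ℤ) + hgt ((r + 3 - l : ℕ) : ℤ) ∧
      (r + 3 - l = 4 → 2 ≤ lv c r) := by
  obtain ⟨g0, g1, g2, g3, g4⟩ := hgt_small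
  unfold okL at h
  simp only [Bool.or_eq_true, Bool.and_eq_true, Bool.not_eq_true', Bool.cond_eq_ite] at h
  rcases h with (h | h) | ⟨⟨h4, h5⟩, h6⟩
  · have := Nat.eq_of_beq_eq_true h
    omega
  · have := Nat.ble_eq_true_of_le h3
    rw [this] at h
    exact absurd h (by decide)
  · have h4 := Nat.le_of_ble_eq_true h4
    have h5 := Nat.le_of_ble_eq_true h5
    refine ⟨h4, h5, ?_, ?_⟩
    · have hq : r + 3 - l = 0 ∨ r + 3 - l = 1 ∨ r + 3 - l = 2 ∨ r + 3 - l = 3 ∨
        r + 3 - l = 4 := by omega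
      rcases hq with hq | hq | hq | hq | hq
      · rw [hq] at h6 ⊢
        simp at h6
        have := g0
        push_cast
        omega
      · rw [hq] at h6 ⊢
        simp at h6
        have := g1
        push_cast
        omega
      · rw [hq] at h6 ⊢
        simp at h6
        have := g2
        push_cast
        omega
      · rw [hq] at h6 ⊢
        simp at h6
        have := g3
        push_cast
        omega
      · rw [hq] at h6 ⊢
        simp at h6
        have := g4
        push_cast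
        omega
    · intro hq
      rw [hq] at h6
      simp at h6
      exact h6.1

theorem okS_spec {c c' l : ℕ} (h : okS c c' l = true) :
    lv c' 0 = 0 ∧ ∀ r ≤ 4, okL c c' l r = true := by
  unfold okS at h
  simp only [Bool.and_eq_true] at h
  refine ⟨Nat.eq_of_beq_eq_true h.1.1.1.1.1, ?_⟩
  intro r hr
  have : r = 0 ∨ r = 1 ∨ r = 2 ∨ r = 3 ∨ r = 4 := by omega
  rcases this with rfl | rfl | rfl | rfl | rfl
  · exact h.1.1.1.1.2
  · exact h.1.1.1.2
  · exact h.1.1.2
  · exact h.1.2
  · exact h.2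

theorem Fut.step {c c' l : ℕ} {b : ℕ → ℤ} {n : ℕ} (hok : okS c c' l = true)
    (hb : b 0 = 3 - (l : ℤ)) (h : Fut c' (fun t => b (t + 1)) n) : Fut c b (n + 1) := by
  intro r hr hlv i hi hpos
  rcases i with _ | i
  · rw [ps_zero]
    exact ⟨by omega, fun h => absurd h (lt_irrefl _)⟩
  · have h1 := hpos 1 (by omega)
    rw [ps_succ', ps_zero, hb] at h1
    have hl : l ≤ r + 3 := by omega
    obtain ⟨e1, e2, e3, e4⟩ := okL_spec ((okS_spec hok).2 r hr) hlv hl
    set q := r + 3 - l with hq
    have hq' : (q : ℤ) = (r : ℤ) + b 0 := by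
      rw [hb, hq]
      push_cast [Nat.cast_sub hl]
      ring
    have hsh : ∀ k, (r : ℤ) + ps b (k + 1) = (q : ℤ) + ps (fun t => b (t + 1)) k := by
      intro k
      rw [ps_succ', hq']
      ring
    obtain ⟨f1, f2⟩ := h q e1 e2 i (by omega) (by
      intro k hk
      rw [← hsh]
      exact hpos (k + 1) (by omega))
    rw [hsh]
    refine ⟨f1, ?_⟩
    intro _ heq
    rw [Finset.sum_range_succ']
    rw [show (r : ℤ) + ps b (0 + 1) = (q : ℤ) by rw [hsh, ps_zero, add_zero]]
    simp only [hsh]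
    rcases Nat.eq_zero_or_pos i with rfl | hi0
    · rw [ps_zero, add_zero] at heq
      have hq4 : q = 4 := by exact_mod_cast heq
      have := e4 hq4
      rw [hq4, Finset.sum_range_zero]
      have g4 : hgt ((4 : ℕ) : ℤ) = -1 := by unfold hgt; norm_num
      rw [g4]
      omega
    · have := f2 hi0 heq
      linarith

/-- All windows are fine. -/
def Win (b : ℕ → ℤ) (n : ℕ) : Prop :=
  ∀ i j, i + j ≤ n → ps (fun t => b (i + t)) j ≤ 4 ∧
    (ps (fun t => b (i + t)) j = 4 → 1 ≤ hs (fun t => b (i + t)) j)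

/-- Windows with nonnegative partial sums are fine. -/
def Win0 (b : ℕ → ℤ) (n : ℕ) : Prop :=
  ∀ i j, i + j ≤ n → (∀ q ≤ j, 0 ≤ ps (fun t => b (i + t)) q) →
    ps (fun t => b (i + t)) j ≤ 4 ∧
    (ps (fun t => b (i + t)) j = 4 → 1 ≤ hs (fun t => b (i + t)) j)

theorem Win0.zero (b : ℕ → ℤ) : Win0 b 0 := by
  intro i j hij _
  obtain rfl : j = 0 := by omega
  rw [ps_zero]
  exact ⟨by norm_num, by norm_num⟩

theorem Win0.step {c : ℕ} {b : ℕ → ℤ} {n : ℕ} (hc : lv c 0 = 0) (hF : Fut c b (n + 1))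
    (h : Win0 (fun t => b (t + 1)) n) : Win0 b (n + 1) := by
  intro i j hij hpos
  rcases i with _ | i
  · have hb : (fun t => b (0 + t)) = b := by
      funext t
      rw [zero_add]
    rw [hb] at hpos ⊢
    have h0 := hF 0 (by norm_num) (by omega) j (by omega) (by
      intro q hq
      rw [Nat.cast_zero, zero_add]
      exact hpos q hq)
    rw [Nat.cast_zero, zero_add, hc, Nat.cast_zero, zero_add] at h0
    refine ⟨h0.1, ?_⟩
    intro heq
    have hj : 0 < j := by
      by_contra hcon
      obtain rfl : j = 0 := by omega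
      rw [ps_zero] at heq
      norm_num at heq
    have h1 := h0.2 hj heq
    unfold hs
    rw [Finset.sum_range_succ', ps_zero, hgt_small.1, add_zero]
    simpa using h1
  · have hb : (fun t => b (i + 1 + t)) = fun t => (fun s => b (s + 1)) (i + t) := by
      funext t
      simp only
      congr 1
      ring
    rw [hb] at hpos ⊢
    exact h i j (by omega) hpos

theorem Win0.win {b : ℕ → ℤ} {n : ℕ} (h : Win0 b n) : Win b n := by
  have key : ∀ j i, i + j ≤ n → ps (fun t => b (i + t)) j ≤ 4 ∧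
      (ps (fun t => b (i + t)) j = 4 → 1 ≤ hs (fun t => b (i + t)) j) := by
    intro j
    induction j using Nat.strong_induction_on with
    | _ j ih =>
      intro i hij
      by_cases hpos : ∀ q ≤ j, 0 ≤ ps (fun t => b (i + t)) q
      · exact h i j hij hpos
      · push Not at hpos
        obtain ⟨q, hq, hneg⟩ := hpos
        have hq0 : q ≠ 0 := by
          rintro rfl
          rw [ps_zero] at hneg
          exact lt_irrefl _ hneg
        have h1 := (ih (j - q) (by omega) (i + q) (by omega)).1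
        have h2 := ps_shift (fun t => b (i + t)) q (j - q)
        rw [show q + (j - q) = j by omega] at h2
        have h3 : (fun t => (fun t => b (i + t)) (q + t)) = fun t => b (i + q + t) := by
          funext t
          simp only
          congr 1
          ring
        rw [h3] at h2
        refine ⟨by linarith, ?_⟩
        intro heq
        exfalso
        linarith
  intro i j hij
  exact key j i hij

/-- The true turning of a window cannot close. -/
theorem no_close {a b : ℕ → ℤ} {j : ℕ} (hab : ∀ t < j, a t ≤ b t) (h1 : ps b j ≤ 4)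
    (h2 : ps b j = 4 → 1 ≤ hs b j) (ha : 4 ≤ ps a j) :
    ps a j = 4 ∧ 1 ≤ hs a j := by
  have hle : ps a j ≤ ps b j := Finset.sum_le_sum fun t ht => hab t (Finset.mem_range.1 ht)
  have ha4 : ps a j = 4 := by linarith
  have hb4 : ps b j = 4 := by linarith
  have heq : ∀ t < j, a t = b t := by
    have h3 : ∑ t ∈ Finset.range j, a t = ∑ t ∈ Finset.range j, b t := by
      change ps a j = ps b j
      linarith
    have := (Finset.sum_eq_sum_iff_of_le (fun t ht => hab t (Finset.mem_range.1 ht))).1 h3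
    intro t ht
    exact this t (Finset.mem_range.2 ht)
  refine ⟨ha4, ?_⟩
  have h5 : hs a j = hs b j := by
    unfold hs
    refine Finset.sum_congr rfl fun q hq => ?_
    rw [Finset.mem_range] at hq
    congr 1
    refine Finset.sum_congr rfl fun t ht => ?_
    rw [Finset.mem_range] at ht
    exact heq t (by omega)
  rw [h5]
  exact h2 hb4

end Pool.Agent.Work.MP_91103f_co
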