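import Mathlib
import Pool.Agent.Work.MP_91103f_co.Loop2
import Pool.Agent.Work.MP_91103f_co.Win

/-!
# Walks driven by the automaton are self-avoiding
-/

namespace Pool.Agent.Work.MP_91103f_co

open Classical

section

variable {V : Type} {G : SimpleGraph V} {F : Set (Finset V)}

variable (G) in
/-- the degree -/
noncomputable def dgr (v : V) : ℕ := (G.neighborSet v).ncard

/-- The turns used at a vertex of degree `d`. -/
def opt (d : ℕ) : Finset ℕ := {1, 2, 3, d - 3, d - 2, d - 1}

/-- class of a degree -/
def ed (d : ℕ) : ℕ := if d = 6 then 0 else 1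

/-- the letter read by the automaton -/
def ll (d l : ℕ) : ℕ := if d = 6 ∨ l ≤ 3 then l else l + 7 - d

theorem mem_opt {d l : ℕ} (hd : 6 ≤ d) (hl : l ∈ opt d) : 1 ≤ l ∧ l < d := by
  unfold opt at hl
  simp only [Finset.mem_insert, Finset.mem_singleton] at hl
  omega

theorem ll_spec {d l : ℕ} (hd : 6 ≤ d) (hl : l ∈ opt d) :
    1 ≤ ll d l ∧ ll d l ≤ 5 + ed d ∧ ll d l ≤ l ∧ 6 + ed d - ll d l ≤ d - l := by
  unfold opt at hl
  simp only [Finset.mem_insert, Finset.mem_singleton] at hl
  unfold ll ed
  split_ifs <;> omega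

theorem ed_lt (d : ℕ) : ed d < 2 := by
  unfold ed
  split_ifs <;> omega

variable (G F) in
/-- Continuations of length `n` of a walk whose last edge is `u v` with left face `u v w`, in
state `s`. -/
noncomputable def Wm : ℕ → V → V → V → ℕ → Finset (List V)
  | 0, _, _, _, _ => {[]}
  | n + 1, u, v, w, s =>
      ((opt (dgr G v)).filter (fun l => nxt s (ed (dgr G v)) (ll (dgr G v) l) ≠ 127)).biUnion
      (fun l => (Wm n v (z F v u w l) (z F v u w (l - 1))
        (nxt s (ed (dgr G v)) (ll (dgr G v) l))).image (fun L => z F v u w l :: L))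

theorem Wm_succ (n : ℕ) (u v w : V) (s : ℕ) : Wm G F (n + 1) u v w s =
    ((opt (dgr G v)).filter (fun l => nxt s (ed (dgr G v)) (ll (dgr G v) l) ≠ 127)).biUnion
      (fun l => (Wm G F n v (z F v u w l) (z F v u w (l - 1))
        (nxt s (ed (dgr G v)) (ll (dgr G v) l))).image (fun L => z F v u w l :: L)) := rfl

variable (hT : Tri V G F)
include hT

theorem Tri.card_Wm_succ {u v w : V} (h : T3 F v u w) (n s : ℕ) :
    (Wm G F (n + 1) u v w s).card =
      ∑ l ∈ (opt (dgr G v)).filter (fun l => nxt s (ed (dgr G v)) (ll (dgr G v) l) ≠ 127),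
      (Wm G F n v (z F v u w l) (z F v u w (l - 1))
        (nxt s (ed (dgr G v)) (ll (dgr G v) l))).card := by
  have hd := (hT.deg v).2
  rw [Wm_succ, Finset.card_biUnion]
  · refine Finset.sum_congr rfl fun l _ => ?_
    rw [Finset.card_image_of_injective]
    intro L L' hL
    exact (List.cons.inj hL).2
  · intro i hi j hj hij
    rw [Finset.mem_coe, Finset.mem_filter] at hi hj
    rw [Function.onFun, Finset.disjoint_left]
    intro L hL hL'
    obtain ⟨L1, -, rfl⟩ := Finset.mem_image.1 hL
    obtain ⟨L2, -, h2⟩ := Finset.mem_image.1 hL'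
    have h3 := (List.cons.inj h2).1
    exact hij ((hT.z_cycle h).2.1 i j (mem_opt hd hi.1).2 (mem_opt hd hj.1).2 h3.symm)

/-- The walk described by a continuation. -/
theorem Tri.extract4 (n : ℕ) : ∀ {u v w : V} (_ : T3 F v u w) (s : ℕ) (_ : s < 104)
    (L : List V) (_ : L ∈ Wm G F n u v w s),
    L.length = n ∧ ∃ (x W : ℕ → V) (l : ℕ → ℕ) (b c : ℕ → ℤ), x 0 = u ∧ x 1 = v ∧ W 0 = w ∧
      (∀ t, (ht : t < L.length) → L[t] = x (t + 2)) ∧
      (∀ t < n, 1 ≤ l t ∧ l t < dgr G (x (t + 1)) ∧
        x (t + 2) = z F (x (t + 1)) (x t) (W t) (l t) ∧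
        W (t + 1) = z F (x (t + 1)) (x t) (W t) (l t - 1) ∧
        3 - (l t : ℤ) ≤ b t ∧ 3 - ((dgr G (x (t + 1)) - l t : ℕ) : ℤ) ≤ c t) ∧
      Fut (LT s) b n ∧ Fut (RT s) c n ∧ (lv (LT s) 0 = 0 → Win0 b n) ∧
      (lv (RT s) 0 = 0 → Win0 c n) := by
  induction n with
  | zero =>
    intro u v w h s hs L hL
    have hL' : L = [] := by simpa [Wm] using hL
    subst hL'
    exact ⟨rfl, fun t => if t = 0 then u else v, fun _ => w, fun _ => 0, fun _ => 0, fun _ => 0,
      by simp, by simp, rfl, by intro t ht; simp at ht, by intro t ht; omega,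
      Fut.zero _ _, Fut.zero _ _, fun _ => Win0.zero _, fun _ => Win0.zero _⟩
  | succ n ih =>
    intro u v w h s hs L hL
    rw [Wm_succ, Finset.mem_biUnion] at hL
    obtain ⟨k, hk, hL⟩ := hL
    obtain ⟨L', hL', rfl⟩ := Finset.mem_image.1 hL
    rw [Finset.mem_filter] at hk
    have hd : 6 ≤ dgr G v := (hT.deg v).2
    obtain ⟨hk1, hk2⟩ := mem_opt hd hk.1
    obtain ⟨hll1, hll2, hll3, hll4⟩ := ll_spec hd hk.1
    have hfl := hT.flag_step h hk1
    obtain ⟨hs', hokL, hokR⟩ := nxt_ok hs (ed_lt (dgr G v)) hll1 hll2 hk.2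
    set s' := nxt s (ed (dgr G v)) (ll (dgr G v) k) with hs'def
    obtain ⟨hlen, x, W, l, b, c, hx0, hx1, hW0, hget, hstep, hFb, hFc, hWb, hWc⟩ :=
      ih hfl s' hs' L' hL'
    have hWb := hWb (okS_spec hokL).1
    have hWc := hWc (okS_spec hokR).1
    have hFb' : Fut (LT s) (fun t => if t = 0 then 3 - (ll (dgr G v) k : ℤ) else b (t - 1))
        (n + 1) := by
      apply Fut.step hokL
      · simp
      · simpa using hFb
    have hFc' : Fut (RT s) (fun t => if t = 0 then
        3 - ((6 + ed (dgr G v) - ll (dgr G v) k : ℕ) : ℤ) else c (t - 1)) (n + 1) := by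
      apply Fut.step hokR
      · simp
      · simpa using hFc
    refine ⟨by simp [hlen], fun t => if t = 0 then u else x (t - 1),
      fun t => if t = 0 then w else W (t - 1), fun t => if t = 0 then k else l (t - 1),
      _, _, by simp, by simp [hx0], by simp, ?_, ?_, hFb', hFc', ?_, ?_⟩
    · intro t ht
      rcases t with _ | t
      · simp [hx1]
      · simp only [List.length_cons] at ht
        simp [hget t (by omega)]
    · intro t ht
      rcases t with _ | t
      · refine ⟨?_, ?_, ?_, ?_, ?_, ?_⟩
        · exact hk1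
        · change k < dgr G (x 0)
          rw [hx0]
          exact hk2
        · change x 1 = z F (x 0) u w k
          rw [hx0, hx1]
        · change W 0 = z F (x 0) u w (k - 1)
          rw [hx0, hW0]
        · simp only [if_true]
          omega
        · simp only [if_true, zero_add, one_ne_zero, if_false, Nat.sub_self]
          rw [hx0]
          omega
      · have := hstep t (by omega)
        simpa using this
    · intro hc
      apply Win0.step hc hFb'
      simpa using hWb
    · intro hc
      apply Win0.step hc hFc'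
      simpa using hWc

/-- Continuations are self-avoiding. -/
theorem Tri.nodup4 {n : ℕ} {u v w : V} (h : T3 F v u w) {s : ℕ} (hs4 : s < 104)
    (hs1 : lv (LT s) 0 = 0) (hs2 : lv (RT s) 0 = 0)
    {L : List V} (hL : L ∈ Wm G F n u v w s) :
    L.length = n ∧ (u :: v :: L).Nodup ∧ List.IsChain G.Adj (u :: v :: L) := by
  obtain ⟨hlen, x, W, l, b, c, hx0, hx1, hW0, hget, hstep, -, -, hWb, hWc⟩ :=
    hT.extract4 n h s hs4 L hL
  have hWb := (hWb hs1).win
  have hWc := (hWc hs2).win
  have hfl : ∀ t ≤ n, T3 F (x (t + 1)) (x t) (W t) := by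
    intro t
    induction t with
    | zero => intro _; rw [zero_add, hx0, hx1, hW0]; exact h
    | succ t ih =>
      intro ht
      obtain ⟨h1, h2, h3, h4, -⟩ := hstep t (by omega)
      have := hT.flag_step (ih (by omega)) h1
      rw [← h3, ← h4] at this
      exact this
  have hgetx : ∀ t, (ht : t < (u :: v :: L).length) → (u :: v :: L)[t] = x t := by
    intro t ht
    rcases t with _ | t
    · simp [hx0]
    rcases t with _ | t
    · simp [hx1]
    · simp only [List.getElem_cons_succ]
      exact hget t _
  have hinj : ∀ g, 0 < g → ∀ i, i + g < n + 2 → x i ≠ x (i + g) := by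
    intro g
    induction g using Nat.strong_induction_on with
    | _ g ih =>
      intro hg i hi he
      have hg3 : 3 ≤ g := by
        by_contra hcon
        have : g = 1 ∨ g = 2 := by omega
        rcases this with rfl | rfl
        · exact (hT.adj (hfl i (by omega))).ne he.symm
        · obtain ⟨h1, h2, h3, -⟩ := hstep i (by omega)
          have h4 := (hT.z_cycle (hfl i (by omega))).2.1 (l i) 0 h2
            (by have := (hT.deg (x (i + 1))).2; omega) (by
              rw [← h3]; exact he.symm)
          omega
      have hloop := hT.loop2 (m := g) (x := fun t => x (i + t)) (w := fun t => W (i + t))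
        (l := fun t => l (i + t)) hg3 (by simpa using he.symm) (by
          intro a b ha hb hab
          by_contra hne
          rcases lt_or_gt_of_ne hne with hlt | hlt
          · refine ih (b - a) (by omega) (by omega) (i + a) (by omega) ?_
            rw [show i + a + (b - a) = i + b by omega]
            exact hab
          · refine ih (a - b) (by omega) (by omega) (i + b) (by omega) ?_
            rw [show i + b + (a - b) = i + a by omega]
            exact hab.symm)
        (hfl i (by omega))
        (fun t ht => ⟨(hstep (i + t) (by omega)).1, (hstep (i + t) (by omega)).2.1⟩)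
        (fun t ht => (hstep (i + t) (by omega)).2.2.1)
        (fun t ht => (hstep (i + t) (by omega)).2.2.2.1)
      have hj : i + (g - 1) ≤ n := by omega
      rcases hloop with ⟨h5, h6⟩ | ⟨h5, h6⟩
      · set a : ℕ → ℤ := fun t => 3 - (l (i + t) : ℤ) with ha
        have hps : ps a (g - 1) = 3 * ((g : ℤ) - 1) -
            ((∑ t ∈ Finset.range (g - 1), l (i + t) : ℕ) : ℤ) := by
          unfold ps
          rw [ha, Finset.sum_sub_distrib, Finset.sum_const, Finset.card_range]
          push_cast [Nat.cast_sub (show 1 ≤ g by omega)]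
          rw [nsmul_eq_mul]
          push_cast [Nat.cast_sub (show 1 ≤ g by omega)]
          ring
        obtain ⟨h7, h8⟩ := no_close (a := a) (b := fun t => b (i + t)) (j := g - 1) (by
          intro t ht
          exact (hstep (i + t) (by omega)).2.2.2.2.1) (hWb i (g - 1) hj).1 (hWb i (g - 1) hj).2
          (by rw [hps]; omega)
        have h9 := h6 (by rw [hps] at h7; omega)
        unfold hs at h8
        rw [show g - 1 + 1 = g by omega] at h8
        change ∑ q ∈ Finset.range g, hgt (ps a q) = 0 at h9
        omega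
      · set a : ℕ → ℤ := fun t => 3 - ((dgr G (x (i + t + 1)) - l (i + t) : ℕ) : ℤ) with ha
        change (∑ t ∈ Finset.range (g - 1), (dgr G (x (i + t + 1)) - l (i + t))) + 7 ≤ 3 * g
          at h5
        change (∑ t ∈ Finset.range (g - 1), (dgr G (x (i + t + 1)) - l (i + t))) + 7 = 3 * g →
          ∑ q ∈ Finset.range g, hgt (ps a q) = 0 at h6
        have hps : ps a (g - 1) = 3 * ((g : ℤ) - 1) -
            ((∑ t ∈ Finset.range (g - 1), (dgr G (x (i + t + 1)) - l (i + t)) : ℕ) : ℤ) := by
          unfold ps
          rw [ha, Finset.sum_sub_distrib, Finset.sum_const, Finset.card_range, nsmul_eq_mul,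
            Nat.cast_sum]
          push_cast [Nat.cast_sub (show 1 ≤ g by omega)]
          ring
        obtain ⟨h7, h8⟩ := no_close (a := a) (b := fun t => c (i + t)) (j := g - 1) (by
          intro t ht
          exact (hstep (i + t) (by omega)).2.2.2.2.2) (hWc i (g - 1) hj).1 (hWc i (g - 1) hj).2
          (by rw [hps]; omega)
        have h9 := h6 (by rw [hps] at h7; omega)
        unfold hs at h8
        rw [show g - 1 + 1 = g by omega] at h8
        omega
  refine ⟨hlen, ?_, ?_⟩
  · rw [List.nodup_iff_injective_get]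
    rintro ⟨i, hi⟩ ⟨j, hj⟩ hij
    simp only [List.get_eq_getElem] at hij
    rw [hgetx i hi, hgetx j hj] at hij
    simp only [List.length_cons] at hi hj
    ext1
    simp only
    rcases lt_trichotomy i j with h1 | h1 | h1
    · exfalso
      apply hinj (j - i) (by omega) i (by omega)
      rw [show i + (j - i) = j by omega]
      exact hij
    · exact h1
    · exfalso
      apply hinj (i - j) (by omega) j (by omega)
      rw [show j + (i - j) = i by omega]
      exact hij.symm
  · rw [List.isChain_iff_getElem]
    intro i hi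
    rw [hgetx i (by omega), hgetx (i + 1) hi]
    simp only [List.length_cons] at hi
    exact (hT.adj (hfl i (by omega))).symm

end

end Pool.Agent.Work.MP_91103f_co
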