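import Mathlib
import Pool.Agent.Work.MP_91103f_co.Walk4
import Pool.Agent.Work.MP_91103f_co.Paths

/-!
# Counting the walks
-/

namespace Pool.Agent.Work.MP_91103f_co

open Classical

section

variable {V : Type} {G : SimpleGraph V} {F : Set (Finset V)}

variable (G) in
/-- type of a vertex: `1` for degree six -/
noncomputable def ty (v : V) : ℕ := if dgr G v = 6 then 1 else 0

theorem ty_lt (v : V) : ty G v < 2 := by
  unfold ty
  split_ifs <;> omega

theorem sum_opt_six (g : ℕ → ℕ) : ∑ l ∈ opt 6, g l = g 1 + g 2 + g 3 + g 4 + g 5 := by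
  have : opt 6 = {1, 2, 3, 4, 5} := by decide
  rw [this]
  simp
  ring

theorem sum_opt_large {d : ℕ} (hd : 7 ≤ d) (g : ℕ → ℕ) :
    ∑ l ∈ opt d, g l = g 1 + g 2 + g 3 + g (d - 3) + g (d - 2) + g (d - 1) := by
  unfold opt
  rw [Finset.sum_insert, Finset.sum_insert, Finset.sum_insert, Finset.sum_insert,
    Finset.sum_insert, Finset.sum_singleton]
  · ring
  all_goals simp only [Finset.mem_insert, Finset.mem_singleton]; omega

variable (hT : Tri V G F)
include hT

theorem Tri.last {v u w w' : V} (h : T3 F v u w) (h' : T3 F v u w') (hne : w ≠ w') :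
    z F v u w (dgr G v - 1) = w' := by
  have hd : 6 ≤ dgr G v := (hT.deg v).2
  have hz := hT.z_cycle h
  have h1 : z F v u w (dgr G v) = u := by
    have := hz.1 0
    rw [zero_add] at this
    exact this
  have h2 : z F v u w (dgr G v + 1) = w := by
    have := hz.1 1
    rw [add_comm] at this
    exact this
  have h3 := hT.z_nb h (dgr G v - 1) (c := w') (by
    rw [show dgr G v - 1 + 1 = dgr G v by omega, h1]
    exact h')
  rcases h3 with h3 | h3
  · exact h3.symm
  · rw [show dgr G v - 1 + 2 = dgr G v + 1 by omega, h2] at h3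
    exact absurd h3.symm hne

theorem Tri.sum_ty {v a b : V} (h : T3 F v a b) :
    ∑ k ∈ Finset.range (dgr G v), ty G (z F v a b k) =
      {y : V | G.Adj v y ∧ (G.neighborSet y).ncard = 6}.ncard := by
  have hz := hT.z_cycle h
  have h1 : {y : V | G.Adj v y ∧ (G.neighborSet y).ncard = 6} =
      (((Finset.range (dgr G v)).filter (fun k => dgr G (z F v a b k) = 6)).image
        (z F v a b) : Finset V) := by
    ext y
    simp only [Set.mem_setOf_eq, Finset.coe_image, Finset.coe_filter, Finset.mem_range,
      Set.mem_image]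
    constructor
    · rintro ⟨h1, h2⟩
      obtain ⟨k, hk, rfl⟩ := hz.2.2 y h1
      exact ⟨k, ⟨hk, h2⟩, rfl⟩
    · rintro ⟨k, ⟨hk, h2⟩, rfl⟩
      exact ⟨hT.z_adj h k, h2⟩
  rw [h1, Set.ncard_coe_finset, Finset.card_image_of_injOn, Finset.card_filter]
  · rfl
  · intro i hi j hj hij
    rw [Finset.coe_filter, Set.mem_setOf_eq, Finset.mem_range] at hi hj
    exact hz.2.1 i j hi.1 hj.1 hij

theorem Tri.count (hK : ∀ v, dgr G v = 6 →
      {y : V | G.Adj v y ∧ (G.neighborSet y).ncard = 6}.ncard ≤ 3) (n : ℕ) :
    ∀ {u v w w' : V} (_ : T3 F v u w) (_ : T3 F v u w') (_ : w ≠ w') (s : ℕ) (_ : s < 104),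
      wt s (ty G v) (ty G u) (ty G w) (ty G w') * 440 ^ n ≤
        4095 * 100 ^ n * (Wm G F n u v w s).card := by
  induction n with
  | zero =>
    intro u v w w' _ _ _ s _
    have : (Wm G F 0 u v w s).card = 1 := by simp [Wm]
    rw [this, pow_zero, pow_zero]
    have := wt_le s (ty G v) (ty G u) (ty G w) (ty G w')
    omega
  | succ n ih =>
    intro u v w w' h h' hne s hs4
    have hd : 6 ≤ dgr G v := (hT.deg v).2
    have hz := hT.z_cycle h
    have hlast := hT.last h h' hne
    have hzd : z F v u w (dgr G v) = u := by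
      have := hz.1 0
      rw [zero_add] at this
      exact this
    set d := dgr G v with hddef
    set e := ed d with hedef
    have hz2 : ∀ i j, i < d → j < d → z F v u w i = z F v u w j → i = j := hz.2.1
    -- the next weights
    set g : ℕ → ℕ := fun l => wt (nxt s e (ll d l)) (ty G (z F v u w l)) (ty G v)
      (ty G (z F v u w (l - 1))) (ty G (z F v u w (l + 1))) with hg
    have hstep : ∀ l ∈ (opt d).filter (fun l => nxt s e (ll d l) ≠ 127),
        g l * 440 ^ n ≤ 4095 * 100 ^ n * (Wm G F n v (z F v u w l) (z F v u w (l - 1))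
          (nxt s e (ll d l))).card := by
      intro l hl
      rw [Finset.mem_filter] at hl
      obtain ⟨hl1, hl2⟩ := mem_opt hd hl.1
      obtain ⟨k1, k2, -, -⟩ := ll_spec hd hl.1
      have hs' := (nxt_ok hs4 (ed_lt d) k1 k2 hl.2).1
      have hf1 := hT.flag_step h hl1
      have hf2 : T3 F (z F v u w l) v (z F v u w (l + 1)) := (hT.z_face h l).swap
      have hne' : z F v u w (l - 1) ≠ z F v u w (l + 1) := by
        rcases Nat.lt_or_ge (l + 1) d with h1 | h1
        · intro h2
          have := hz2 (l - 1) (l + 1) (by omega) h1 h2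
          omega
        · have h3 : l + 1 = d := by omega
          rw [h3, hzd]
          intro h2
          have h4 : z F v u w (l - 1) = z F v u w 0 := h2
          have := hz2 (l - 1) 0 (by omega) (by omega) h4
          omega
      exact ih hf1 hf2 hne' _ hs'
    have hsum : ∑ l ∈ (opt d).filter (fun l => nxt s e (ll d l) ≠ 127), g l =
        ∑ l ∈ opt d, g l := by
      apply Finset.sum_filter_of_ne
      intro l _ hl hcon
      apply hl
      rw [hg]
      simp only
      rw [hcon]
      exact wt_none (ty_lt _) (ty_lt _) (ty_lt _) (ty_lt _)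
    have key : 440 * wt s (ty G v) (ty G u) (ty G w) (ty G w') ≤ 100 * ∑ l ∈ opt d, g l := by
      rcases Nat.lt_or_ge d 7 with h6 | h7
      · have hd6 : d = 6 := by omega
        have hty : ty G v = 1 := by
          unfold ty
          rw [← hddef, if_pos hd6]
        have he : e = 0 := by rw [hedef, hd6]; rfl
        have hsumty := hT.sum_ty h
        rw [← hddef, hd6] at hsumty
        have hK' := hK v (by rw [← hddef]; exact hd6)
        rw [← hsumty] at hK'
        rw [hd6] at hlast hzd
        simp only [Finset.sum_range_succ, Finset.sum_range_zero, zero_add, z_zero, z_one] at hK'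
        rw [show (6 - 1 : ℕ) = 5 by norm_num] at hlast
        rw [hlast] at hK'
        rw [hd6, sum_opt_six, hty]
        have := six_ineq (s := s) (p := ty G u) (a := ty G w) (b := ty G w')
          (t₂ := ty G (z F v u w 2)) (t₃ := ty G (z F v u w 3)) (t₄ := ty G (z F v u w 4)) hs4
          (ty_lt _) (ty_lt _) (ty_lt _) (ty_lt _) (ty_lt _) (ty_lt _) (by omega)
        simp only [hg, he, hd6, hty]
        have e1 : ll 6 1 = 1 := rfl
        have e2 : ll 6 2 = 2 := rfl
        have e3 : ll 6 3 = 3 := rfl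
        have e4 : ll 6 4 = 4 := rfl
        have e5 : ll 6 5 = 5 := rfl
        rw [e1, e2, e3, e4, e5]
        norm_num only
        rw [z_zero, z_one, hlast, hzd]
        exact this
      · have hty : ty G v = 0 := by
          unfold ty
          rw [← hddef, if_neg (by omega)]
        have he : e = 1 := by rw [hedef]; unfold ed; rw [if_neg (by omega)]
        rw [sum_opt_large h7, hty]
        have e1 : ll d 1 = 1 := by unfold ll; rw [if_pos (by omega)]
        have e2 : ll d 2 = 2 := by unfold ll; rw [if_pos (by omega)]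
        have e3 : ll d 3 = 3 := by unfold ll; rw [if_pos (by omega)]
        have e6 : ll d (d - 1) = 6 := by unfold ll; split_ifs <;> omega
        have e5 : ll d (d - 2) = 5 := by unfold ll; split_ifs <;> omega
        have e4 : ll d (d - 3) = 4 := by unfold ll; split_ifs <;> omega
        simp only [hg, he, hty, e1, e2, e3, e4, e5, e6]
        rw [show d - 1 + 1 = d by omega, show d - 2 + 1 = d - 1 by omega,
          show d - 3 + 1 = d - 2 by omega, show d - 1 - 1 = d - 2 by omega,
          show d - 2 - 1 = d - 3 by omega, show d - 3 - 1 = d - 4 by omega, hzd, hlast]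
        norm_num only
        rw [z_zero, z_one]
        rcases Nat.lt_or_ge d 8 with h8 | h8
        · have hd7 : d = 7 := by omega
          rw [hd7]
          norm_num only
          exact seven_ineq (s := s) (p := ty G u) (a := ty G w) (b := ty G w')
            (t₂ := ty G (z F v u w 2)) (t₃ := ty G (z F v u w 3)) (t₄ := ty G (z F v u w 4))
            (t₅ := ty G (z F v u w 5)) hs4 (ty_lt _) (ty_lt _) (ty_lt _) (ty_lt _) (ty_lt _)
            (ty_lt _) (ty_lt _)
        · have := eight_ineq (s := s) (p := ty G u) (a := ty G w) (b := ty G w')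
            (t₂ := ty G (z F v u w 2)) (t₃ := ty G (z F v u w 3)) (t₄ := ty G (z F v u w 4))
            (u₂ := ty G (z F v u w (d - 2))) (u₃ := ty G (z F v u w (d - 3)))
            (u₄ := ty G (z F v u w (d - 4))) hs4 (ty_lt _) (ty_lt _) (ty_lt _) (ty_lt _)
            (ty_lt _) (ty_lt _) (ty_lt _) (ty_lt _) (ty_lt _)
          unfold SL SR at this
          omega
    rw [hT.card_Wm_succ h]
    have h2 : ∑ l ∈ (opt d).filter (fun l => nxt s e (ll d l) ≠ 127), g l * 440 ^ n ≤
        ∑ l ∈ (opt d).filter (fun l => nxt s e (ll d l) ≠ 127), 4095 * 100 ^ n *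
          (Wm G F n v (z F v u w l) (z F v u w (l - 1)) (nxt s e (ll d l))).card :=
      Finset.sum_le_sum hstep
    rw [← Finset.sum_mul, hsum, ← Finset.mul_sum] at h2
    calc wt s (ty G v) (ty G u) (ty G w) (ty G w') * 440 ^ (n + 1)
        = (440 * wt s (ty G v) (ty G u) (ty G w) (ty G w')) * 440 ^ n := by ring
      _ ≤ (100 * ∑ l ∈ opt d, g l) * 440 ^ n := Nat.mul_le_mul_right _ key
      _ = 100 * ((∑ l ∈ opt d, g l) * 440 ^ n) := by ring
      _ ≤ 100 * (4095 * 100 ^ n * ∑ l ∈ (opt d).filter (fun l => nxt s e (ll d l) ≠ 127),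
          (Wm G F n v (z F v u w l) (z F v u w (l - 1)) (nxt s e (ll d l))).card) :=
        Nat.mul_le_mul_left _ h2
      _ = _ := by ring

/-- **Lower bound** for the number of self-avoiding walks. -/
theorem Tri.lower (hK : ∀ v, dgr G v = 6 →
      {y : V | G.Adj v y ∧ (G.neighborSet y).ncard = 6}.ncard ≤ 3) (u : V) (n : ℕ) :
    440 ^ n ≤ 4095 * 100 ^ n * (PL G u (n + 1)).ncard := by
  obtain ⟨v, w₀, h₀⟩ := hT.exists_flag u
  obtain ⟨w, w', hne, h, h', -⟩ := hT.exists_two (hT.adj h₀.swap)
  have hc := hT.count hK n h h' hne 0 (by norm_num)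
  have hpos := wt_start (ty_lt (G := G) v) (ty_lt (G := G) u) (ty_lt (G := G) w)
    (ty_lt (G := G) w')
  have hs1 : lv (LT 0) 0 = 0 := by decide +kernel
  have hs2 : lv (RT 0) 0 = 0 := by decide +kernel
  have hfin : (PL G u (n + 1)).Finite := finite_PL (fun v => (hT.deg v).1) (n + 1) u
  have hcard : (Wm G F n u v w 0).card ≤ (PL G u (n + 1)).ncard := by
    have h2 : (fun L => v :: L) '' (Wm G F n u v w 0 : Set (List V)) ⊆ PL G u (n + 1) := by
      rintro _ ⟨L, hL, rfl⟩
      obtain ⟨h3, h4, h5⟩ := hT.nodup4 h (s := 0) (by norm_num) hs1 hs2 hL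
      exact ⟨h5, h4, by simp [h3]⟩
    have h3 := Set.ncard_le_ncard h2 hfin
    rwa [Set.ncard_image_of_injective _ (fun L L' hL => (List.cons.inj hL).2),
      Set.ncard_coe_finset] at h3
  calc 440 ^ n = 1 * 440 ^ n := (one_mul _).symm
    _ ≤ wt 0 (ty G v) (ty G u) (ty G w) (ty G w') * 440 ^ n := Nat.mul_le_mul_right _ hpos
    _ ≤ 4095 * 100 ^ n * (Wm G F n u v w 0).card := hc
    _ ≤ 4095 * 100 ^ n * (PL G u (n + 1)).ncard := Nat.mul_le_mul_left _ hcard

end

end Pool.Agent.Work.MP_91103f_co
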