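import Mathlib

/-!
# Growth rates of integer sequences in `ENNReal`
-/

namespace Pool.Agent.Work.MP_91103f_co

open Filter Topology

theorem tendsto_const_root {C : ℝ} (hC : 0 < C) :
    Tendsto (fun n : ℕ => (ENNReal.ofReal C) ^ ((1 : ℝ) / n)) atTop (𝓝 1) := by
  have h1 : ∀ n : ℕ, (ENNReal.ofReal C) ^ ((1 : ℝ) / n) = ENNReal.ofReal (C ^ ((1 : ℝ) / n)) :=
    fun n => ENNReal.ofReal_rpow_of_pos hC
  simp only [h1]
  have h2 : Tendsto (fun n : ℕ => C ^ ((1 : ℝ) / n)) atTop (𝓝 (C ^ (0 : ℝ))) :=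
    (Real.continuousAt_const_rpow hC.ne').tendsto.comp tendsto_one_div_atTop_nhds_zero_nat
  rw [Real.rpow_zero] at h2
  have h3 := ENNReal.tendsto_ofReal h2
  rwa [ENNReal.ofReal_one] at h3

theorem tendsto_geom_root {C ρ : ℝ} (hC : 0 < C) (hρ : 0 ≤ ρ) :
    Tendsto (fun n : ℕ => (ENNReal.ofReal (C * ρ ^ n)) ^ ((1 : ℝ) / n)) atTop
      (𝓝 (ENNReal.ofReal ρ)) := by
  have h1 : Tendsto (fun n : ℕ => (ENNReal.ofReal C) ^ ((1 : ℝ) / n) * ENNReal.ofReal ρ) atTop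
      (𝓝 (1 * ENNReal.ofReal ρ)) :=
    ENNReal.Tendsto.mul_const (tendsto_const_root hC) (Or.inr ENNReal.ofReal_ne_top)
  rw [one_mul] at h1
  refine h1.congr' ?_
  filter_upwards [eventually_ge_atTop 1] with n hn
  rw [ENNReal.ofReal_mul hC.le, ENNReal.mul_rpow_of_nonneg _ _ (by positivity),
    ENNReal.ofReal_pow hρ, one_div, ENNReal.pow_rpow_inv_natCast (by omega)]

theorem limsup_root_le {f : ℕ → ℕ} {C ρ : ℝ} (hC : 0 < C) (hρ : 0 ≤ ρ)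
    (h : ∀ᶠ n in atTop, (f n : ℝ) ≤ C * ρ ^ n) :
    limsup (fun n : ℕ => (f n : ENNReal) ^ ((1 : ℝ) / n)) atTop ≤ ENNReal.ofReal ρ := by
  rw [← (tendsto_geom_root hC hρ).limsup_eq]
  refine limsup_le_limsup ?_
  filter_upwards [h] with n hn
  apply ENNReal.rpow_le_rpow _ (by positivity)
  rw [← ENNReal.ofReal_natCast]
  exact ENNReal.ofReal_le_ofReal hn

theorem le_liminf_root {f : ℕ → ℕ} {C ρ : ℝ} (hC : 0 < C) (hρ : 0 ≤ ρ)
    (h : ∀ᶠ n in atTop, C * ρ ^ n ≤ (f n : ℝ)) :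
    ENNReal.ofReal ρ ≤ liminf (fun n : ℕ => (f n : ENNReal) ^ ((1 : ℝ) / n)) atTop := by
  rw [← (tendsto_geom_root hC hρ).liminf_eq]
  refine liminf_le_liminf ?_
  filter_upwards [h] with n hn
  apply ENNReal.rpow_le_rpow _ (by positivity)
  rw [← ENNReal.ofReal_natCast]
  exact ENNReal.ofReal_le_ofReal hn

end Pool.Agent.Work.MP_91103f_co
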