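import Mathlib
import Pool.Agent.Work.MP_91103f_co.Paths

/-!
# Upper bound for the number of self-avoiding walks on the triangular lattice
-/

namespace Pool.Agent.Work.MP_91103f_co

/-- The triangular lattice. -/
abbrev T6 : SimpleGraph (ℤ × ℤ) := SimpleGraph.fromRel (fun p r : ℤ × ℤ =>
  (r.1 - p.1, r.2 - p.2) ∈ ({(1, 0), (0, 1), (-1, 1)} : Set (ℤ × ℤ)))

/-- the six directions -/
def dx : ℕ → ℤ
  | 0 => 1
  | 1 => 0
  | 2 => -1
  | 3 => -1
  | 4 => 0
  | _ => 1

/-- the six directions -/
def dy : ℕ → ℤ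
  | 0 => 0
  | 1 => 1
  | 2 => 1
  | 3 => 0
  | 4 => -1
  | _ => -1

/-- not both zero -/
def nz (a b : ℤ) : Bool := !(a == 0 && b == 0)

/-- the prefix sums starting from `a, b` are nonzero -/
def pref : ℤ → ℤ → ℕ → List ℕ → Bool
  | _, _, 0, _ => true
  | _, _, _ + 1, [] => true
  | a, b, n + 1, k :: ks => nz (a + dx k) (b + dy k) && pref (a + dx k) (b + dy k) n ks

/-- no closed walk with at most six steps starts here -/
def alw : List ℕ → Bool
  | [] => true
  | k :: ks => pref (dx k) (dy k) 5 ks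

/-- the table of weights -/
def tab : ℕ := 985316327521903993258417299466898519573552516922291744191295611624707343513841278768480799186850680939554197713703148276978191040031910889405858092137139630169271142789864271863691858701726160334815607909598626880183234219038050931979670970357889914991292089066060115086621939047916468243764678896391011049034217095090999159606486493834951988066821217788409115760119462919859981609687193279585893492590617603607885548945535443034475697927220430750638780603869522178397264285956523361314619425310684406796688399120068103548644459628768806167751436333260327902133557386104741354689143457685018788106396271245260017686946727121834278068288248940338730577977523133852936997852140967513217609308501023568166314395220507573691745210367050989564294361075883649200706549630033978267295872092142889466852876448628425725313080816629901047746395677216248474355725165800952963105393581873083095785083853300193280030535728832057523022163997225424663020899350782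144179995829222527327434721875375970180295938472060257826262561653857315893179527457645514443314559995384682925498390214297033292286910764795195550148074741515532921703808939249260201000632387830126199127526482615020329685914183699605861720774435415960009074684631955700069672447329749588669989738573105001132052136497623066294762623114075931683482871543815730570971512257444653321522348444029336296577305159354572690559460648918994144165535442499034616812063879220978859638405405188230377982595621285369941238221272726482921572970055507916885418800788120775023369893161769632553561298071832433835285388427920623963161414689069177313146426172725034594775657068643687887724406702881480212713893348651749758442523554551915931446943058601841192636043594306672000543547329833943160854334785677009545274031114419656466776474451564975314231535303099221854712044113861379967475532138427525721853445740649534733779830423088677823290517616560331482978755862084275834373673604516018303537540347084739456127089899491079248026332659370394666238864830453567636652720150756441517390101011635016901693559454012148070589990787182185655818188759121935704406243990866760410703341933021373097660021546801288827633664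

/-- weight of the first five steps -/
def wtt (k₁ k₂ k₃ k₄ k₅ : ℕ) : ℕ :=
  let t₁ := (k₂ + 8 - k₁) % 6
  let t₂ := (k₃ + 8 - k₂) % 6
  let t₃ := (k₄ + 8 - k₃) % 6
  let t₄ := (k₅ + 8 - k₄) % 6
  bif t₁ == 5 || t₂ == 5 || t₃ == 5 || t₄ == 5 then 0 else
  (tab >>> (12 * (((t₁ * 5 + t₂) * 5 + t₃) * 5 + t₄))) % 4096

/-- one check -/
def chk1 (k₁ k₂ k₃ k₄ k₅ : ℕ) : Bool :=
  let w := wtt k₁ k₂ k₃ k₄ k₅
  bif w == 0 then true else
  Nat.ble (100 * (
    (bif alw [0, k₁, k₂, k₃, k₄, k₅] then wtt 0 k₁ k₂ k₃ k₄ else 0) +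
    (bif alw [1, k₁, k₂, k₃, k₄, k₅] then wtt 1 k₁ k₂ k₃ k₄ else 0) +
    (bif alw [2, k₁, k₂, k₃, k₄, k₅] then wtt 2 k₁ k₂ k₃ k₄ else 0) +
    (bif alw [3, k₁, k₂, k₃, k₄, k₅] then wtt 3 k₁ k₂ k₃ k₄ else 0) +
    (bif alw [4, k₁, k₂, k₃, k₄, k₅] then wtt 4 k₁ k₂ k₃ k₄ else 0) +
    (bif alw [5, k₁, k₂, k₃, k₄, k₅] then wtt 5 k₁ k₂ k₃ k₄ else 0))) (439 * w)

/-- bounded universal quantification over `0..5` -/
def all6 (f : ℕ → Bool) : Bool := f 0 && f 1 && f 2 && f 3 && f 4 && f 5

/-- all checks -/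
def chkAll : Bool := all6 fun k₁ => all6 fun k₂ => all6 fun k₃ => all6 fun k₄ => all6 fun k₅ =>
  chk1 k₁ k₂ k₃ k₄ k₅

/-- positivity on good states -/
def chk2 : Bool := all6 fun k₁ => all6 fun k₂ => all6 fun k₃ => all6 fun k₄ => all6 fun k₅ =>
  !(alw [k₁, k₂, k₃, k₄, k₅] && alw [k₂, k₃, k₄, k₅] && alw [k₃, k₄, k₅] && alw [k₄, k₅]) ||
    Nat.ble 1 (wtt k₁ k₂ k₃ k₄ k₅)

set_option maxRecDepth 100000 in
theorem chkAll_true : chkAll = true := by
  decide +kernel

set_option maxRecDepth 100000 in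
theorem chk2_true : chk2 = true := by
  decide +kernel

theorem all6_spec {f : ℕ → Bool} (h : all6 f = true) {k : ℕ} (hk : k < 6) : f k = true := by
  unfold all6 at h
  simp only [Bool.and_eq_true] at h
  have : k = 0 ∨ k = 1 ∨ k = 2 ∨ k = 3 ∨ k = 4 ∨ k = 5 := by omega
  rcases this with rfl | rfl | rfl | rfl | rfl | rfl
  · exact h.1.1.1.1.1
  · exact h.1.1.1.1.2
  · exact h.1.1.1.2
  · exact h.1.1.2
  · exact h.1.2
  · exact h.2

/-- Step sequences without closed walks of length at most six. -/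
def GW : ℕ → Finset (List ℕ)
  | 0 => {[]}
  | n + 1 => ((Finset.range 6 ×ˢ GW n).filter (fun p => alw (p.1 :: p.2) = true)).image
      (fun p => p.1 :: p.2)

/-- the weight of a step sequence -/
def WL : List ℕ → ℕ
  | k₁ :: k₂ :: k₃ :: k₄ :: k₅ :: _ => wtt k₁ k₂ k₃ k₄ k₅
  | _ => 0

theorem mem_GW_succ {n : ℕ} {L : List ℕ} : L ∈ GW (n + 1) ↔
    ∃ k ks, L = k :: ks ∧ k < 6 ∧ ks ∈ GW n ∧ alw (k :: ks) = true := by
  rw [GW, Finset.mem_image]
  constructor
  · rintro ⟨⟨k, ks⟩, h, rfl⟩
    rw [Finset.mem_filter, Finset.mem_product, Finset.mem_range] at h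
    exact ⟨k, ks, rfl, h.1.1, h.1.2, h.2⟩
  · rintro ⟨k, ks, rfl, h1, h2, h3⟩
    refine ⟨(k, ks), ?_, rfl⟩
    rw [Finset.mem_filter, Finset.mem_product, Finset.mem_range]
    exact ⟨⟨h1, h2⟩, h3⟩

theorem pref_take (n : ℕ) : ∀ (a b : ℤ) (ks : List ℕ), pref a b n (ks.take n) = pref a b n ks := by
  induction n with
  | zero => intro a b ks; cases ks <;> rfl
  | succ n ih =>
    intro a b ks
    cases ks with
    | nil => rfl
    | cons k ks =>
      rw [List.take_succ_cons]
      unfold pref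
      rw [ih]

theorem pref_mono {n m : ℕ} (h : n ≤ m) : ∀ (a b : ℤ) (ks : List ℕ), pref a b m ks = true →
    pref a b n ks = true := by
  induction n generalizing m with
  | zero => intro a b ks _; cases ks <;> rfl
  | succ n ih =>
    intro a b ks hp
    obtain ⟨m, rfl⟩ : ∃ m', m = m' + 1 := ⟨m - 1, by omega⟩
    cases ks with
    | nil => rfl
    | cons k ks =>
      unfold pref at hp ⊢
      rw [Bool.and_eq_true] at hp ⊢
      exact ⟨hp.1, ih (by omega) _ _ _ hp.2⟩

theorem pref_prefix (n : ℕ) : ∀ (a b : ℤ) (ks ks' : List ℕ), pref a b n (ks ++ ks') = true →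
    pref a b n ks = true := by
  induction n with
  | zero => intro a b ks ks' _; cases ks <;> rfl
  | succ n ih =>
    intro a b ks ks' h
    cases ks with
    | nil => rfl
    | cons k ks =>
      rw [List.cons_append] at h
      unfold pref at h ⊢
      rw [Bool.and_eq_true] at h ⊢
      exact ⟨h.1, ih _ _ _ _ h.2⟩

theorem GW_five {n : ℕ} {ks : List ℕ} (h : ks ∈ GW (n + 5)) : ∃ k₁ k₂ k₃ k₄ k₅ r,
    ks = k₁ :: k₂ :: k₃ :: k₄ :: k₅ :: r ∧ k₁ < 6 ∧ k₂ < 6 ∧ k₃ < 6 ∧ k₄ < 6 ∧ k₅ < 6 ∧
    1 ≤ wtt k₁ k₂ k₃ k₄ k₅ := by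
  obtain ⟨k₁, ks₁, rfl, h1, h, a1⟩ := mem_GW_succ.1 h
  obtain ⟨k₂, ks₂, rfl, h2, h, a2⟩ := mem_GW_succ.1 h
  obtain ⟨k₃, ks₃, rfl, h3, h, a3⟩ := mem_GW_succ.1 h
  obtain ⟨k₄, ks₄, rfl, h4, h, a4⟩ := mem_GW_succ.1 h
  obtain ⟨k₅, ks₅, rfl, h5, h, a5⟩ := mem_GW_succ.1 h
  refine ⟨k₁, k₂, k₃, k₄, k₅, ks₅, rfl, h1, h2, h3, h4, h5, ?_⟩
  have hc := all6_spec (all6_spec (all6_spec (all6_spec (all6_spec chk2_true h1) h2) h3) h4) h5
  have e1 : alw [k₁, k₂, k₃, k₄, k₅] = true :=
    pref_prefix 5 _ _ [k₂, k₃, k₄, k₅] ks₅ a1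
  have e2 : alw [k₂, k₃, k₄, k₅] = true := pref_prefix 5 _ _ [k₃, k₄, k₅] ks₅ a2
  have e3 : alw [k₃, k₄, k₅] = true := pref_prefix 5 _ _ [k₄, k₅] ks₅ a3
  have e4 : alw [k₄, k₅] = true := pref_prefix 5 _ _ [k₅] ks₅ a4
  simp only [e1, e2, e3, e4, Bool.and_self, Bool.not_true, Bool.false_or] at hc
  exact Nat.le_of_ble_eq_true hc

theorem WL_step {n : ℕ} {ks : List ℕ} (h : ks ∈ GW (n + 5)) :
    100 * (∑ k ∈ Finset.range 6, if alw (k :: ks) = true then WL (k :: ks) else 0) ≤
      439 * WL ks := by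
  obtain ⟨k₁, k₂, k₃, k₄, k₅, r, rfl, h1, h2, h3, h4, h5, hw⟩ := GW_five h
  have hc := all6_spec (all6_spec (all6_spec (all6_spec (all6_spec chkAll_true h1) h2) h3) h4) h5
  have hw0 : (wtt k₁ k₂ k₃ k₄ k₅ == 0) = false := by
    rw [beq_eq_false_iff_ne]; omega
  unfold chk1 at hc
  simp only [hw0, cond_false] at hc
  have hc := Nat.le_of_ble_eq_true hc
  have ha : ∀ k, alw (k :: k₁ :: k₂ :: k₃ :: k₄ :: k₅ :: r) = alw [k, k₁, k₂, k₃, k₄, k₅] := by
    intro k
    change pref (dx k) (dy k) 5 (k₁ :: k₂ :: k₃ :: k₄ :: k₅ :: r) =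
      pref (dx k) (dy k) 5 [k₁, k₂, k₃, k₄, k₅]
    rw [← pref_take 5 (dx k) (dy k) (k₁ :: k₂ :: k₃ :: k₄ :: k₅ :: r)]
    rfl
  simp only [ha, WL]
  rw [Finset.sum_range_succ, Finset.sum_range_succ, Finset.sum_range_succ, Finset.sum_range_succ,
    Finset.sum_range_succ, Finset.sum_range_succ, Finset.sum_range_zero, zero_add]
  simp only [Bool.cond_eq_ite] at hc
  exact hc

theorem sum_WL_step (n : ℕ) :
    100 * ∑ ks ∈ GW (n + 6), WL ks ≤ 439 * ∑ ks ∈ GW (n + 5), WL ks := by
  have h1 : ∑ ks ∈ GW (n + 6), WL ks = ∑ ks ∈ GW (n + 5),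
      ∑ k ∈ Finset.range 6, if alw (k :: ks) = true then WL (k :: ks) else 0 := by
    change ∑ ks ∈ GW (n + 5 + 1), WL ks = _
    rw [GW, Finset.sum_image, Finset.sum_filter, Finset.sum_product, Finset.sum_comm]
    rintro ⟨k, ks⟩ _ ⟨k', ks'⟩ _ h
    simp only [List.cons.injEq] at h
    rw [h.1, h.2]
  rw [h1, Finset.mul_sum, Finset.mul_sum]
  exact Finset.sum_le_sum fun ks hks => WL_step hks

theorem geom_bound {f : ℕ → ℕ} (h : ∀ n, 100 * f (n + 1) ≤ 439 * f n) (n : ℕ) :
    100 ^ n * f n ≤ 439 ^ n * f 0 := by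
  induction n with
  | zero => simp
  | succ n ih =>
    calc 100 ^ (n + 1) * f (n + 1) = 100 ^ n * (100 * f (n + 1)) := by ring
      _ ≤ 100 ^ n * (439 * f n) := Nat.mul_le_mul_left _ (h n)
      _ = 439 * (100 ^ n * f n) := by ring
      _ ≤ 439 * (439 ^ n * f 0) := Nat.mul_le_mul_left _ ih
      _ = 439 ^ (n + 1) * f 0 := by ring

/-- total weight -/
def TW (n : ℕ) : ℕ := ∑ ks ∈ GW (n + 5), WL ks

theorem sum_WL (n : ℕ) : 100 ^ n * TW n ≤ 439 ^ n * TW 0 :=
  geom_bound (fun n => sum_WL_step n) n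

theorem card_GW_le (n : ℕ) : (GW (n + 5)).card ≤ TW n := by
  unfold TW
  rw [Finset.card_eq_sum_ones]
  refine Finset.sum_le_sum fun ks hks => ?_
  obtain ⟨k₁, k₂, k₃, k₄, k₅, r, rfl, -, -, -, -, -, hw⟩ := GW_five hks
  exact hw

/-- the positions visited -/
def pos : ℤ × ℤ → List ℕ → List (ℤ × ℤ)
  | _, [] => []
  | p, k :: ks => (p.1 + dx k, p.2 + dy k) :: pos (p.1 + dx k, p.2 + dy k) ks

theorem pref_of_notMem (n : ℕ) : ∀ (p : ℤ × ℤ) (a b : ℤ) (ks : List ℕ),
    p ∉ pos (p.1 + a, p.2 + b) ks → pref a b n ks = true := by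
  induction n with
  | zero => intro p a b ks _; cases ks <;> rfl
  | succ n ih =>
    intro p a b ks h
    cases ks with
    | nil => rfl
    | cons k ks =>
      unfold pos at h
      rw [List.mem_cons, not_or] at h
      unfold pref
      rw [Bool.and_eq_true]
      refine ⟨?_, ?_⟩
      · unfold nz
        rw [Bool.not_eq_true', Bool.and_eq_false_iff, beq_eq_false_iff_ne, beq_eq_false_iff_ne]
        by_contra hcon
        push Not at hcon
        apply h.1
        ext
        · simp only; linarith [hcon.1]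
        · simp only; linarith [hcon.2]
      · apply ih p
        have h2 := h.2
        simp only at h2
        rw [show p.1 + (a + dx k) = p.1 + a + dx k by ring,
          show p.2 + (b + dy k) = p.2 + b + dy k by ring]
        exact h2

theorem adj_T6 {p r : ℤ × ℤ} (h : T6.Adj p r) : ∃ k < 6, r = (p.1 + dx k, p.2 + dy k) := by
  rw [SimpleGraph.fromRel_adj] at h
  obtain ⟨p1, p2⟩ := p
  obtain ⟨r1, r2⟩ := r
  simp only [Set.mem_insert_iff, Set.mem_singleton_iff, Prod.mk.injEq] at h ⊢
  rcases h.2 with (h | h | h) | (h | h | h)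
  · exact ⟨0, by norm_num, by simp [dx]; omega, by simp [dy]; omega⟩
  · exact ⟨1, by norm_num, by simp [dx]; omega, by simp [dy]; omega⟩
  · exact ⟨2, by norm_num, by simp [dx]; omega, by simp [dy]; omega⟩
  · exact ⟨3, by norm_num, by simp [dx]; omega, by simp [dy]; omega⟩
  · exact ⟨4, by norm_num, by simp [dx]; omega, by simp [dy]; omega⟩
  · exact ⟨5, by norm_num, by simp [dx]; omega, by simp [dy]; omega⟩

theorem exists_steps (L : List (ℤ × ℤ)) : ∀ p : ℤ × ℤ, List.IsChain T6.Adj (p :: L) →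
    (p :: L).Nodup → ∃ ks ∈ GW L.length, pos p ks = L := by
  induction L with
  | nil => intro p _ _; exact ⟨[], by simp [GW], rfl⟩
  | cons r L ih =>
    intro p h1 h2
    rw [List.isChain_cons_cons] at h1
    rw [List.nodup_cons] at h2
    obtain ⟨ks, hks, hpos⟩ := ih r h1.2 h2.2
    obtain ⟨k, hk, hr⟩ := adj_T6 h1.1
    have hp : pos p (k :: ks) = r :: L := by
      unfold pos
      rw [← hr, hpos]
    refine ⟨k :: ks, ?_, hp⟩
    rw [List.length_cons, mem_GW_succ]
    refine ⟨k, ks, rfl, hk, hks, ?_⟩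
    apply pref_of_notMem 5 p
    rw [← hr, hpos]
    intro hmem
    exact h2.1 (List.mem_cons_of_mem _ hmem)

theorem ncard_PL_le (p : ℤ × ℤ) (n : ℕ) : (PL T6 p n).ncard ≤ (GW n).card := by
  rw [← Set.ncard_coe_finset]
  have h : PL T6 p n ⊆ pos p '' (GW n : Set (List ℕ)) := by
    rintro L ⟨h1, h2, h3⟩
    obtain ⟨ks, hks, hpos⟩ := exists_steps L p h1 h2
    rw [h3] at hks
    exact ⟨ks, hks, hpos⟩
  exact (Set.ncard_le_ncard h ((Finset.finite_toSet _).image _)).trans
    (Set.ncard_image_le (Finset.finite_toSet _))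

/-- **Upper bound** for the number of self-avoiding walks on the triangular lattice. -/
theorem exists_upper : ∃ C : ℕ, ∀ (p : ℤ × ℤ) (n : ℕ), 100 ^ n * (PL T6 p (n + 5)).ncard ≤
    C * 439 ^ n := by
  refine ⟨TW 0, fun p n => ?_⟩
  calc 100 ^ n * (PL T6 p (n + 5)).ncard ≤ 100 ^ n * (GW (n + 5)).card :=
        Nat.mul_le_mul_left _ (ncard_PL_le p (n + 5))
    _ ≤ 100 ^ n * TW n := Nat.mul_le_mul_left _ (card_GW_le n)
    _ ≤ 439 ^ n * TW 0 := sum_WL n
    _ = TW 0 * 439 ^ n := mul_comm _ _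

end Pool.Agent.Work.MP_91103f_co
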