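import Mathlib
import Pool.Agent.Work.MP_91103f_co.Auto5
import Pool.Agent.Work.MP_91103f_co.Win

/-!
# Windows of turning sequences
-/

namespace Pool.Agent.Work.MP_91103f_co.U

/-- what the state says about the future -/
def Fut (c : ℕ) (b : ℕ → ℤ) (n : ℕ) : Prop :=
  ∀ r : ℕ, r ≤ 4 → lv c r ≤ 6 → ∀ i ≤ n, (∀ q ≤ i, 0 ≤ (r : ℤ) + ps b q) →
    (r : ℤ) + ps b i ≤ 4 ∧ (0 < i → (r : ℤ) + ps b i = 4 →
      1 ≤ (lv c r : ℤ) + ∑ q ∈ Finset.range i, hgt (r + ps b (q + 1)))

theorem Fut.zero (c : ℕ) (b : ℕ → ℤ) : Fut c b 0 := by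
  intro r hr _ i hi _
  obtain rfl : i = 0 := by omega
  rw [ps_zero]
  exact ⟨by omega, fun h => absurd h (lt_irrefl _)⟩

theorem okL_spec {c c' l r : ℕ} (h : okL c c' l r = true) (h2 : lv c r ≤ 6) (h3 : l ≤ r + 3) :
    r + 3 - l ≤ 4 ∧ lv c' (r + 3 - l) ≤ 6 ∧
      (lv c' (r + 3 - l) : ℤ) ≤ (lv c r : ℤ) + hgt ((r + 3 - l : ℕ) : ℤ) ∧
      (r + 3 - l = 4 → 2 ≤ lv c r) := by
  obtain ⟨g0, g1, g2, g3, g4⟩ := hgt_small
  unfold okL at h
  simp only [Bool.or_eq_true, Bool.and_eq_true, Bool.not_eq_true', Bool.cond_eq_ite] at h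
  rcases h with (h | h) | ⟨⟨h4, h5⟩, h6⟩
  · have := Nat.eq_of_beq_eq_true h
    omega
  · have := Nat.ble_eq_true_of_le h3
    rw [this] at h
    exact absurd h (by decide)
  · have h4 := Nat.le_of_ble_eq_true h4
    have h5 := Nat.le_of_ble_eq_true h5
    refine ⟨h4, h5, ?_, ?_⟩
    · have hq : r + 3 - l = 0 ∨ r + 3 - l = 1 ∨ r + 3 - l = 2 ∨ r + 3 - l = 3 ∨
        r + 3 - l = 4 := by omega
      rcases hq with hq | hq | hq | hq | hq
      · rw [hq] at h6 ⊢
        simp at h6
        have := g0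
        push_cast
        omega
      · rw [hq] at h6 ⊢
        simp at h6
        have := g1
        push_cast
        omega
      · rw [hq] at h6 ⊢
        simp at h6
        have := g2
        push_cast
        omega
      · rw [hq] at h6 ⊢
        simp at h6
        have := g3
        push_cast
        omega
      · rw [hq] at h6 ⊢
        simp at h6
        have := g4
        push_cast
        omega
    · intro hq
      rw [hq] at h6
      simp at h6
      exact h6.1

theorem okS_spec {c c' l : ℕ} (h : okS c c' l = true) :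
    lv c' 0 = 0 ∧ ∀ r ≤ 4, okL c c' l r = true := by
  unfold okS at h
  simp only [Bool.and_eq_true] at h
  refine ⟨Nat.eq_of_beq_eq_true h.1.1.1.1.1, ?_⟩
  intro r hr
  have : r = 0 ∨ r = 1 ∨ r = 2 ∨ r = 3 ∨ r = 4 := by omega
  rcases this with rfl | rfl | rfl | rfl | rfl
  · exact h.1.1.1.1.2
  · exact h.1.1.1.2
  · exact h.1.1.2
  · exact h.1.2
  · exact h.2

theorem Fut.step {c c' l : ℕ} {b : ℕ → ℤ} {n : ℕ} (hok : okS c c' l = true)
    (hb : b 0 = 3 - (l : ℤ)) (h : Fut c' (fun t => b (t + 1)) n) : Fut c b (n + 1) := by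
  intro r hr hlv i hi hpos
  rcases i with _ | i
  · rw [ps_zero]
    exact ⟨by omega, fun h => absurd h (lt_irrefl _)⟩
  · have h1 := hpos 1 (by omega)
    rw [ps_succ', ps_zero, hb] at h1
    have hl : l ≤ r + 3 := by omega
    obtain ⟨e1, e2, e3, e4⟩ := okL_spec ((okS_spec hok).2 r hr) hlv hl
    set q := r + 3 - l with hq
    have hq' : (q : ℤ) = (r : ℤ) + b 0 := by
      rw [hb, hq]
      push_cast [Nat.cast_sub hl]
      ring
    have hsh : ∀ k, (r : ℤ) + ps b (k + 1) = (q : ℤ) + ps (fun t => b (t + 1)) k := by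
      intro k
      rw [ps_succ', hq']
      ring
    obtain ⟨f1, f2⟩ := h q e1 e2 i (by omega) (by
      intro k hk
      rw [← hsh]
      exact hpos (k + 1) (by omega))
    rw [hsh]
    refine ⟨f1, ?_⟩
    intro _ heq
    rw [Finset.sum_range_succ']
    rw [show (r : ℤ) + ps b (0 + 1) = (q : ℤ) by rw [hsh, ps_zero, add_zero]]
    simp only [hsh]
    rcases Nat.eq_zero_or_pos i with rfl | hi0
    · rw [ps_zero, add_zero] at heq
      have hq4 : q = 4 := by exact_mod_cast heq
      have := e4 hq4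
      rw [hq4, Finset.sum_range_zero]
      have g4 : hgt ((4 : ℕ) : ℤ) = -1 := by unfold hgt; norm_num
      rw [g4]
      omega
    · have := f2 hi0 heq
      linarith

theorem win0_step {c : ℕ} {b : ℕ → ℤ} {n : ℕ} (hc : lv c 0 = 0) (hF : Fut c b (n + 1))
    (h : Win0 (fun t => b (t + 1)) n) : Win0 b (n + 1) := by
  intro i j hij hpos
  rcases i with _ | i
  · have hb : (fun t => b (0 + t)) = b := by
      funext t
      rw [zero_add]
    rw [hb] at hpos ⊢
    have h0 := hF 0 (by norm_num) (by omega) j (by omega) (by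
      intro q hq
      rw [Nat.cast_zero, zero_add]
      exact hpos q hq)
    rw [Nat.cast_zero, zero_add, hc, Nat.cast_zero, zero_add] at h0
    refine ⟨h0.1, ?_⟩
    intro heq
    have hj : 0 < j := by
      by_contra hcon
      obtain rfl : j = 0 := by omega
      rw [ps_zero] at heq
      norm_num at heq
    have h1 := h0.2 hj heq
    unfold hs
    rw [Finset.sum_range_succ', ps_zero, hgt_small.1, add_zero]
    simpa using h1
  · have hb : (fun t => b (i + 1 + t)) = fun t => (fun s => b (s + 1)) (i + t) := by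
      funext t
      simp only
      congr 1
      ring
    rw [hb] at hpos ⊢
    exact h i j (by omega) hpos

end Pool.Agent.Work.MP_91103f_co.U
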