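import Mathlib
import Pool.Agent.Work.MP_91103f_co.Walk5
import Pool.Agent.Work.MP_91103f_co.Count4

/-!
# Counting the walks
-/

namespace Pool.Agent.Work.MP_91103f_co.U

open Classical

section

variable {V : Type} {G : SimpleGraph V} {F : Set (Finset V)}

variable (hT : Tri V G F)
include hT

theorem count (n : ℕ) :
    ∀ {u v w : V} (_ : T3 F v u w) (s : ℕ) (_ : s < 965),
      wt s * 377 ^ n ≤ 65535 * 100 ^ n * (Wm G F n u v w s).card := by
  induction n with
  | zero =>
    intro u v w _ s _
    have : (Wm G F 0 u v w s).card = 1 := by simp [Wm]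
    rw [this, pow_zero, pow_zero]
    have := wt_le s
    omega
  | succ n ih =>
    intro u v w h s hs4
    have hd : 6 ≤ dgr G v := (hT.deg v).2
    set d := dgr G v with hddef
    set e := ed d with hedef
    set g : ℕ → ℕ := fun l => wt (nxt s e (ll d l)) with hg
    have hstep : ∀ l ∈ (opt d).filter (fun l => nxt s e (ll d l) ≠ 1023),
        g l * 377 ^ n ≤ 65535 * 100 ^ n * (Wm G F n v (z F v u w l) (z F v u w (l - 1))
          (nxt s e (ll d l))).card := by
      intro l hl
      rw [Finset.mem_filter] at hl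
      obtain ⟨hl1, hl2⟩ := mem_opt hd hl.1
      obtain ⟨k1, k2, -, -⟩ := ll_spec hd hl.1
      have hs' := (nxt_ok hs4 (ed_lt d) k1 k2 hl.2).1
      exact ih (hT.flag_step h hl1) _ hs'
    have hsum : ∑ l ∈ (opt d).filter (fun l => nxt s e (ll d l) ≠ 1023), g l =
        ∑ l ∈ opt d, g l := by
      apply Finset.sum_filter_of_ne
      intro l _ hl hcon
      apply hl
      rw [hg]
      simp only
      rw [hcon]
      exact wt_none
    have key : 377 * wt s ≤ 100 * ∑ l ∈ opt d, g l := by
      rcases Nat.lt_or_ge d 7 with h6 | h7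
      · have hd6 : d = 6 := by omega
        have he : e = 0 := by rw [hedef, hd6]; rfl
        rw [hd6, sum_opt_six]
        have e1 : ll 6 1 = 1 := rfl
        have e2 : ll 6 2 = 2 := rfl
        have e3 : ll 6 3 = 3 := rfl
        have e4 : ll 6 4 = 4 := rfl
        have e5 : ll 6 5 = 5 := rfl
        simp only [hg, he, hd6, e1, e2, e3, e4, e5]
        exact six_ineq hs4
      · have he : e = 1 := by rw [hedef]; unfold ed; rw [if_neg (by omega)]
        rw [sum_opt_large h7]
        have e1 : ll d 1 = 1 := by unfold ll; rw [if_pos (by omega)]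
        have e2 : ll d 2 = 2 := by unfold ll; rw [if_pos (by omega)]
        have e3 : ll d 3 = 3 := by unfold ll; rw [if_pos (by omega)]
        have e6 : ll d (d - 1) = 6 := by unfold ll; split_ifs <;> omega
        have e5 : ll d (d - 2) = 5 := by unfold ll; split_ifs <;> omega
        have e4 : ll d (d - 3) = 4 := by unfold ll; split_ifs <;> omega
        simp only [hg, he, e1, e2, e3, e4, e5, e6]
        exact seven_ineq hs4
    rw [card_Wm_succ hT h]
    have h2 : ∑ l ∈ (opt d).filter (fun l => nxt s e (ll d l) ≠ 1023), g l * 377 ^ n ≤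
        ∑ l ∈ (opt d).filter (fun l => nxt s e (ll d l) ≠ 1023), 65535 * 100 ^ n *
          (Wm G F n v (z F v u w l) (z F v u w (l - 1)) (nxt s e (ll d l))).card :=
      Finset.sum_le_sum hstep
    rw [← Finset.sum_mul, hsum, ← Finset.mul_sum] at h2
    calc wt s * 377 ^ (n + 1) = (377 * wt s) * 377 ^ n := by ring
      _ ≤ (100 * ∑ l ∈ opt d, g l) * 377 ^ n := Nat.mul_le_mul_right _ key
      _ = 100 * ((∑ l ∈ opt d, g l) * 377 ^ n) := by ring
      _ ≤ 100 * (65535 * 100 ^ n * ∑ l ∈ (opt d).filter (fun l => nxt s e (ll d l) ≠ 1023),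
          (Wm G F n v (z F v u w l) (z F v u w (l - 1)) (nxt s e (ll d l))).card) :=
        Nat.mul_le_mul_left _ h2
      _ = _ := by ring

/-- **Universal lower bound** for the number of self-avoiding walks. -/
theorem lower (u : V) (n : ℕ) :
    377 ^ n ≤ 65535 * 100 ^ n * (PL G u (n + 1)).ncard := by
  obtain ⟨v, w, h₀⟩ := hT.exists_flag u
  have h : T3 F v u w := h₀.swap
  have hc := count hT n h 0 (by norm_num)
  have hpos := wt_start
  have hs1 : lv (LT 0) 0 = 0 := by decide +kernel
  have hs2 : lv (RT 0) 0 = 0 := by decide +kernel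
  have hfin : (PL G u (n + 1)).Finite := finite_PL (fun v => (hT.deg v).1) (n + 1) u
  have hcard : (Wm G F n u v w 0).card ≤ (PL G u (n + 1)).ncard := by
    have h2 : (fun L => v :: L) '' (Wm G F n u v w 0 : Set (List V)) ⊆ PL G u (n + 1) := by
      rintro _ ⟨L, hL, rfl⟩
      obtain ⟨h3, h4, h5⟩ := nodup4 hT h (s := 0) (by norm_num) hs1 hs2 hL
      exact ⟨h5, h4, by simp [h3]⟩
    have h3 := Set.ncard_le_ncard h2 hfin
    rwa [Set.ncard_image_of_injective _ (fun L L' hL => (List.cons.inj hL).2),
      Set.ncard_coe_finset] at h3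
  calc 377 ^ n = 1 * 377 ^ n := (one_mul _).symm
    _ ≤ wt 0 * 377 ^ n := Nat.mul_le_mul_right _ hpos
    _ ≤ 65535 * 100 ^ n * (Wm G F n u v w 0).card := hc
    _ ≤ 65535 * 100 ^ n * (PL G u (n + 1)).ncard := Nat.mul_le_mul_left _ hcard

end

end Pool.Agent.Work.MP_91103f_co.U
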